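import Pool.Agent.Work.MP_46fa68_95.FlagCell

/-! # scaled joint certificates and density gaps (helper74)

The scaling `f ↦ c f`, `al ↦ c² al` of a joint certificate is free.  Hence one certificate excludes every density
`δ` with `P Q < θ² s12² δ (1 - δ)`, `P = W1 - θ s11 δ > 0`, `Q = W2 - θ s22 (1 - δ)`; this is an interval, so only the
two ends have to be checked. -/

set_option autoImplicit false

open Finset Equiv

namespace Pool.JM

open Pool.EG (TInt thr Gap CellIneq joint_cellIneq)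

theorem Harm_smul {M m n : ℕ} {a : Finset ℕ → ℝ} (c : ℝ) (h : Harm M m n a) :
    Harm M m n (fun B => c * a B) := by
  intro k h1 h2 C hC
  show c * a C = ∑ x ∈ ad C, w C x * (c * a (mv C x))
  rw [h k h1 h2 C hC, Finset.mul_sum]
  exact Finset.sum_congr rfl fun x _ => by ring

theorem G_smul {N M : ℕ} (a : Finset ℕ → ℝ) (c : ℝ) (k : ℕ) (σ τ : Perm (Fin N)) :
    G N M (fun B => c * a B) k σ τ = c * G N M a k σ τ := by
  have h : G N M (fun B => c * a B) k = c • G N M a k := by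
    unfold G
    rw [Finset.smul_sum]
    exact Finset.sum_congr rfl fun B _ => by rw [smul_smul]
  rw [h]
  rfl

theorem Val_smul {N M m : ℕ} {a : Finset ℕ → ℝ} {p q c : ℝ} (hc : 0 ≤ c) (h : Val N M m a p q) :
    Val N M m (fun B => c * a B) (c * p) (c * q) := by
  intro σ hσ
  rw [G_smul]
  have h1 := mul_le_mul_of_nonneg_left (h σ hσ) hc
  refine h1.trans (le_of_eq ?_)
  split_ifs <;> ring

/-- all scalings of a cell inequality -/
def ScIneq (n t : ℕ) (W1 W2 s11 s12 s22 : ℝ) : Prop :=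
  ∀ c : ℝ, 0 ≤ c → CellIneq n t (c ^ 2 * W1) W2 (c ^ 2 * s11) (c * s12) s22

/-- **the scaled family of a joint certificate** -/
theorem joint_scaled {n m M : ℕ} (hM : n + 1 < M) (hm : m ≤ n) (al ph f g : Finset ℕ → ℝ)
    (W1 s11 f0 s12 W2 s22 : ℝ)
    (ha1 : Harm M m n al) (ha2 : Val (n + 1) M m al W1 s11)
    (hf1 : Harm M m (n + 1) f) (hf2 : Val (n + 1) M m f f0 s12)
    (hg1 : Harm M m (n + 1) g) (hg2 : Val (n + 1) M m g W2 s22)
    (hg : ∀ B ∈ Lv M (n + 1), 0 < g B)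
    (hal : ∀ C ∈ Lv M n,
      ∑ x ∈ ad C, w C x * ((f (mv C x) - ph C) ^ 2 / g (mv C x)) ≤ al C) :
    ScIneq (n + 1) (n + 1 - m) W1 W2 s11 s12 s22 := by
  intro c hc
  refine joint_cellIneq hM hm (fun B => c ^ 2 * al B) (fun B => c * ph B) (fun B => c * f B) g
    (c ^ 2 * W1) (c ^ 2 * s11) (c * f0) (c * s12) W2 s22 (Harm_smul _ ha1)
    (Val_smul (sq_nonneg c) ha2) (Harm_smul _ hf1) (Val_smul hc hf2) hg1 hg2 hg ?_
  intro C hC
  show ∑ x ∈ ad C, w C x * ((c * f (mv C x) - c * ph C) ^ 2 / g (mv C x)) ≤ c ^ 2 * al C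
  calc ∑ x ∈ ad C, w C x * ((c * f (mv C x) - c * ph C) ^ 2 / g (mv C x))
      = c ^ 2 * ∑ x ∈ ad C, w C x * ((f (mv C x) - ph C) ^ 2 / g (mv C x)) := by
        rw [Finset.mul_sum]
        exact Finset.sum_congr rfl fun x _ => by ring
    _ ≤ _ := mul_le_mul_of_nonneg_left (hal C hC) (sq_nonneg c)

/-- a constant function is harmonic with values `α` at the identity -/
theorem Harm_const {M m n : ℕ} (hn : n < M) (α : ℝ) : Harm M m n (fun _ => α) := by
  intro k h1 h2 C hC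
  show α = ∑ x ∈ ad C, w C x * α
  have h3 : ∑ x ∈ ad C, w C x = 1 := by
    rw [← w_sum C (Lv_zero_mem hC (by omega))]
    refine Finset.sum_subset (filter_subset _ _) fun x hx hx' => ?_
    refine w_zero ?_
    by_contra hcon
    exact hx' (mem_ad.2 ⟨hx, hcon⟩)
  rw [← Finset.sum_mul, h3, one_mul]

theorem Val_const {N M : ℕ} (hM : N < M) {m : ℕ} (hm : m ≤ N) (α : ℝ) :
    Val N M m (fun _ => α) α 0 :=
  Val_of_const hM hm _ α 0 (fun C _ => by simp)

/-- no density in `[a, b]` -/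
def ExclS (n t : ℕ) (θ a b : ℝ) : Prop :=
  ∀ A : Finset (Perm (Fin n)), TInt t A → θ * ((n - t).factorial : ℝ) ≤ (A.card : ℝ) →
    ∀ x y : Fin n, a * (A.card : ℝ) ≤ ((thr A x y).card : ℝ) →
      ((thr A x y).card : ℝ) ≤ b * (A.card : ℝ) → False

theorem ExclS.union {n t : ℕ} {θ a b c : ℝ} (h1 : ExclS n t θ a b) (h2 : ExclS n t θ b c) :
    ExclS n t θ a c := by
  intro A hA hc x y h3 h4
  rcases le_total ((thr A x y).card : ℝ) (b * A.card) with h | h
  · exact h1 A hA hc x y h3 h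
  · exact h2 A hA hc x y h h4

theorem ExclS.gap {n t : ℕ} {θ a b : ℝ} (h : ExclS n t θ a b) : Gap n t θ a b := by
  intro A hA hc x y
  by_contra hcon
  rw [not_or, not_le, not_le] at hcon
  exact h A hA hc x y hcon.1.le hcon.2.le

theorem ExclS.mono {n t : ℕ} {θ θ' a b : ℝ} (hθ : θ ≤ θ') (h : ExclS n t θ a b) :
    ExclS n t θ' a b := by
  intro A hA hc x y h3 h4
  refine h A hA (le_trans ?_ hc) x y h3 h4
  exact mul_le_mul_of_nonneg_right hθ (Nat.cast_nonneg _)

theorem ExclS.shrink {n t : ℕ} {θ a b a' b' : ℝ} (ha : a ≤ a') (hb : b' ≤ b) (h : ExclS n t θ a b) :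
    ExclS n t θ a' b' := by
  intro A hA hc x y h3 h4
  have h0 : (0 : ℝ) ≤ A.card := Nat.cast_nonneg _
  exact h A hA hc x y ((mul_le_mul_of_nonneg_right ha h0).trans h3)
    (h4.trans (mul_le_mul_of_nonneg_right hb h0))

/-- **the densities excluded by one scaled certificate** -/
theorem excl_of_scaled {n t : ℕ} {θ W1 W2 s11 s12 s22 a b : ℝ} (hθ : 0 < θ)
    (h : ScIneq n t W1 W2 s11 s12 s22) (ha : 0 ≤ a) (hb : b ≤ 1)
    (hW1 : 0 ≤ W1) (hW2 : 0 ≤ W2) (hs12 : 0 ≤ s12) (hconc : s11 * s22 ≤ s12 ^ 2)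
    (hPa : 0 < W1 - θ * s11 * a) (hPb : 0 < W1 - θ * s11 * b)
    (ha2 : (W1 - θ * s11 * a) * (W2 - θ * s22 * (1 - a)) < θ ^ 2 * s12 ^ 2 * (a * (1 - a)))
    (hb2 : (W1 - θ * s11 * b) * (W2 - θ * s22 * (1 - b)) < θ ^ 2 * s12 ^ 2 * (b * (1 - b))) :
    ExclS n t θ a b := by
  intro A hA hc x y h1 h2
  set N : ℝ := ((n - t).factorial : ℝ) with hN
  have hN0 : 0 < N := by
    rw [hN]
    exact_mod_cast Nat.factorial_pos _
  set u : ℝ := (A.card : ℝ) with hu
  set X : ℝ := ((thr A x y).card : ℝ) with hX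
  set Y : ℝ := ((A.filter fun σ => σ x ≠ y).card : ℝ) with hY
  have hu0 : 0 < u := lt_of_lt_of_le (mul_pos hθ hN0) hc
  have hsum : X + Y = u := by
    have := Finset.card_filter_add_card_filter_not (s := A) (fun σ : Perm (Fin n) => σ x = y)
    rw [hu, ← this, hX, hY]
    push_cast
    rfl
  set δ : ℝ := X / u with hδ
  have hXδ : X = δ * u := by
    rw [hδ]
    field_simp
  have hYδ : Y = (1 - δ) * u := by
    have : Y = u - X := by linarith
    rw [this, hXδ]
    ring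
  have hδa : a ≤ δ := by
    rw [hδ, le_div_iff₀ hu0]
    exact h1
  have hδb : δ ≤ b := by
    rw [hδ, div_le_iff₀ hu0]
    exact h2
  have hδ0 : 0 ≤ δ := ha.trans hδa
  have hδ1 : δ ≤ 1 := hδb.trans hb
  -- the first factor
  have hP : 0 < W1 - θ * s11 * δ := by
    rcases le_total 0 (θ * s11) with h3 | h3
    · have := mul_le_mul_of_nonneg_left hδb h3
      linarith
    · have := mul_le_mul_of_nonpos_left hδa h3
      linarith
  -- the product
  have hPQ : (W1 - θ * s11 * δ) * (W2 - θ * s22 * (1 - δ)) < θ ^ 2 * s12 ^ 2 * (δ * (1 - δ)) := by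
    rcases eq_or_lt_of_le hδa with h3 | h3
    · rw [← h3]
      exact ha2
    · have h4 : 0 < b - a := by linarith
      have hK : 0 ≤ θ ^ 2 * (s12 ^ 2 - s11 * s22) * ((b - a) * ((δ - a) * (b - δ))) := by
        have h5 : 0 ≤ θ ^ 2 * (s12 ^ 2 - s11 * s22) := mul_nonneg (sq_nonneg _) (by linarith)
        exact mul_nonneg h5 (mul_nonneg h4.le (mul_nonneg (by linarith) (by linarith)))
      have h6 : (b - a) * (θ ^ 2 * s12 ^ 2 * (δ * (1 - δ)) -
          (W1 - θ * s11 * δ) * (W2 - θ * s22 * (1 - δ))) =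
          (b - δ) * (θ ^ 2 * s12 ^ 2 * (a * (1 - a)) -
            (W1 - θ * s11 * a) * (W2 - θ * s22 * (1 - a))) +
          (δ - a) * (θ ^ 2 * s12 ^ 2 * (b * (1 - b)) -
            (W1 - θ * s11 * b) * (W2 - θ * s22 * (1 - b))) +
          θ ^ 2 * (s12 ^ 2 - s11 * s22) * ((b - a) * ((δ - a) * (b - δ))) := by ring
      have h7 : 0 ≤ (b - δ) * (θ ^ 2 * s12 ^ 2 * (a * (1 - a)) -
            (W1 - θ * s11 * a) * (W2 - θ * s22 * (1 - a))) :=
        mul_nonneg (by linarith) (by linarith)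
      have h8 : 0 < (δ - a) * (θ ^ 2 * s12 ^ 2 * (b * (1 - b)) -
            (W1 - θ * s11 * b) * (W2 - θ * s22 * (1 - b))) :=
        mul_pos (by linarith) (by linarith)
      have h9 : 0 < (b - a) * (θ ^ 2 * s12 ^ 2 * (δ * (1 - δ)) -
          (W1 - θ * s11 * δ) * (W2 - θ * s22 * (1 - δ))) := by
        rw [h6]
        linarith
      have h10 := (mul_pos_iff_of_pos_left h4).1 h9
      linarith
  have hδ1' : 0 < 1 - δ := by
    rcases eq_or_lt_of_le hδ1 with h3 | h3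
    · exfalso
      rw [h3] at hPQ hP
      have h4 : 0 ≤ (W1 - θ * s11 * 1) * W2 := mul_nonneg hP.le hW2
      have h5 : (W1 - θ * s11 * 1) * (W2 - θ * s22 * (1 - 1)) = (W1 - θ * s11 * 1) * W2 := by ring
      rw [h5] at hPQ
      linarith
    · linarith
  set P : ℝ := W1 - θ * s11 * δ with hPdef
  set Q : ℝ := W2 - θ * s22 * (1 - δ) with hQdef
  set c : ℝ := θ * s12 * (1 - δ) / P with hcdef
  have hc0 : 0 ≤ c := by
    rw [hcdef]
    exact div_nonneg (mul_nonneg (mul_nonneg hθ.le hs12) hδ1'.le) hP.le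
  have hcP : c * P = θ * s12 * (1 - δ) := by
    rw [hcdef]
    field_simp
  set L : ℝ := c ^ 2 * W1 * δ + W2 * (1 - δ) with hL
  set S : ℝ := c ^ 2 * s11 * δ ^ 2 + 2 * (c * s12) * δ * (1 - δ) + s22 * (1 - δ) ^ 2 with hS
  have hL0 : 0 ≤ L := by
    rw [hL]
    exact add_nonneg (mul_nonneg (mul_nonneg (sq_nonneg _) hW1) hδ0) (mul_nonneg hW2 hδ1'.le)
  have hLS : L < θ * S := by
    have h3 : P * (L - θ * S) = δ * (c * P) ^ 2 - 2 * (c * P) * (θ * s12 * (δ * (1 - δ))) +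
        (1 - δ) * (P * Q) := by
      rw [hL, hS, hPdef, hQdef]
      ring
    have h4 : P * (L - θ * S) = (1 - δ) * (P * Q - θ ^ 2 * s12 ^ 2 * (δ * (1 - δ))) := by
      rw [h3, hcP]
      ring
    have h5 : P * (L - θ * S) < 0 := by
      rw [h4]
      exact mul_neg_of_pos_of_neg hδ1' (by linarith)
    have h6 : L - θ * S < 0 := by
      by_contra hcon
      push Not at hcon
      have := mul_nonneg hP.le hcon
      linarith
    linarith
  have hS0 : 0 < S := by
    by_contra hcon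
    push Not at hcon
    have := mul_nonpos_of_nonneg_of_nonpos hθ.le hcon
    linarith
  have hmain := h c hc0 A hA x y
  rw [← hX, ← hY, ← hN, hXδ, hYδ] at hmain
  have h3 : (c ^ 2 * W1 * (δ * u) + W2 * ((1 - δ) * u)) -
      (c ^ 2 * s11 * (δ * u) ^ 2 + 2 * (c * s12) * (δ * u) * ((1 - δ) * u) +
        s22 * ((1 - δ) * u) ^ 2) / N = u * (L - u / N * S) := by
    rw [hL, hS]
    field_simp
  rw [h3] at hmain
  have h4 : θ ≤ u / N := by
    rw [le_div_iff₀ hN0]
    exact hc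
  have h5 : θ * S ≤ u / N * S := mul_le_mul_of_nonneg_right h4 hS0.le
  have h6 : u * (L - u / N * S) < 0 := mul_neg_of_pos_of_neg hu0 (by linarith)
  linarith

/-- constant `al`, `s11 = 0`, `s12 = 1`: the density `δ` is excluded iff `α W < θ (α s + θ δ) (1 - δ)` -/
theorem excl_const {n t : ℕ} {θ α W s a b : ℝ} (hθ : 0 < θ) (hα : 0 < α)
    (h : ScIneq n t α W 0 1 s) (ha : 0 ≤ a) (hb : b ≤ 1) (hW : 0 ≤ W)
    (ha2 : α * W < θ * ((α * s + θ * a) * (1 - a)))
    (hb2 : α * W < θ * ((α * s + θ * b) * (1 - b))) :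
    ExclS n t θ a b := by
  refine excl_of_scaled hθ h ha hb hα.le hW zero_le_one (by norm_num) (by linarith) (by linarith)
    ?_ ?_
  · linarith
  · linarith

end Pool.JM
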