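import Pool.Agent.Work.MP_46fa68_74.DS11

/-! # dense-sparse endgame, 12: single `t`, rational inequalities (helper74) -/

set_option autoImplicit false

open Finset Equiv

namespace Pool.EG

/-- the inequalities of the dense-sparse endgame for `β = K / (t + 1)`, `p0 = 1 - P / (t + 1)`,
with rational numbers only (for a numeral `t` each field is closed by `norm_num`) -/
structure FrontD (t : ℕ) (K P : ℝ) : Prop where
  ht : 20 ≤ t
  hK0 : 0 ≤ K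
  hP0 : 0 ≤ P
  hP1 : 2 * P < (t : ℝ) + 1
  h0 : K * ((t : ℝ) + 3) < 2 * ((t : ℝ) + 1)
  hY : 2 + ((t : ℝ) + 3) * (t - 1) < (2 - (t + 3) * (P / ((t : ℝ) + 1))) * ((t + 1) * t * (t - 1))
  h1 : ((t : ℝ) + 2) * (K / ((t : ℝ) + 1)) + 2 * (P / ((t : ℝ) + 1)) < 2 - 1 / (t + 1)
  h3 : ((t : ℝ) + 2) * (K / ((t : ℝ) + 1)) + 3 * (P / ((t : ℝ) + 1)) < 2 - 1 / ((t + 1) * t)
  hE0 : ((t : ℝ) + 2) * (K / ((t : ℝ) + 1)) - (1 - P / ((t : ℝ) + 1)) +
      1.71829 * (K / ((t : ℝ) + 1)) < 1 - 4 / ((t : ℝ) * (t - 1))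
  hlo : 0 < 1 - 1 / (((t : ℝ) + 1) * t) - ((t : ℝ) * 0.6322 + 2) / (t + 1) - P / ((t : ℝ) + 1)
  hE2a : (1 - 1 / (((t : ℝ) + 1) * t) - ((t : ℝ) * 0.6322 + 2) / (t + 1) - P / ((t : ℝ) + 1) +
        1.71829 * (K / ((t : ℝ) + 1))) *
      (1 - 1 / (((t : ℝ) + 1) * t) - ((t : ℝ) * 0.6322 + 2) / (t + 1) - P / ((t : ℝ) + 1) +
        (P / ((t : ℝ) + 1) + 1 / (((t : ℝ) + 1) * t) + 1 / ((t : ℝ) + 1))) <
      (1 - 12 / (((t : ℝ) - 1) * (t - 2))) * (1 + 1 / ((t : ℝ) + 1)) *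
        (1 - 1 / (((t : ℝ) + 1) * t) - ((t : ℝ) * 0.6322 + 2) / (t + 1) - P / ((t : ℝ) + 1))
  hE2b : (P / ((t : ℝ) + 1) + K - 1 + 1 / (((t : ℝ) + 1) * t) + 1.71829 * (K / ((t : ℝ) + 1))) *
      (P / ((t : ℝ) + 1) + K - 1 + 1 / (((t : ℝ) + 1) * t) +
        (P / ((t : ℝ) + 1) + 1 / (((t : ℝ) + 1) * t) + 1 / ((t : ℝ) + 1))) <
      (1 - 12 / (((t : ℝ) - 1) * (t - 2))) * (1 + 1 / ((t : ℝ) + 1)) *
        (P / ((t : ℝ) + 1) + K - 1 + 1 / (((t : ℝ) + 1) * t))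

theorem FrontD.numD {t : ℕ} {K P : ℝ} (F : FrontD t K P) :
    NumD t (K / ((t : ℝ) + 1)) (1 - P / ((t : ℝ) + 1)) := by
  obtain ⟨ht, hK0, hP0, hP1, h0, hY, h1, h3, hE0, hlo, hE2a, hE2b⟩ := F
  have htR : (20 : ℝ) ≤ t := by exact_mod_cast ht
  have hm0 : (0 : ℝ) < (t : ℝ) + 1 := by linarith
  have ht0 : (0 : ℝ) < (t : ℝ) := by linarith
  have e1lt := Real.exp_one_lt_d9
  have e1gt := Real.exp_one_gt_d9
  have em := exp_neg_one_geD
  have hbpos : 0 ≤ K / ((t : ℝ) + 1) := by positivity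
  have hppos : 0 ≤ P / ((t : ℝ) + 1) := by positivity
  have hpi : 1 - (1 - P / ((t : ℝ) + 1)) = P / ((t : ℝ) + 1) := by ring
  have hw0 : 0 < 1 / (((t : ℝ) + 1) * t) := by positivity
  have hr : 0 < 1 / ((t : ℝ) + 1) := by positivity
  have hl1 : lam ((t : ℝ) + 1) * 2 ≤ 4 / ((t : ℝ) * (t - 1)) := by
    have h1 := lam_leD (M := (t : ℝ) + 1) (by linarith)
    have h2 : 2 / (((t : ℝ) + 1 - 1) * ((t : ℝ) + 1 - 2)) = 4 / ((t : ℝ) * (t - 1)) / 2 := by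
      rw [show ((t : ℝ) + 1 - 1) = t by ring, show ((t : ℝ) + 1 - 2) = t - 1 by ring]
      ring
    linarith
  have hl2 : lam (t : ℝ) * 6 ≤ 12 / (((t : ℝ) - 1) * (t - 2)) := by
    have h1 := lam_leD (M := (t : ℝ)) (by linarith)
    have h2 : 2 / (((t : ℝ) - 1) * ((t : ℝ) - 2)) = 12 / (((t : ℝ) - 1) * (t - 2)) / 6 := by ring
    linarith
  have hlo' : ((t : ℝ) * (1 - Real.exp (-1)) + 2) / (t + 1) ≤ ((t : ℝ) * 0.6322 + 2) / (t + 1) := by
    refine div_le_div_of_nonneg_right ?_ hm0.le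
    have : (t : ℝ) * (1 - Real.exp (-1)) ≤ (t : ℝ) * 0.6322 :=
      mul_le_mul_of_nonneg_left (by linarith) ht0.le
    linarith
  refine ⟨ht, hbpos, ?_, ?_, ?_, ?_, ?_, ?_, ?_, ?_⟩
  · have : P / ((t : ℝ) + 1) < 1 / 2 := by
      rw [div_lt_iff₀ hm0]
      linarith
    linarith
  · rw [div_mul_eq_mul_div, div_lt_iff₀ hm0]
    exact h0
  · rw [hpi]
    exact hY
  · rw [hpi]
    exact h1
  · rw [hpi]
    exact h3
  · have h2 := exp_mul_leD (lam ((t : ℝ) + 1) * 2)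
    have h3 : (Real.exp 1 - 1) * (K / ((t : ℝ) + 1)) ≤ 1.71829 * (K / ((t : ℝ) + 1)) :=
      mul_le_mul_of_nonneg_right (by linarith) hbpos
    refine lt_of_lt_of_le (mul_lt_mul_of_pos_left ?_ (Real.exp_pos _)) h2
    linarith
  · rw [hpi]
    linarith
  · intro v hv1 hv2
    rw [hpi] at hv1 hv2 ⊢
    have h4 := exp_mul_leD (lam (t : ℝ) * 6)
    have e3 : ((t : ℝ) + 1) * (K / ((t : ℝ) + 1)) = K := by field_simp
    rw [e3] at hv2
    have hv1' : 1 - 1 / (((t : ℝ) + 1) * t) - ((t : ℝ) * 0.6322 + 2) / (t + 1) -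
        P / ((t : ℝ) + 1) ≤ v := by linarith
    have hvpos : 0 < v := by linarith
    have h5 : (Real.exp 1 - 1) * (K / ((t : ℝ) + 1)) ≤ 1.71829 * (K / ((t : ℝ) + 1)) :=
      mul_le_mul_of_nonneg_right (by linarith) hbpos
    have h5' : 0 ≤ (Real.exp 1 - 1) * (K / ((t : ℝ) + 1)) := mul_nonneg (by linarith) hbpos
    have h6 : (v + (Real.exp 1 - 1) * (K / ((t : ℝ) + 1))) *
        (v + P / ((t : ℝ) + 1) + 1 / (((t : ℝ) + 1) * t) + 1 / ((t : ℝ) + 1)) ≤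
        (v + 1.71829 * (K / ((t : ℝ) + 1))) *
          (v + (P / ((t : ℝ) + 1) + 1 / (((t : ℝ) + 1) * t) + 1 / ((t : ℝ) + 1))) :=
      mul_le_mul (by linarith) (by linarith) (by linarith) (by linarith)
    have h7 : (v + 1.71829 * (K / ((t : ℝ) + 1))) *
          (v + (P / ((t : ℝ) + 1) + 1 / (((t : ℝ) + 1) * t) + 1 / ((t : ℝ) + 1))) <
        ((1 - 12 / (((t : ℝ) - 1) * (t - 2))) * (1 + 1 / ((t : ℝ) + 1))) * v :=
      conc_posD hv1' hv2 hE2a hE2b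
    have h8 : (1 - 12 / (((t : ℝ) - 1) * (t - 2))) * (1 + 1 / ((t : ℝ) + 1)) * v ≤
        (1 - lam (t : ℝ) * 6) * ((1 + 1 / ((t : ℝ) + 1)) * v) := by
      rw [mul_assoc]
      exact mul_le_mul_of_nonneg_right (by linarith) (mul_nonneg (by linarith) hvpos.le)
    have h9 := (h6.trans_lt h7).trans_le h8
    have h10 := mul_lt_mul_of_pos_left h9 (Real.exp_pos (lam (t : ℝ) * 6))
    have h11 : Real.exp (lam (t : ℝ) * 6) *
        ((1 - lam (t : ℝ) * 6) * ((1 + 1 / ((t : ℝ) + 1)) * v)) ≤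
        (1 + 1 / ((t : ℝ) + 1)) * v := by
      rw [← mul_assoc]
      have h12 := mul_le_mul_of_nonneg_right h4
        (mul_nonneg (by linarith : (0:ℝ) ≤ 1 + 1 / ((t : ℝ) + 1)) hvpos.le)
      rwa [one_mul] at h12
    rw [mul_assoc]
    exact h10.trans_le h11

/-- **`Holds (2 t + 1) t` from one gap, single `t ≥ 20`** -/
theorem holds_frontD {t : ℕ} {K P : ℝ} (F : FrontD t K P)
    (hG : Gap (2 * t + 1) t 1 (K / ((t : ℝ) + 1)) (1 - P / ((t : ℝ) + 1)))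
    (hLink : Link t) (hK : ∀ n' t' : ℕ, 2 * t' + 3 ≤ n' → Holds n' t') :
    Holds (2 * t + 1) t := endD F.numD hG hLink hK

theorem front20a : FrontD 20 1.62 1.65 := by constructor <;> norm_num
theorem front20b : FrontD 20 1.647 1.6 := by constructor <;> norm_num
theorem front20c : FrontD 20 1.67 1.35 := by constructor <;> norm_num
theorem front21a : FrontD 21 1.665 1.6 := by constructor <;> norm_num
theorem front21b : FrontD 21 1.69 1.3 := by constructor <;> norm_num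
theorem front22a : FrontD 22 1.68 1.6 := by constructor <;> norm_num
theorem front22b : FrontD 22 1.70 1.35 := by constructor <;> norm_num
theorem front23a : FrontD 23 1.69 1.6 := by constructor <;> norm_num
theorem front24a : FrontD 24 1.70 1.65 := by constructor <;> norm_num
theorem front25a : FrontD 25 1.71 1.7 := by constructor <;> norm_num

end Pool.EG
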