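import Pool.Agent.Work.MP_46fa68_74.DS10

/-! # dense-sparse endgame, 11: the theorem for all `t ≥ 20` from one line (helper74) -/

set_option autoImplicit false

open Finset Equiv

namespace Pool.EG

theorem gap_monoD {n t : ℕ} {θ β β' p p' : ℝ} (h : Gap n t θ β p) (hβ : β ≤ β') (hp : p' ≤ p) :
    Gap n t θ β' p' := by
  intro A hA hc x y
  have ha : (0 : ℝ) ≤ A.card := Nat.cast_nonneg _
  rcases h A hA hc x y with h1 | h1
  · exact Or.inl (h1.trans (mul_le_mul_of_nonneg_right hβ ha))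
  · exact Or.inr ((mul_le_mul_of_nonneg_right hp ha).trans h1)

/-- **`Holds (2 t + 1) t` for `t ≥ 20` from one gap** -/
theorem holds_largeD {t : ℕ} {K P : ℝ} (ht : 20 ≤ t) (hK1 : K ≤ 2 - 8 / ((t : ℝ) + 1))
    (hP1 : P ≤ 2 - 8 / ((t : ℝ) + 1))
    (hG : Gap (2 * t + 1) t 1 (K / ((t : ℝ) + 1)) (1 - P / ((t : ℝ) + 1)))
    (hLink : Link t) (hK : ∀ n' t' : ℕ, 2 * t' + 3 ≤ n' → Holds n' t') :
    Holds (2 * t + 1) t := by
  have hm0 : (0 : ℝ) < (t : ℝ) + 1 := by positivity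
  have h1 := div_le_div_of_nonneg_right hK1 hm0.le
  have h2 := div_le_div_of_nonneg_right hP1 hm0.le
  exact endD (numD_unif ht) (gap_monoD hG h1 (by linarith)) hLink hK

/-- a gap from a product bound -/
theorem gap_of_prodD {n t : ℕ} {β : ℝ}
    (h : ∀ A : Finset (Perm (Fin n)), TInt t A → ((n - t).factorial : ℝ) ≤ A.card → ∀ x y,
      ((thr A x y).card : ℝ) * ((A.card : ℝ) - (thr A x y).card) ≤
        β * (1 - β) * (A.card : ℝ) ^ 2) :
    Gap n t 1 β (1 - β) := by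
  intro A hA hc x y
  rw [one_mul] at hc
  have h1 := h A hA hc x y
  have ha : (0 : ℝ) ≤ A.card := Nat.cast_nonneg _
  by_contra hcon
  push Not at hcon
  obtain ⟨h2, h3⟩ := hcon
  have h4 : 0 < (((thr A x y).card : ℝ) - β * A.card) *
      ((1 - β) * A.card - (thr A x y).card) := mul_pos (by linarith) (by linarith)
  nlinarith

/-- **`Holds (2 t + 1) t` for `t ≥ 20` from the product form** (`m = t + 1`):
`|A_c| |A ∖ A_c| ≤ (A0 / m) |A|²` with `A0 ≤ (2 - 8 / m) (1 - 2 / m + 8 / m²)` -/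
theorem holds_prodD {t : ℕ} {A0 : ℝ} (ht : 20 ≤ t)
    (hA0 : A0 ≤ (2 - 8 / ((t : ℝ) + 1)) * (1 - (2 - 8 / ((t : ℝ) + 1)) / ((t : ℝ) + 1)))
    (h : ∀ A : Finset (Perm (Fin (2 * t + 1))), TInt t A →
      ((t + 1).factorial : ℝ) ≤ A.card → ∀ x y,
      ((thr A x y).card : ℝ) * ((A.card : ℝ) - (thr A x y).card) ≤
        A0 / ((t : ℝ) + 1) * (A.card : ℝ) ^ 2)
    (hLink : Link t) (hK : ∀ n' t' : ℕ, 2 * t' + 3 ≤ n' → Holds n' t') :
    Holds (2 * t + 1) t := by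
  have hm0 : (0 : ℝ) < (t : ℝ) + 1 := by positivity
  refine holds_largeD ht le_rfl le_rfl (gap_of_prodD fun A hA hc x y => ?_) hLink hK
  rw [sub_eq] at hc
  refine (h A hA hc x y).trans (mul_le_mul_of_nonneg_right ?_ (by positivity))
  rw [div_mul_eq_mul_div]
  exact div_le_div_of_nonneg_right hA0 hm0.le

end Pool.EG
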