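import Pool.Agent.Work.MP_46fa68_76.EndA

/-! # dense-sparse endgame, 1: switching on a board with forbidden cells (helper74) -/

set_option autoImplicit false

open Finset Equiv

namespace Pool.EG

variable {n : ℕ}

/-- members of the star which avoid the cells of `F` -/
def av (g : Perm (Fin n)) (T : Finset (Fin n)) (F : Finset (Fin n × Fin n)) :
    Finset (Perm (Fin n)) :=
  (star g T).filter (fun σ => ∀ c ∈ F, σ c.1 ≠ c.2)

theorem mem_av {g : Perm (Fin n)} {T : Finset (Fin n)} {F : Finset (Fin n × Fin n)}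
    {σ : Perm (Fin n)} : σ ∈ av g T F ↔ (∀ i ∈ T, σ i = g i) ∧ ∀ c ∈ F, σ c.1 ≠ c.2 := by
  unfold av
  rw [mem_filter, mem_star]

theorem av_not_mem {g : Perm (Fin n)} {T : Finset (Fin n)} {F : Finset (Fin n × Fin n)}
    {σ : Perm (Fin n)} (h : σ ∈ av g T F) (x : Fin n) : (x, σ x) ∉ F := fun hc =>
  (mem_av.1 h).2 _ hc rfl

/-- the exchange: `σ` and the rows `x`, `x'` -/
theorem swap_mem_av {g : Perm (Fin n)} {T : Finset (Fin n)} {F : Finset (Fin n × Fin n)}
    {σ : Perm (Fin n)} (h : σ ∈ av g T F) {x x' : Fin n} (hx : x ∉ T) (hx' : x' ∉ T)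
    (h1 : (x, σ x') ∉ F) (h2 : (x', σ x) ∉ F) : σ * swap x x' ∈ av g T F := by
  rw [mem_av] at h ⊢
  refine ⟨fun i hi => ?_, fun c hc => ?_⟩
  · have e1 : i ≠ x := by
      rintro rfl
      exact hx hi
    have e2 : i ≠ x' := by
      rintro rfl
      exact hx' hi
    rw [Perm.mul_apply, swap_apply_of_ne_of_ne e1 e2]
    exact h.1 i hi
  · rw [Perm.mul_apply]
    by_cases e1 : c.1 = x
    · rw [e1, swap_apply_left]
      intro e2
      apply h1
      rw [e2, ← e1]
      exact hc
    · by_cases e2 : c.1 = x'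
      · rw [e2, swap_apply_right]
        intro e3
        apply h2
        rw [e3, ← e2]
        exact hc
      · rw [swap_apply_of_ne_of_ne e1 e2]
        exact h.2 c hc

/-- **the switching identity** -/
theorem switch_eq {g : Perm (Fin n)} {T : Finset (Fin n)} {F : Finset (Fin n × Fin n)}
    {x y : Fin n} (hx : x ∉ T) (hy : ∀ i ∈ T, y ≠ g i) (hxy : (x, y) ∉ F) :
    (av g T F).card = (thr (av g T F) x y).card +
      (∑ σ ∈ thr (av g T F) x y,
        ((Tᶜ.erase x).filter (fun x' => (x, σ x') ∉ F ∧ (x', y) ∉ F)).card) +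
      ((av g T F).filter (fun σ => σ x ≠ y ∧ (σ⁻¹ y, σ x) ∈ F)).card := by
  classical
  have e1 : (av g T F).card = ((av g T F).filter (fun σ => σ x = y)).card +
      ((av g T F).filter (fun σ => ¬ σ x = y)).card :=
    (card_filter_add_card_filter_not (s := av g T F) (fun σ => σ x = y)).symm
  have e2 : ((av g T F).filter (fun σ => ¬ σ x = y)).card =
      (((av g T F).filter (fun σ => ¬ σ x = y)).filter (fun σ => (σ⁻¹ y, σ x) ∈ F)).card +
      (((av g T F).filter (fun σ => ¬ σ x = y)).filter (fun σ => ¬ (σ⁻¹ y, σ x) ∈ F)).card :=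
    (card_filter_add_card_filter_not (s := (av g T F).filter (fun σ => ¬ σ x = y))
      (fun σ => (σ⁻¹ y, σ x) ∈ F)).symm
  have e3 : (((av g T F).filter (fun σ => ¬ σ x = y)).filter
      (fun σ => ¬ (σ⁻¹ y, σ x) ∈ F)).card =
      ∑ σ ∈ thr (av g T F) x y,
        ((Tᶜ.erase x).filter (fun x' => (x, σ x') ∉ F ∧ (x', y) ∉ F)).card := by
    rw [← card_sigma]
    refine card_bij' (fun σ _ => ⟨σ * swap x (σ⁻¹ y), σ⁻¹ y⟩) (fun p _ => p.1 * swap x p.2)
      ?_ ?_ ?_ ?_
    · intro σ hσ
      obtain ⟨h1, h2⟩ := mem_filter.1 hσ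
      obtain ⟨h3, h4⟩ := mem_filter.1 h1
      have h5 : σ (σ⁻¹ y) = y := ap_inv σ y
      have hne : σ⁻¹ y ≠ x := by
        intro e
        rw [e] at h5
        exact h4 h5
      have hT : σ⁻¹ y ∉ T := by
        intro hT
        have := (mem_av.1 h3).1 _ hT
        rw [h5] at this
        exact hy _ hT this
      have hin : (σ * swap x (σ⁻¹ y)) ∈ av g T F := by
        refine swap_mem_av h3 hx hT ?_ h2
        rw [h5]
        exact hxy
      refine mem_sigma.2 ⟨mem_filter.2 ⟨hin, ?_⟩, mem_filter.2 ⟨mem_erase.2 ⟨hne, ?_⟩, ?_, ?_⟩⟩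
      · show (σ * swap x (σ⁻¹ y)) x = y
        rw [Perm.mul_apply, swap_apply_left, h5]
      · exact mem_compl.2 hT
      · show (x, (σ * swap x (σ⁻¹ y)) (σ⁻¹ y)) ∉ F
        rw [Perm.mul_apply, swap_apply_right]
        exact av_not_mem h3 x
      · have := av_not_mem h3 (σ⁻¹ y)
        rw [h5] at this
        exact this
    · rintro ⟨σ, x'⟩ hp
      obtain ⟨h1, h2⟩ := mem_sigma.1 hp
      obtain ⟨h3, h4⟩ := mem_filter.1 h1
      obtain ⟨h5, h6, h7⟩ := mem_filter.1 h2
      obtain ⟨h8, h9⟩ := mem_erase.1 h5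
      have hx'T : x' ∉ T := mem_compl.1 h9
      simp only at h3 h4 h6 h7 h8
      have hin : (σ * swap x x') ∈ av g T F := by
        refine swap_mem_av h3 hx hx'T h6 ?_
        rw [h4]
        exact h7
      have hsx : (σ * swap x x') x = σ x' := by
        rw [Perm.mul_apply, swap_apply_left]
      have hsx' : (σ * swap x x') x' = y := by
        rw [Perm.mul_apply, swap_apply_right, h4]
      have hsi : (σ * swap x x')⁻¹ y = x' := by
        rw [← hsx']
        exact (σ * swap x x').symm_apply_apply x'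
      refine mem_filter.2 ⟨mem_filter.2 ⟨hin, ?_⟩, ?_⟩
      · show ¬ (σ * swap x x') x = y
        rw [hsx, ← h4]
        intro e
        exact h8 (σ.injective e)
      · show ¬ ((σ * swap x x')⁻¹ y, (σ * swap x x') x) ∈ F
        rw [hsi, hsx]
        exact av_not_mem h3 x'
    · intro σ hσ
      show σ * swap x (σ⁻¹ y) * swap x (σ⁻¹ y) = σ
      rw [mul_assoc, swap_mul_self, mul_one]
    · rintro ⟨σ, x'⟩ hp
      obtain ⟨h1, h2⟩ := mem_sigma.1 hp
      obtain ⟨h3, h4⟩ := mem_filter.1 h1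
      simp only at h4
      have hsx' : (σ * swap x x') x' = y := by
        rw [Perm.mul_apply, swap_apply_right, h4]
      have hsi : (σ * swap x x')⁻¹ y = x' := by
        rw [← hsx']
        exact (σ * swap x x').symm_apply_apply x'
      show (⟨σ * swap x x' * swap x ((σ * swap x x')⁻¹ y), (σ * swap x x')⁻¹ y⟩ :
        (_ : Perm (Fin n)) × Fin n) = ⟨σ, x'⟩
      rw [hsi, mul_assoc, swap_mul_self, mul_one]
  have e4 : ((av g T F).filter (fun σ => ¬ σ x = y)).filter (fun σ => (σ⁻¹ y, σ x) ∈ F) =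
      (av g T F).filter (fun σ => σ x ≠ y ∧ (σ⁻¹ y, σ x) ∈ F) := by
    rw [filter_filter]
  rw [e1, e2, e3, e4]
  unfold thr
  omega

/-- **upper bound for the number of members through a free cell** -/
theorem cell_le {g : Perm (Fin n)} {T : Finset (Fin n)} {F : Finset (Fin n × Fin n)}
    {x y : Fin n} (hx : x ∉ T) {r c : ℕ}
    (hr : (F.filter (fun c => c.1 = x ∧ ∀ i ∈ T, c.2 ≠ g i)).card ≤ r)
    (hc : (F.filter (fun c => c.2 = y ∧ c.1 ∉ T)).card ≤ c) :
    (n - T.card) * (thr (av g T F) x y).card ≤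
      (av g T F).card + (r + c) * (thr (av g T F) x y).card := by
  classical
  by_cases hcon : thr (av g T F) x y = ∅
  · rw [hcon]
    simp
  obtain ⟨σ0, hσ0⟩ := nonempty_iff_ne_empty.2 hcon
  obtain ⟨h01, h02⟩ := mem_filter.1 hσ0
  have hxy : (x, y) ∉ F := by
    rw [← h02]
    exact av_not_mem h01 x
  have hy : ∀ i ∈ T, y ≠ g i := by
    intro i hi e
    rw [← h02, ← (mem_av.1 h01).1 i hi] at e
    exact hx (σ0.injective e ▸ hi)
  rw [switch_eq hx hy hxy]
  have h1 : ∀ σ ∈ thr (av g T F) x y, (n - T.card) ≤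
      1 + ((Tᶜ.erase x).filter (fun x' => (x, σ x') ∉ F ∧ (x', y) ∉ F)).card + (r + c) := by
    intro σ hσ
    obtain ⟨h3, h4⟩ := mem_filter.1 hσ
    have h5 := card_filter_add_card_filter_not (s := Tᶜ.erase x)
      (fun x' => (x, σ x') ∉ F ∧ (x', y) ∉ F)
    rw [card_erase_of_mem (mem_compl.2 hx), card_compl, Fintype.card_fin] at h5
    have h6 : ((Tᶜ.erase x).filter (fun x' => ¬ ((x, σ x') ∉ F ∧ (x', y) ∉ F))).card ≤ r + c := by
      have h7 : (Tᶜ.erase x).filter (fun x' => ¬ ((x, σ x') ∉ F ∧ (x', y) ∉ F)) ⊆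
          (Tᶜ.erase x).filter (fun x' => (x, σ x') ∈ F) ∪
            (Tᶜ.erase x).filter (fun x' => (x', y) ∈ F) := by
        intro x' hx'
        obtain ⟨h8, h9⟩ := mem_filter.1 hx'
        by_cases h10 : (x, σ x') ∈ F
        · exact mem_union_left _ (mem_filter.2 ⟨h8, h10⟩)
        · refine mem_union_right _ (mem_filter.2 ⟨h8, ?_⟩)
          by_contra h11
          exact h9 ⟨h10, h11⟩
      refine (card_le_card h7).trans ((card_union_le _ _).trans (add_le_add ?_ ?_))
      · refine le_trans ?_ hr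
        refine card_le_card_of_injOn (fun x' => (x, σ x')) ?_ ?_
        · intro x' hx'
          obtain ⟨h8, h9⟩ := mem_filter.1 (mem_coe.1 hx')
          refine mem_coe.2 (mem_filter.2 ⟨h9, rfl, fun i hi e => ?_⟩)
          have h10 : σ x' = g i := e
          rw [← (mem_av.1 h3).1 i hi] at h10
          exact mem_compl.1 (mem_erase.1 h8).2 (σ.injective h10 ▸ hi)
        · intro a _ b _ hab
          exact σ.injective (Prod.ext_iff.1 hab).2
      · refine le_trans ?_ hc
        refine card_le_card_of_injOn (fun x' => (x', y)) ?_ ?_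
        · intro x' hx'
          obtain ⟨h8, h9⟩ := mem_filter.1 (mem_coe.1 hx')
          exact mem_coe.2 (mem_filter.2 ⟨h9, rfl, mem_compl.1 (mem_erase.1 h8).2⟩)
        · intro a _ b _ hab
          exact (Prod.ext_iff.1 hab).1
    omega
  have h2 := sum_le_sum h1
  rw [sum_const, smul_eq_mul, sum_add_distrib, sum_add_distrib, sum_const, sum_const, smul_eq_mul,
    smul_eq_mul, mul_one] at h2
  have h3 : (n - T.card) * (thr (av g T F) x y).card =
      (thr (av g T F) x y).card * (n - T.card) := mul_comm _ _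
  have h4 : (r + c) * (thr (av g T F) x y).card = (thr (av g T F) x y).card * (r + c) :=
    mul_comm _ _
  rw [h3, h4]
  omega

/-- lower bound, any free cell -/
theorem cell_ge0 {g : Perm (Fin n)} {T : Finset (Fin n)} {F : Finset (Fin n × Fin n)}
    {x y : Fin n} (hx : x ∉ T) (hy : ∀ i ∈ T, y ≠ g i) (hxy : (x, y) ∉ F) :
    (av g T F).card ≤ (n - T.card) * (thr (av g T F) x y).card +
      ((av g T F).filter (fun σ => σ x ≠ y ∧ (σ⁻¹ y, σ x) ∈ F)).card := by
  classical
  have h0 := switch_eq hx hy hxy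
  have h1 : ∀ σ ∈ thr (av g T F) x y,
      1 + ((Tᶜ.erase x).filter (fun x' => (x, σ x') ∉ F ∧ (x', y) ∉ F)).card ≤ n - T.card := by
    intro σ _
    have h5 := card_filter_le (Tᶜ.erase x) (fun x' => (x, σ x') ∉ F ∧ (x', y) ∉ F)
    rw [card_erase_of_mem (mem_compl.2 hx), card_compl, Fintype.card_fin] at h5
    have h6 : 1 ≤ n - T.card := by
      have : T.card < (univ : Finset (Fin n)).card :=
        card_lt_card (ssubset_univ_iff.2 fun e => hx (e ▸ mem_univ x))
      rw [card_univ, Fintype.card_fin] at this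
      omega
    omega
  have h2 := sum_le_sum h1
  rw [sum_const, smul_eq_mul, sum_add_distrib, sum_const, smul_eq_mul, mul_one] at h2
  have h3 : (n - T.card) * (thr (av g T F) x y).card =
      (thr (av g T F) x y).card * (n - T.card) := mul_comm _ _
  rw [h3]
  omega

/-- lower bound, a free cell whose row and column contain forbidden cells -/
theorem cell_ge1 {g : Perm (Fin n)} {T : Finset (Fin n)} {F : Finset (Fin n × Fin n)}
    {x y x1 z : Fin n} (hx : x ∉ T) (hy : ∀ i ∈ T, y ≠ g i) (hxy : (x, y) ∉ F)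
    (hz : (x, z) ∈ F) (hzT : ∀ i ∈ T, z ≠ g i) (hx1 : (x1, y) ∈ F) (hx1T : x1 ∉ T) :
    (av g T F).card + 2 * (thr (av g T F) x y).card ≤ (n - T.card) * (thr (av g T F) x y).card +
      (thr (thr (av g T F) x y) x1 z).card +
      ((av g T F).filter (fun σ => σ x ≠ y ∧ (σ⁻¹ y, σ x) ∈ F)).card := by
  classical
  have h0 := switch_eq hx hy hxy
  have h1 : ∀ σ ∈ thr (av g T F) x y,
      3 + ((Tᶜ.erase x).filter (fun x' => (x, σ x') ∉ F ∧ (x', y) ∉ F)).card ≤
        n - T.card + (if σ x1 = z then 1 else 0) := by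
    intro σ hσ
    obtain ⟨h3, h4⟩ := mem_filter.1 hσ
    have hzx : σ⁻¹ z ≠ x := by
      intro e
      have h5 : σ (σ⁻¹ z) = z := ap_inv σ z
      rw [e, h4] at h5
      rw [← h5] at hz
      exact hxy hz
    have hzT' : σ⁻¹ z ∉ T := by
      intro hT
      have h5 : σ (σ⁻¹ z) = z := ap_inv σ z
      rw [(mem_av.1 h3).1 _ hT] at h5
      exact hzT _ hT h5.symm
    have hx1x : x1 ≠ x := by
      rintro rfl
      exact hxy hx1
    have hsub : (Tᶜ.erase x).filter (fun x' => (x, σ x') ∉ F ∧ (x', y) ∉ F) ⊆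
        ((Tᶜ.erase x).erase x1).erase (σ⁻¹ z) := by
      intro x' hx'
      obtain ⟨h5, h6, h7⟩ := mem_filter.1 hx'
      refine mem_erase.2 ⟨?_, mem_erase.2 ⟨?_, h5⟩⟩
      · rintro rfl
        apply h6
        rw [ap_inv]
        exact hz
      · rintro rfl
        exact h7 hx1
    have h8 := card_le_card hsub
    have hn : T.card + 1 ≤ n := by
      have : T.card < (univ : Finset (Fin n)).card :=
        card_lt_card (ssubset_univ_iff.2 fun e => hx (e ▸ mem_univ x))
      rw [card_univ, Fintype.card_fin] at this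
      omega
    have hmem1 : x1 ∈ Tᶜ.erase x := mem_erase.2 ⟨hx1x, mem_compl.2 hx1T⟩
    have hc1 : (Tᶜ.erase x).card = n - T.card - 1 := by
      rw [card_erase_of_mem (mem_compl.2 hx), card_compl, Fintype.card_fin]
    have hc2 : ((Tᶜ.erase x).erase x1).card = n - T.card - 1 - 1 := by
      rw [card_erase_of_mem hmem1, hc1]
    have hc3 : 1 ≤ n - T.card - 1 := by
      rw [← hc1]
      exact card_pos.2 ⟨x1, hmem1⟩
    by_cases h9 : σ x1 = z
    · rw [if_pos h9]
      have h10 : (((Tᶜ.erase x).erase x1).erase (σ⁻¹ z)).card ≤ ((Tᶜ.erase x).erase x1).card :=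
        card_le_card (erase_subset _ _)
      omega
    · rw [if_neg h9]
      have hmem2 : σ⁻¹ z ∈ (Tᶜ.erase x).erase x1 := by
        refine mem_erase.2 ⟨?_, mem_erase.2 ⟨hzx, mem_compl.2 hzT'⟩⟩
        intro e
        apply h9
        rw [← e, ap_inv]
      have hc4 : (((Tᶜ.erase x).erase x1).erase (σ⁻¹ z)).card = n - T.card - 1 - 1 - 1 := by
        rw [card_erase_of_mem hmem2, hc2]
      have hc5 : 1 ≤ n - T.card - 1 - 1 := by
        rw [← hc2]
        exact card_pos.2 ⟨_, hmem2⟩
      omega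
  have h2 := sum_le_sum h1
  rw [sum_add_distrib, sum_add_distrib, sum_const, sum_const, smul_eq_mul, smul_eq_mul,
    ← card_filter] at h2
  have h3 : (n - T.card) * (thr (av g T F) x y).card =
      (thr (av g T F) x y).card * (n - T.card) := mul_comm _ _
  have h4 : (thr (thr (av g T F) x y) x1 z).card =
      ((thr (av g T F) x y).filter (fun σ => σ x1 = z)).card := rfl
  rw [h3, h4]
  omega

end Pool.EG
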