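import Pool.Agent.Work.MP_46fa68_74.DS11

/-! # dense-sparse endgame, 13: sharper numbers for `20 ≤ t ≤ 56` (helper74) -/

set_option autoImplicit false

open Finset Equiv

namespace Pool.EG

/-- the numbers of the dense-sparse endgame with `K = 2 - 15 / (2 (t + 1))`, for `20 ≤ t ≤ 56` -/
theorem numD_unif75 {t : ℕ} (ht : 20 ≤ t) (ht2 : t ≤ 56) :
    NumD t ((2 - 7.5 / ((t : ℝ) + 1)) / ((t : ℝ) + 1))
      (1 - (2 - 7.5 / ((t : ℝ) + 1)) / ((t : ℝ) + 1)) := by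
  have htR2 : (t : ℝ) ≤ 56 := by exact_mod_cast ht2
  have htR : (20 : ℝ) ≤ t := by exact_mod_cast ht
  obtain ⟨r, hr⟩ : ∃ r : ℝ, r = 1 / ((t : ℝ) + 1) := ⟨_, rfl⟩
  have hm0 : (0 : ℝ) < (t : ℝ) + 1 := by linarith
  have ht0 : (0 : ℝ) < (t : ℝ) := by linarith
  have hr0 : 0 < r := by
    rw [hr]
    positivity
  have hrt : r * ((t : ℝ) + 1) = 1 := by
    rw [hr]
    field_simp
  have hrt' : r * (t : ℝ) = 1 - r := by linarith
  have hr1 : r ≤ 1 / 21 := by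
    rw [hr]
    exact one_div_le_one_div_of_le (by norm_num) (by linarith)
  have hr57 : 1 / 57 ≤ r := by
    rw [hr]
    exact one_div_le_one_div_of_le hm0 (by linarith)
  have hb : (2 - 7.5 / ((t : ℝ) + 1)) / ((t : ℝ) + 1) = (2 - 7.5 * r) * r := by
    rw [hr]
    ring
  rw [hb]
  have hpi : 1 - (1 - (2 - 7.5 * r) * r) = (2 - 7.5 * r) * r := by ring
  -- `w0`
  have hw0 : 0 < 1 / (((t : ℝ) + 1) * t) := by positivity
  have hw1 : 1 / (((t : ℝ) + 1) * t) ≤ 1.05 * r ^ 2 := by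
    rw [div_le_iff₀ (by positivity)]
    have h1 : 1.05 * r ^ 2 * (((t : ℝ) + 1) * t) = 1.05 * (r * ((t : ℝ) + 1)) * (r * t) := by ring
    rw [h1, hrt, hrt']
    linarith
  have e1lt := Real.exp_one_lt_d9
  have e1gt := Real.exp_one_gt_d9
  have em := exp_neg_one_geD
  have hr2 : 0 < r ^ 2 := by positivity
  have hr3 : 0 < r ^ 3 := by positivity
  have hr2' : r ^ 2 ≤ r * (1 / 21) := by
    rw [pow_two]
    exact mul_le_mul_of_nonneg_left hr1 hr0.le
  have hr2'' : r * (1 / 57) ≤ r ^ 2 := by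
    rw [pow_two]
    exact mul_le_mul_of_nonneg_left hr57 hr0.le
  have hr3' : r ^ 3 ≤ r ^ 2 * (1 / 21) := by
    rw [show r ^ 3 = r ^ 2 * r by ring]
    exact mul_le_mul_of_nonneg_left hr1 hr2.le
  have hr4' : r ^ 4 ≤ r ^ 3 * (1 / 21) := by
    rw [show r ^ 4 = r ^ 3 * r by ring]
    exact mul_le_mul_of_nonneg_left hr1 hr3.le
  have hr4 : 0 < r ^ 4 := by positivity
  have hr5' : r ^ 5 ≤ r ^ 4 * (1 / 21) := by
    rw [show r ^ 5 = r ^ 4 * r by ring]
    exact mul_le_mul_of_nonneg_left hr1 hr4.le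
  have hr5 : 0 < r ^ 5 := by positivity
  have hbpos : 0 ≤ (2 - 7.5 * r) * r := mul_nonneg (by linarith) hr0.le
  -- the two `lam`
  have hl1 : lam ((t : ℝ) + 1) * 2 ≤ 4.65 * r ^ 2 := by
    have h1 := lam_leD (M := (t : ℝ) + 1) (by linarith)
    have h2 : 2 / (((t : ℝ) + 1 - 1) * ((t : ℝ) + 1 - 2)) ≤ 2.325 * r ^ 2 := by
      rw [div_le_iff₀ (mul_pos (by linarith) (by linarith))]
      have h3 : 2.325 * r ^ 2 * (((t : ℝ) + 1 - 1) * ((t : ℝ) + 1 - 2)) =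
          2.325 * (r * t) * (r * t - r) := by ring
      rw [h3, hrt']
      nlinarith
    linarith
  have hl2 : lam (t : ℝ) * 6 ≤ 15.5 * r ^ 2 := by
    have h1 := lam_leD (M := (t : ℝ)) (by linarith)
    have h2 : 2 / (((t : ℝ) - 1) * ((t : ℝ) - 2)) ≤ 15.5 / 6 * r ^ 2 := by
      rw [div_le_iff₀ (mul_pos (by linarith) (by linarith))]
      have h3 : 15.5 / 6 * r ^ 2 * (((t : ℝ) - 1) * ((t : ℝ) - 2)) =
          15.5 / 6 * (r * t - r) * (r * t - 2 * r) := by ring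
      rw [h3, hrt']
      nlinarith
    linarith
  refine ⟨ht, hbpos, ?_, ?_, ?_, ?_, ?_, ?_, ?_, ?_⟩
  · linarith
  · -- h0
    have h1 : (2 - 7.5 * r) * r * ((t : ℝ) + 3) = (2 - 7.5 * r) * (r * t + 3 * r) := by ring
    rw [h1, hrt']
    linarith
  · -- hY
    rw [hpi]
    have h1 : (2 - ((t : ℝ) + 3) * ((2 - 7.5 * r) * r)) * (((t : ℝ) + 1) * t * (t - 1)) =
        (2 - (2 - 7.5 * r) * (r * t + 3 * r)) * (((t : ℝ) + 1) * t * (t - 1)) := by ring
    have h2 : (2 - (2 - 7.5 * r) * (1 - r + 3 * r)) * (((t : ℝ) + 1) * t * (t - 1)) =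
        (3.5 + 15 * r) * (r * ((t : ℝ) + 1)) * (t * (t - 1)) := by ring
    rw [h1, hrt', h2, hrt]
    have h3 : 0 ≤ r * ((t : ℝ) * (t - 1)) := mul_nonneg hr0.le (mul_nonneg ht0.le (by linarith))
    nlinarith
  · -- h1
    rw [hpi, ← hr]
    have h1 : ((t : ℝ) + 2) * ((2 - 7.5 * r) * r) = (2 - 7.5 * r) * (r * t + 2 * r) := by ring
    rw [h1, hrt']
    linarith
  · -- h3
    rw [hpi]
    have h1 : ((t : ℝ) + 2) * ((2 - 7.5 * r) * r) = (2 - 7.5 * r) * (r * t + 2 * r) := by ring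
    rw [h1, hrt']
    linarith
  · -- hE0
    have h1 : ((t : ℝ) + 2) * ((2 - 7.5 * r) * r) = (2 - 7.5 * r) * (r * t + 2 * r) := by ring
    rw [h1, hrt']
    have h2 := exp_mul_leD (lam ((t : ℝ) + 1) * 2)
    have h3 : (Real.exp 1 - 1) * ((2 - 7.5 * r) * r) ≤ 1.7183 * ((2 - 7.5 * r) * r) :=
      mul_le_mul_of_nonneg_right (by linarith) hbpos
    refine lt_of_lt_of_le (mul_lt_mul_of_pos_left ?_ (Real.exp_pos _)) h2
    linarith
  · -- hlo
    rw [hpi]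
    have h1 : ((t : ℝ) * (1 - Real.exp (-1)) + 2) / (t + 1) =
        (r * t) * (1 - Real.exp (-1)) + 2 * r := by
      rw [hr]
      field_simp
    rw [h1, hrt']
    have h2 : (1 - r) * (1 - Real.exp (-1)) ≤ (1 - r) * 0.6322 :=
      mul_le_mul_of_nonneg_left (by linarith) (by linarith)
    linarith
  · -- hE2
    intro v hv1 hv2
    rw [hpi] at hv1 hv2 ⊢
    have h1 : ((t : ℝ) * (1 - Real.exp (-1)) + 2) / (t + 1) =
        (r * t) * (1 - Real.exp (-1)) + 2 * r := by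
      rw [hr]
      field_simp
    rw [h1, hrt'] at hv1
    have h2 : (1 - r) * (1 - Real.exp (-1)) ≤ (1 - r) * 0.6322 :=
      mul_le_mul_of_nonneg_left (by linarith) (by linarith)
    have hv1' : 0.3678 - 3.3678 * r + 6.4 * r ^ 2 ≤ v := by linarith
    have h3 : ((t : ℝ) + 1) * ((2 - 7.5 * r) * r) = (2 - 7.5 * r) * (r * ((t : ℝ) + 1)) := by ring
    rw [h3, hrt] at hv2
    have hv2' : v ≤ 1 - 5.5 * r - 6.45 * r ^ 2 := by linarith
    rw [← hr]
    have h4 := exp_mul_leD (lam (t : ℝ) * 6)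
    have hvpos : 0 < v := by linarith
    have h5 : (Real.exp 1 - 1) * ((2 - 7.5 * r) * r) ≤ 1.7183 * ((2 - 7.5 * r) * r) :=
      mul_le_mul_of_nonneg_right (by linarith) hbpos
    have h5' : 0 ≤ (Real.exp 1 - 1) * ((2 - 7.5 * r) * r) := mul_nonneg (by linarith) hbpos
    have h6 : (v + (Real.exp 1 - 1) * ((2 - 7.5 * r) * r)) *
        (v + (2 - 7.5 * r) * r + 1 / (((t : ℝ) + 1) * t) + r) ≤
        (v + 1.7183 * ((2 - 7.5 * r) * r)) * (v + (3 * r - 6.45 * r ^ 2)) := by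
      refine mul_le_mul (by linarith) (by linarith) (by linarith) (by linarith)
    have h7 : (v + 1.7183 * ((2 - 7.5 * r) * r)) * (v + (3 * r - 6.45 * r ^ 2)) <
        ((1 - 15.5 * r ^ 2) * (1 + r)) * v := by
      refine conc_posD hv1' hv2' ?_ ?_
      · linarith
      · linarith
    have h8 : (1 - 15.5 * r ^ 2) * (1 + r) * v ≤ (1 - lam (t : ℝ) * 6) * ((1 + r) * v) := by
      have h9 : (1 - 15.5 * r ^ 2) * (1 + r) * v = (1 - 15.5 * r ^ 2) * ((1 + r) * v) := by ring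
      rw [h9]
      exact mul_le_mul_of_nonneg_right (by linarith) (mul_nonneg (by linarith) hvpos.le)
    have h9 := (h6.trans_lt h7).trans_le h8
    have h10 := mul_lt_mul_of_pos_left h9 (Real.exp_pos (lam (t : ℝ) * 6))
    have h11 : Real.exp (lam (t : ℝ) * 6) * ((1 - lam (t : ℝ) * 6) * ((1 + r) * v)) ≤
        (1 + r) * v := by
      rw [← mul_assoc]
      have h12 := mul_le_mul_of_nonneg_right h4 (mul_nonneg (by linarith : (0:ℝ) ≤ 1 + r) hvpos.le)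
      rwa [one_mul] at h12
    rw [mul_assoc]
    exact h10.trans_le h11

end Pool.EG
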