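import Pool.Agent.Work.MP_46fa68_74.DS13

/-! # dense-sparse endgame, 14: the theorem for `20 ≤ t ≤ 56`, `K = 2 - 7.5 / (t + 1)` (helper74) -/

set_option autoImplicit false

open Finset Equiv

namespace Pool.EG

/-- **`Holds (2 t + 1) t` for `20 ≤ t ≤ 56` from one gap** -/
theorem holds_largeD75 {t : ℕ} {K P : ℝ} (ht : 20 ≤ t) (ht2 : t ≤ 56)
    (hK1 : K ≤ 2 - 7.5 / ((t : ℝ) + 1)) (hP1 : P ≤ 2 - 7.5 / ((t : ℝ) + 1))
    (hG : Gap (2 * t + 1) t 1 (K / ((t : ℝ) + 1)) (1 - P / ((t : ℝ) + 1)))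
    (hLink : Link t) (hK : ∀ n' t' : ℕ, 2 * t' + 3 ≤ n' → Holds n' t') :
    Holds (2 * t + 1) t := by
  have hm0 : (0 : ℝ) < (t : ℝ) + 1 := by positivity
  have h1 := div_le_div_of_nonneg_right hK1 hm0.le
  have h2 := div_le_div_of_nonneg_right hP1 hm0.le
  exact endD (numD_unif75 ht ht2) (gap_monoD hG h1 (by linarith)) hLink hK

/-- **`Holds (2 t + 1) t` for `20 ≤ t ≤ 56` from the product form** -/
theorem holds_prodD75 {t : ℕ} {A0 : ℝ} (ht : 20 ≤ t) (ht2 : t ≤ 56)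
    (hA0 : A0 ≤ (2 - 7.5 / ((t : ℝ) + 1)) * (1 - (2 - 7.5 / ((t : ℝ) + 1)) / ((t : ℝ) + 1)))
    (h : ∀ A : Finset (Perm (Fin (2 * t + 1))), TInt t A →
      ((t + 1).factorial : ℝ) ≤ A.card → ∀ x y,
      ((thr A x y).card : ℝ) * ((A.card : ℝ) - (thr A x y).card) ≤
        A0 / ((t : ℝ) + 1) * (A.card : ℝ) ^ 2)
    (hLink : Link t) (hK : ∀ n' t' : ℕ, 2 * t' + 3 ≤ n' → Holds n' t') :
    Holds (2 * t + 1) t := by
  have hm0 : (0 : ℝ) < (t : ℝ) + 1 := by positivity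
  refine holds_largeD75 ht ht2 le_rfl le_rfl (gap_of_prodD fun A hA hc x y => ?_) hLink hK
  rw [sub_eq] at hc
  refine (h A hA hc x y).trans (mul_le_mul_of_nonneg_right ?_ (by positivity))
  rw [div_mul_eq_mul_div]
  exact div_le_div_of_nonneg_right hA0 hm0.le

end Pool.EG
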