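import Pool.Agent.Work.MP_46fa68_74.DS1

/-! # dense-sparse endgame, 2: the share of a free cell (helper74) -/

set_option autoImplicit false

open Finset Equiv

namespace Pool.EG

variable {n : ℕ}

/-- the star through one more cell -/
theorem thr_av {g : Perm (Fin n)} {T : Finset (Fin n)} {F : Finset (Fin n × Fin n)}
    {x y : Fin n} {σ0 : Perm (Fin n)} (h0 : σ0 ∈ thr (av g T F) x y) :
    thr (av g T F) x y = av σ0 (insert x T) F := by
  obtain ⟨h01, h02⟩ := mem_filter.1 h0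
  ext σ
  constructor
  · intro hσ
    obtain ⟨h1, h2⟩ := mem_filter.1 hσ
    rw [mem_av]
    refine ⟨fun i hi => ?_, (mem_av.1 h1).2⟩
    rcases mem_insert.1 hi with rfl | hi
    · rw [h2, h02]
    · rw [(mem_av.1 h1).1 i hi, (mem_av.1 h01).1 i hi]
  · intro hσ
    obtain ⟨h1, h2⟩ := mem_av.1 hσ
    refine mem_filter.2 ⟨mem_av.2 ⟨fun i hi => ?_, h2⟩, ?_⟩
    · rw [h1 i (mem_insert_of_mem hi), (mem_av.1 h01).1 i hi]
    · rw [h1 x (mem_insert_self _ _), h02]

/-- upper bound for two cells -/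
theorem cell2_le {g : Perm (Fin n)} {T : Finset (Fin n)} {F : Finset (Fin n × Fin n)}
    {x y x' y' : Fin n} (hx : x ∉ T) (hx' : x' ∉ T) (hxx : x' ≠ x) {r c : ℕ}
    (hr : (F.filter (fun c => c.1 = x' ∧ c.2 ≠ y)).card ≤ r)
    (hc : (F.filter (fun c => c.2 = y' ∧ c.1 ≠ x)).card ≤ c) :
    (n - (T.card + 1)) * (thr (thr (av g T F) x y) x' y').card ≤
      (thr (av g T F) x y).card + (r + c) * (thr (thr (av g T F) x y) x' y').card := by
  classical
  by_cases hcon : thr (av g T F) x y = ∅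
  · rw [hcon]
    simp [thr]
  obtain ⟨σ0, hσ0⟩ := nonempty_iff_ne_empty.2 hcon
  rw [thr_av hσ0, ← card_insert_of_notMem hx]
  obtain ⟨h01, h02⟩ := mem_filter.1 hσ0
  refine cell_le (fun h => ?_) (le_trans (card_le_card ?_) hr) (le_trans (card_le_card ?_) hc)
  · rcases mem_insert.1 h with h | h
    · exact hxx h
    · exact hx' h
  · intro c hc
    obtain ⟨h1, h2, h3⟩ := mem_filter.1 hc
    refine mem_filter.2 ⟨h1, h2, ?_⟩
    have := h3 x (mem_insert_self _ _)
    rwa [h02] at this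
  · intro c hc
    obtain ⟨h1, h2, h3⟩ := mem_filter.1 hc
    refine mem_filter.2 ⟨h1, h2, ?_⟩
    rintro h4
    exact h3 (mem_insert.2 (Or.inl h4))

/-- a board with at most two forbidden cells in every row and column -/
structure Brd (g : Perm (Fin n)) (T : Finset (Fin n)) (F : Finset (Fin n × Fin n)) : Prop where
  h1 : ∀ c ∈ F, c.1 ∉ T
  h2 : ∀ c ∈ F, ∀ i ∈ T, c.2 ≠ g i
  r2 : ∀ x, (F.filter (fun c => c.1 = x)).card ≤ 2
  c2 : ∀ y, (F.filter (fun c => c.2 = y)).card ≤ 2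

/-- the number of bad exchanges -/
theorem bad_le {g : Perm (Fin n)} {T : Finset (Fin n)} {F : Finset (Fin n × Fin n)}
    (hB : Brd g T F) {x y : Fin n} (hx : x ∉ T) {M : ℕ} (hM : n - T.card = M) (hM4 : 4 ≤ M)
    (hr1 : (F.filter (fun c => c.1 = x)).card ≤ 1) (hc1 : (F.filter (fun c => c.2 = y)).card ≤ 1) :
    (((av g T F).filter (fun σ => σ x ≠ y ∧ (σ⁻¹ y, σ x) ∈ F)).card : ℝ) * ((M : ℝ) - 3) ^ 2 ≤
      F.card * ((av g T F).card : ℝ) := by
  classical
  have hM4R : (4 : ℝ) ≤ M := by exact_mod_cast hM4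
  have hsub : (av g T F).filter (fun σ => σ x ≠ y ∧ (σ⁻¹ y, σ x) ∈ F) ⊆
      F.biUnion (fun c => (av g T F).filter (fun σ => σ x ≠ y ∧ σ⁻¹ y = c.1 ∧ σ x = c.2)) := by
    intro σ hσ
    obtain ⟨h1, h2, h3⟩ := mem_filter.1 hσ
    exact mem_biUnion.2 ⟨_, h3, mem_filter.2 ⟨h1, h2, rfl, rfl⟩⟩
  have h0 : ((av g T F).filter (fun σ => σ x ≠ y ∧ (σ⁻¹ y, σ x) ∈ F)).card ≤
      ∑ c ∈ F, ((av g T F).filter (fun σ => σ x ≠ y ∧ σ⁻¹ y = c.1 ∧ σ x = c.2)).card :=
    (card_le_card hsub).trans card_biUnion_le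
  have h1 : ∀ c ∈ F,
      (((av g T F).filter (fun σ => σ x ≠ y ∧ σ⁻¹ y = c.1 ∧ σ x = c.2)).card : ℝ) *
        ((M : ℝ) - 3) ^ 2 ≤ ((av g T F).card : ℝ) := by
    intro c hc
    by_cases hcx : c.1 = x
    · have e : (av g T F).filter (fun σ => σ x ≠ y ∧ σ⁻¹ y = c.1 ∧ σ x = c.2) = ∅ := by
        rw [filter_eq_empty_iff]
        rintro σ _ ⟨h2, h3, _⟩
        apply h2
        rw [hcx] at h3
        rw [← h3, ap_inv]
      rw [e, card_empty, Nat.cast_zero, zero_mul]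
      exact Nat.cast_nonneg _
    · have hsub2 : (av g T F).filter (fun σ => σ x ≠ y ∧ σ⁻¹ y = c.1 ∧ σ x = c.2) ⊆
          thr (thr (av g T F) x c.2) c.1 y := by
        intro σ hσ
        obtain ⟨h2, h3, h4, h5⟩ := mem_filter.1 hσ
        refine mem_filter.2 ⟨mem_filter.2 ⟨h2, h5⟩, ?_⟩
        rw [← h4, ap_inv]
      have h2 : (((av g T F).filter (fun σ => σ x ≠ y ∧ σ⁻¹ y = c.1 ∧ σ x = c.2)).card : ℝ) ≤
          ((thr (thr (av g T F) x c.2) c.1 y).card : ℝ) := by exact_mod_cast card_le_card hsub2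
      have h3 := cell_le (g := g) (T := T) (F := F) (x := x) (y := c.2) hx (r := 1) (c := 2)
        (le_trans (card_le_card fun c' hc' => by
          obtain ⟨h4, h5, _⟩ := mem_filter.1 hc'
          exact mem_filter.2 ⟨h4, h5⟩) hr1)
        (le_trans (card_le_card fun c' hc' => by
          obtain ⟨h4, h5, _⟩ := mem_filter.1 hc'
          exact mem_filter.2 ⟨h4, h5⟩) (hB.c2 c.2))
      have h4 := cell2_le (g := g) (T := T) (F := F) (x := x) (y := c.2) (x' := c.1) (y' := y) hx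
        (hB.h1 c hc) hcx (r := 1) (c := 1) (by
          have h5 : (F.filter (fun c' => c'.1 = c.1 ∧ c'.2 ≠ c.2)) ⊆
              (F.filter (fun c' => c'.1 = c.1)).erase c := by
            intro c' hc'
            obtain ⟨h6, h7, h8⟩ := mem_filter.1 hc'
            refine mem_erase.2 ⟨?_, mem_filter.2 ⟨h6, h7⟩⟩
            rintro rfl
            exact h8 rfl
          have h6 := card_le_card h5
          have hm : c ∈ F.filter (fun c' => c'.1 = c.1) := mem_filter.2 ⟨hc, rfl⟩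
          rw [card_erase_of_mem hm] at h6
          have h7 := hB.r2 c.1
          omega)
        (le_trans (card_le_card fun c' hc' => by
          obtain ⟨h4, h5, _⟩ := mem_filter.1 hc'
          exact mem_filter.2 ⟨h4, h5⟩) hc1)
      rw [hM] at h3
      rw [show n - (T.card + 1) = M - 1 by omega] at h4
      have h3R : (M : ℝ) * ((thr (av g T F) x c.2).card : ℝ) ≤
          ((av g T F).card : ℝ) + 3 * ((thr (av g T F) x c.2).card : ℝ) := by
        have : M * (thr (av g T F) x c.2).card ≤ (av g T F).card + 3 * (thr (av g T F) x c.2).card := by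
          omega
        exact_mod_cast this
      have h4R : ((M : ℝ) - 1) * ((thr (thr (av g T F) x c.2) c.1 y).card : ℝ) ≤
          ((thr (av g T F) x c.2).card : ℝ) + 2 * ((thr (thr (av g T F) x c.2) c.1 y).card : ℝ) := by
        have h5 : (M - 1) * (thr (thr (av g T F) x c.2) c.1 y).card ≤
            (thr (av g T F) x c.2).card + 2 * (thr (thr (av g T F) x c.2) c.1 y).card := by
          omega
        have h6 : ((M - 1 : ℕ) : ℝ) = (M : ℝ) - 1 := by
          rw [Nat.cast_sub (by omega)]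
          norm_num
        rw [← h6]
        exact_mod_cast h5
      have h5 : (0 : ℝ) ≤ (M : ℝ) - 3 := by linarith
      have h6 : ((thr (thr (av g T F) x c.2) c.1 y).card : ℝ) * ((M : ℝ) - 3) ≤
          ((thr (av g T F) x c.2).card : ℝ) := by linarith
      have h7 : ((thr (av g T F) x c.2).card : ℝ) * ((M : ℝ) - 3) ≤ ((av g T F).card : ℝ) := by
        linarith
      calc (((av g T F).filter (fun σ => σ x ≠ y ∧ σ⁻¹ y = c.1 ∧ σ x = c.2)).card : ℝ) *
            ((M : ℝ) - 3) ^ 2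
          ≤ ((thr (thr (av g T F) x c.2) c.1 y).card : ℝ) * ((M : ℝ) - 3) ^ 2 :=
            mul_le_mul_of_nonneg_right h2 (sq_nonneg _)
        _ = (((thr (thr (av g T F) x c.2) c.1 y).card : ℝ) * ((M : ℝ) - 3)) * ((M : ℝ) - 3) := by
            ring
        _ ≤ ((thr (av g T F) x c.2).card : ℝ) * ((M : ℝ) - 3) :=
            mul_le_mul_of_nonneg_right h6 h5
        _ ≤ _ := h7
  have h2 : (((av g T F).filter (fun σ => σ x ≠ y ∧ (σ⁻¹ y, σ x) ∈ F)).card : ℝ) ≤
      ∑ c ∈ F, (((av g T F).filter (fun σ => σ x ≠ y ∧ σ⁻¹ y = c.1 ∧ σ x = c.2)).card : ℝ) := by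
    exact_mod_cast h0
  calc (((av g T F).filter (fun σ => σ x ≠ y ∧ (σ⁻¹ y, σ x) ∈ F)).card : ℝ) * ((M : ℝ) - 3) ^ 2
      ≤ (∑ c ∈ F, (((av g T F).filter (fun σ => σ x ≠ y ∧ σ⁻¹ y = c.1 ∧ σ x = c.2)).card : ℝ)) *
          ((M : ℝ) - 3) ^ 2 := mul_le_mul_of_nonneg_right h2 (sq_nonneg _)
    _ = ∑ c ∈ F, (((av g T F).filter (fun σ => σ x ≠ y ∧ σ⁻¹ y = c.1 ∧ σ x = c.2)).card : ℝ) *
          ((M : ℝ) - 3) ^ 2 := by rw [sum_mul]
    _ ≤ ∑ c ∈ F, ((av g T F).card : ℝ) := sum_le_sum h1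
    _ = _ := by rw [sum_const, nsmul_eq_mul]

/-- share of a free cell, general case -/
theorem step_exc {g : Perm (Fin n)} {T : Finset (Fin n)} {F : Finset (Fin n × Fin n)}
    (hB : Brd g T F) {x y : Fin n} (hx : x ∉ T) (hy : ∀ i ∈ T, y ≠ g i) (hxy : (x, y) ∉ F)
    {M : ℕ} (hM : n - T.card = M) (hM4 : 4 ≤ M)
    (hr1 : (F.filter (fun c => c.1 = x)).card ≤ 1) (hc1 : (F.filter (fun c => c.2 = y)).card ≤ 1) :
    ((av g T F).card : ℝ) * (((M : ℝ) - 3) ^ 2 - F.card) ≤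
      M * ((M : ℝ) - 3) ^ 2 * ((thr (av g T F) x y).card : ℝ) := by
  have h1 := cell_ge0 hx hy hxy
  rw [hM] at h1
  have h2 : ((av g T F).card : ℝ) ≤ M * ((thr (av g T F) x y).card : ℝ) +
      (((av g T F).filter (fun σ => σ x ≠ y ∧ (σ⁻¹ y, σ x) ∈ F)).card : ℝ) := by exact_mod_cast h1
  have h3 := bad_le hB hx hM hM4 hr1 hc1
  have h4 := mul_le_mul_of_nonneg_right h2 (sq_nonneg ((M : ℝ) - 3))
  linarith

/-- share of a free cell whose row and column contain forbidden cells -/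
theorem step_good {g : Perm (Fin n)} {T : Finset (Fin n)} {F : Finset (Fin n × Fin n)}
    (hB : Brd g T F) {x y x1 z : Fin n} (hx : x ∉ T) (hy : ∀ i ∈ T, y ≠ g i) (hxy : (x, y) ∉ F)
    (hz : (x, z) ∈ F) (hx1 : (x1, y) ∈ F)
    {M : ℕ} (hM : n - T.card = M) (hM4 : 4 ≤ M)
    (hr1 : (F.filter (fun c => c.1 = x)).card ≤ 1) (hc1 : (F.filter (fun c => c.2 = y)).card ≤ 1) :
    ((av g T F).card : ℝ) * (((M : ℝ) - 3) ^ 2 - F.card) * ((M : ℝ) - 3) ≤
      (((M : ℝ) - 2) * ((M : ℝ) - 3) + 1) * ((M : ℝ) - 3) ^ 2 * ((thr (av g T F) x y).card : ℝ) := by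
  classical
  have hM4R : (4 : ℝ) ≤ M := by exact_mod_cast hM4
  have hx1T : x1 ∉ T := hB.h1 _ hx1
  have hx1x : x1 ≠ x := by
    rintro rfl
    exact hxy hx1
  have h1 := cell_ge1 hx hy hxy hz (hB.h2 _ hz) hx1 hx1T
  rw [hM] at h1
  have h2 : ((av g T F).card : ℝ) + 2 * ((thr (av g T F) x y).card : ℝ) ≤
      M * ((thr (av g T F) x y).card : ℝ) + ((thr (thr (av g T F) x y) x1 z).card : ℝ) +
      (((av g T F).filter (fun σ => σ x ≠ y ∧ (σ⁻¹ y, σ x) ∈ F)).card : ℝ) := by exact_mod_cast h1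
  have h3 := bad_le hB hx hM hM4 hr1 hc1
  have h4 := cell2_le (g := g) (T := T) (F := F) (x := x) (y := y) (x' := x1) (y' := z) hx
    hx1T hx1x (r := 1) (c := 1) (by
      have h5 : (F.filter (fun c' => c'.1 = x1 ∧ c'.2 ≠ y)) ⊆
          (F.filter (fun c' => c'.1 = x1)).erase (x1, y) := by
        intro c' hc'
        obtain ⟨h6, h7, h8⟩ := mem_filter.1 hc'
        refine mem_erase.2 ⟨?_, mem_filter.2 ⟨h6, h7⟩⟩
        rintro rfl
        exact h8 rfl
      have h6 := card_le_card h5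
      have hm : (x1, y) ∈ F.filter (fun c' => c'.1 = x1) := mem_filter.2 ⟨hx1, rfl⟩
      rw [card_erase_of_mem hm] at h6
      have h7 := hB.r2 x1
      omega)
    (by
      have h5 : (F.filter (fun c' => c'.2 = z ∧ c'.1 ≠ x)) ⊆
          (F.filter (fun c' => c'.2 = z)).erase (x, z) := by
        intro c' hc'
        obtain ⟨h6, h7, h8⟩ := mem_filter.1 hc'
        refine mem_erase.2 ⟨?_, mem_filter.2 ⟨h6, h7⟩⟩
        rintro rfl
        exact h8 rfl
      have h6 := card_le_card h5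
      have hm : (x, z) ∈ F.filter (fun c' => c'.2 = z) := mem_filter.2 ⟨hz, rfl⟩
      rw [card_erase_of_mem hm] at h6
      have h7 := hB.c2 z
      omega)
  rw [show n - (T.card + 1) = M - 1 by omega] at h4
  have h4R : ((M : ℝ) - 1) * ((thr (thr (av g T F) x y) x1 z).card : ℝ) ≤
      ((thr (av g T F) x y).card : ℝ) + 2 * ((thr (thr (av g T F) x y) x1 z).card : ℝ) := by
    have h5 : (M - 1) * (thr (thr (av g T F) x y) x1 z).card ≤
        (thr (av g T F) x y).card + 2 * (thr (thr (av g T F) x y) x1 z).card := by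
      omega
    have h6 : ((M - 1 : ℕ) : ℝ) = (M : ℝ) - 1 := by
      rw [Nat.cast_sub (by omega)]
      norm_num
    rw [← h6]
    exact_mod_cast h5
  set a : ℝ := ((av g T F).card : ℝ) with ha
  set b : ℝ := ((thr (av g T F) x y).card : ℝ) with hb
  set w : ℝ := ((thr (thr (av g T F) x y) x1 z).card : ℝ) with hw
  set d : ℝ := (((av g T F).filter (fun σ => σ x ≠ y ∧ (σ⁻¹ y, σ x) ∈ F)).card : ℝ) with hd
  set u : ℝ := (M : ℝ) - 3 with hu
  have hu0 : 0 < u := by
    rw [hu]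
    linarith
  have h6 : w * u ≤ b := by
    rw [hu]
    linarith
  have hMu : (M : ℝ) - 2 = u + 1 := by
    rw [hu]
    ring
  have h7 : a ≤ (u + 1) * b + w + d := by
    have : (M : ℝ) = u + 3 := by
      rw [hu]
      ring
    rw [this] at h2
    linarith
  rw [hMu]
  have h8 : a * u ^ 2 * u ≤ ((u + 1) * b + w + d) * u ^ 2 * u := by
    have : 0 ≤ u ^ 2 * u := by positivity
    calc a * u ^ 2 * u = a * (u ^ 2 * u) := by ring
      _ ≤ ((u + 1) * b + w + d) * (u ^ 2 * u) := mul_le_mul_of_nonneg_right h7 this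
      _ = _ := by ring
  have h9 : w * u * u ^ 2 ≤ b * u ^ 2 := mul_le_mul_of_nonneg_right h6 (sq_nonneg u)
  have h10 : d * u ^ 2 * u ≤ F.card * a * u := mul_le_mul_of_nonneg_right h3 hu0.le
  nlinarith

end Pool.EG
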