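import Pool.Agent.Work.MP_46fa68_74.DS2

/-! # dense-sparse endgame, 3: permutations avoiding two partial permutations (helper74) -/

set_option autoImplicit false

open Finset Equiv

namespace Pool.EG

variable {n : ℕ}

/-- the cells of `τ` in the rows of `S` -/
def cel (τ : Perm (Fin n)) (S : Finset (Fin n)) : Finset (Fin n × Fin n) :=
  S.image (fun x => (x, τ x))

theorem mem_cel {τ : Perm (Fin n)} {S : Finset (Fin n)} {c : Fin n × Fin n} :
    c ∈ cel τ S ↔ c.1 ∈ S ∧ c.2 = τ c.1 := by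
  unfold cel
  rw [mem_image]
  constructor
  · rintro ⟨x, hx, rfl⟩
    exact ⟨hx, rfl⟩
  · rintro ⟨h1, h2⟩
    exact ⟨c.1, h1, Prod.ext rfl h2.symm⟩

theorem card_cel (τ : Perm (Fin n)) (S : Finset (Fin n)) : (cel τ S).card = S.card := by
  unfold cel
  exact card_image_of_injective _ fun a b h => (Prod.ext_iff.1 h).1

theorem av_insert {g : Perm (Fin n)} {T : Finset (Fin n)} {F : Finset (Fin n × Fin n)}
    {c : Fin n × Fin n} :
    (av g T (insert c F)).card + (thr (av g T F) c.1 c.2).card = (av g T F).card := by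
  classical
  have h1 := card_filter_add_card_filter_not (s := av g T F) (fun σ => σ c.1 = c.2)
  have h2 : av g T (insert c F) = (av g T F).filter (fun σ => ¬ σ c.1 = c.2) := by
    ext σ
    rw [mem_filter, mem_av, mem_av]
    constructor
    · rintro ⟨h3, h4⟩
      exact ⟨⟨h3, fun c' hc' => h4 c' (mem_insert_of_mem hc')⟩, h4 c (mem_insert_self _ _)⟩
    · rintro ⟨⟨h3, h4⟩, h5⟩
      refine ⟨h3, fun c' hc' => ?_⟩
      rcases mem_insert.1 hc' with rfl | hc'
      · exact h5
      · exact h4 c' hc'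
  rw [h2]
  unfold thr
  omega

theorem cel_insert (τ : Perm (Fin n)) (S : Finset (Fin n)) (x : Fin n) :
    cel τ (insert x S) = insert (x, τ x) (cel τ S) := by
  unfold cel
  rw [image_insert]

/-- lower bound for one partial permutation -/
theorem av_partial {g : Perm (Fin n)} {T : Finset (Fin n)} {M : ℕ} (hM : n - T.card = M)
    (hM1 : 1 ≤ M) (τ : Perm (Fin n)) (R : Finset (Fin n)) (hR : ∀ x ∈ R, x ∉ T) :
    (M.factorial : ℝ) * (1 - 1 / (M : ℝ)) ^ R.card ≤ ((av g T (cel τ R)).card : ℝ) := by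
  classical
  have hMR : (1 : ℝ) ≤ M := by exact_mod_cast hM1
  induction R using Finset.induction_on with
  | empty =>
    have h1 : av g T (cel τ ∅) = star g T := by
      ext σ
      rw [mem_av, mem_star]
      constructor
      · exact fun h => h.1
      · intro h
        refine ⟨h, fun c hc => ?_⟩
        exact absurd (mem_cel.1 hc).1 (notMem_empty _)
    rw [h1, card_star, hM, card_empty, pow_zero, mul_one]
  | insert x R hx ih =>
    have h1 := ih fun z hz => hR z (mem_insert_of_mem hz)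
    have hxT := hR x (mem_insert_self _ _)
    have h2 := cell_le (g := g) (T := T) (F := cel τ R) (x := x) (y := τ x) hxT (r := 0) (c := 0)
      (by
        rw [Nat.le_zero, card_eq_zero, filter_eq_empty_iff]
        rintro c hc ⟨h3, _⟩
        rw [← h3] at hx
        exact hx (mem_cel.1 hc).1)
      (by
        rw [Nat.le_zero, card_eq_zero, filter_eq_empty_iff]
        rintro c hc ⟨h3, _⟩
        obtain ⟨h4, h5⟩ := mem_cel.1 hc
        rw [h5] at h3
        rw [← τ.injective h3] at hx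
        exact hx h4)
    rw [hM] at h2
    have h3 := av_insert (g := g) (T := T) (F := cel τ R) (c := (x, τ x))
    rw [← cel_insert] at h3
    simp only at h3
    have h4 : (M : ℝ) * ((thr (av g T (cel τ R)) x (τ x)).card : ℝ) ≤
        ((av g T (cel τ R)).card : ℝ) := by
      have : M * (thr (av g T (cel τ R)) x (τ x)).card ≤ (av g T (cel τ R)).card := by omega
      exact_mod_cast this
    have h5 : ((av g T (cel τ (insert x R))).card : ℝ) +
        ((thr (av g T (cel τ R)) x (τ x)).card : ℝ) = ((av g T (cel τ R)).card : ℝ) := by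
      exact_mod_cast h3
    rw [card_insert_of_notMem hx, pow_succ]
    have h6 : ((thr (av g T (cel τ R)) x (τ x)).card : ℝ) ≤
        1 / (M : ℝ) * ((av g T (cel τ R)).card : ℝ) := by
      rw [one_div, inv_mul_eq_div, le_div_iff₀ (by linarith)]
      linarith
    have hq : 0 ≤ 1 - 1 / (M : ℝ) := by
      rw [sub_nonneg, div_le_one (by linarith)]
      exact hMR
    have h7 := mul_le_mul_of_nonneg_right h1 hq
    calc (M.factorial : ℝ) * ((1 - 1 / (M : ℝ)) ^ R.card * (1 - 1 / (M : ℝ)))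
        = (M.factorial : ℝ) * (1 - 1 / (M : ℝ)) ^ R.card * (1 - 1 / (M : ℝ)) := by ring
      _ ≤ ((av g T (cel τ R)).card : ℝ) * (1 - 1 / (M : ℝ)) := h7
      _ ≤ _ := by linarith

/-! ### the numbers -/

/-- share of a good cell -/
noncomputable def dl (M k : ℝ) : ℝ := (1 - k / (M - 3) ^ 2) / (M - 2 + 1 / (M - 3))

/-- the gain of a good cell against `1 - 1/M` -/
noncomputable def gk (M k : ℝ) : ℝ := (dl M k - 1 / M) / (1 - 1 / M)

/-- the loss of an exceptional cell -/
noncomputable def lam (M : ℝ) : ℝ := (1 / (M - 2 + 1 / (M - 3)) - 1 / M) / (1 - 1 / M)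

theorem A_pos {M : ℝ} (hM : 4 ≤ M) : 0 < M - 2 + 1 / (M - 3) := by
  have : 0 < 1 / (M - 3) := by
    apply one_div_pos.2
    linarith
  linarith

theorem A_le {M : ℝ} (hM : 4 ≤ M) : M - 2 + 1 / (M - 3) ≤ M := by
  have : 1 / (M - 3) ≤ 1 := by
    rw [div_le_one (by linarith)]
    linarith
  linarith

theorem q_pos {M : ℝ} (hM : 4 ≤ M) : 0 < 1 - 1 / M := by
  rw [sub_pos, div_lt_one (by linarith)]
  linarith

theorem lam_nonneg {M : ℝ} (hM : 4 ≤ M) : 0 ≤ lam M := by
  unfold lam
  refine div_nonneg (sub_nonneg.2 ?_) (q_pos hM).le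
  exact one_div_le_one_div_of_le (A_pos hM) (A_le hM)

theorem dl_anti {M k k' : ℝ} (hM : 4 ≤ M) (h : k ≤ k') : dl M k' ≤ dl M k := by
  unfold dl
  refine div_le_div_of_nonneg_right ?_ (A_pos hM).le
  have h1 : 0 < (M - 3) ^ 2 := by
    have : 0 < M - 3 := by linarith
    positivity
  have : k / (M - 3) ^ 2 ≤ k' / (M - 3) ^ 2 := div_le_div_of_nonneg_right h h1.le
  linarith

theorem q_gk {M k : ℝ} (hM : 4 ≤ M) : (1 - 1 / M) * (1 - gk M k) = 1 - dl M k := by
  unfold gk
  rw [mul_sub, mul_one, mul_comm, div_mul_cancel₀ _ (q_pos hM).ne']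
  ring

theorem q_gk_lam {M k : ℝ} (hM : 4 ≤ M) :
    (1 - 1 / M) * (1 - gk M k + lam M) =
      1 - dl M k + (1 / (M - 2 + 1 / (M - 3)) - 1 / M) := by
  have h1 := q_gk (k := k) hM
  have h2 : (1 - 1 / M) * lam M = 1 / (M - 2 + 1 / (M - 3)) - 1 / M := by
    unfold lam
    rw [mul_comm, div_mul_cancel₀ _ (q_pos hM).ne']
  rw [mul_add, h1, h2]

theorem sum_range_real (s : ℕ) : ∑ k ∈ range s, (k : ℝ) = s * (s - 1) / 2 := by
  induction s with
  | zero => simp
  | succ s ih =>
    rw [sum_range_succ, ih]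
    push_cast
    ring

/-- the total gain is nonnegative -/
theorem gk_sum {M : ℝ} (hM : 20 ≤ M) {r : ℝ} (hr : r ≤ M - 1) {s : ℕ} (hs : (s : ℝ) ≤ M - 1) :
    0 ≤ ∑ k ∈ range s, gk M (r + k) := by
  have hM4 : 4 ≤ M := by linarith
  have hA := A_pos hM4
  have hq := q_pos hM4
  have hu : 0 < M - 3 := by linarith
  have e : ∑ k ∈ range s, gk M (r + k) =
      ((s - (r * s + s * (s - 1) / 2) / (M - 3) ^ 2) / (M - 2 + 1 / (M - 3)) - s / M) /
        (1 - 1 / M) := by
    unfold gk dl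
    rw [← sum_div, sum_sub_distrib, ← sum_div, sum_sub_distrib, ← sum_div, sum_add_distrib,
      sum_range_real]
    simp only [sum_const, card_range, nsmul_eq_mul, mul_one, mul_one_div]
    ring
  rw [e]
  refine div_nonneg (sub_nonneg.2 ?_) hq.le
  rw [le_div_iff₀ hA, div_mul_eq_mul_div, div_le_iff₀ (by linarith)]
  have hs0 : (0 : ℝ) ≤ s := Nat.cast_nonneg _
  have key : (M - 2 + 1 / (M - 3)) ≤ (1 - (r + (s - 1) / 2) / (M - 3) ^ 2) * M := by
    have h1 : (r + ((s : ℝ) - 1) / 2) ≤ (3 * M - 4) / 2 := by linarith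
    have h2 : (r + ((s : ℝ) - 1) / 2) / (M - 3) ^ 2 ≤ ((3 * M - 4) / 2) / (M - 3) ^ 2 :=
      div_le_div_of_nonneg_right h1 (sq_nonneg _)
    have h3 : (1 - ((3 * M - 4) / 2) / (M - 3) ^ 2) * M ≤
        (1 - (r + ((s : ℝ) - 1) / 2) / (M - 3) ^ 2) * M :=
      mul_le_mul_of_nonneg_right (by linarith) (by linarith)
    refine le_trans ?_ h3
    have h4 : (1 - ((3 * M - 4) / 2) / (M - 3) ^ 2) * M - (M - 2 + 1 / (M - 3)) =
        (M ^ 2 - 22 * M + 42) / (2 * (M - 3) ^ 2) := by
      field_simp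
      ring
    have h5 : 0 ≤ (M ^ 2 - 22 * M + 42) / (2 * (M - 3) ^ 2) := by
      refine div_nonneg ?_ (by positivity)
      nlinarith
    linarith
  have h6 := mul_le_mul_of_nonneg_left key hs0
  calc (s : ℝ) * (M - 2 + 1 / (M - 3)) ≤ s * ((1 - (r + (s - 1) / 2) / (M - 3) ^ 2) * M) := h6
    _ = (s - (r * s + s * (s - 1) / 2) / (M - 3) ^ 2) * M := by ring

end Pool.EG
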