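import Pool.Agent.Work.MP_46fa68_74.DS3

/-! # dense-sparse endgame, 4: the pair count (helper74) -/

set_option autoImplicit false

open Finset Equiv

namespace Pool.EG

variable {n : ℕ}

/-- a partial permutation on the free rows and columns -/
def OnB (g : Perm (Fin n)) (T : Finset (Fin n)) (τ : Perm (Fin n)) (R : Finset (Fin n)) : Prop :=
  ∀ x ∈ R, x ∉ T ∧ ∀ i ∈ T, τ x ≠ g i

theorem brd_union {g : Perm (Fin n)} {T : Finset (Fin n)} {τ1 τ2 : Perm (Fin n)}
    {R1 S : Finset (Fin n)} (h1 : OnB g T τ1 R1) (h2 : OnB g T τ2 S) :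
    Brd g T (cel τ1 R1 ∪ cel τ2 S) where
  h1 := by
    intro c hc
    rcases mem_union.1 hc with hc | hc
    · exact (h1 _ (mem_cel.1 hc).1).1
    · exact (h2 _ (mem_cel.1 hc).1).1
  h2 := by
    intro c hc i hi
    rcases mem_union.1 hc with hc | hc
    · rw [(mem_cel.1 hc).2]
      exact (h1 _ (mem_cel.1 hc).1).2 i hi
    · rw [(mem_cel.1 hc).2]
      exact (h2 _ (mem_cel.1 hc).1).2 i hi
  r2 := by
    classical
    intro x
    have h3 : (cel τ1 R1 ∪ cel τ2 S).filter (fun c => c.1 = x) ⊆ {(x, τ1 x), (x, τ2 x)} := by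
      intro c hc
      obtain ⟨h4, h5⟩ := mem_filter.1 hc
      rw [mem_insert, mem_singleton]
      rcases mem_union.1 h4 with h4 | h4
      · left
        refine Prod.ext h5 ?_
        rw [(mem_cel.1 h4).2, h5]
      · right
        refine Prod.ext h5 ?_
        rw [(mem_cel.1 h4).2, h5]
    exact (card_le_card h3).trans card_le_two
  c2 := by
    classical
    intro y
    have h3 : (cel τ1 R1 ∪ cel τ2 S).filter (fun c => c.2 = y) ⊆ {(τ1⁻¹ y, y), (τ2⁻¹ y, y)} := by
      intro c hc
      obtain ⟨h4, h5⟩ := mem_filter.1 hc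
      rw [mem_insert, mem_singleton]
      rcases mem_union.1 h4 with h4 | h4
      · left
        refine Prod.ext ?_ h5
        rw [← h5, (mem_cel.1 h4).2]
        exact (τ1.symm_apply_apply _).symm
      · right
        refine Prod.ext ?_ h5
        rw [← h5, (mem_cel.1 h4).2]
        exact (τ2.symm_apply_apply _).symm
    exact (card_le_card h3).trans card_le_two

/-- the exceptional rows -/
def exr (τ1 : Perm (Fin n)) (R1 : Finset (Fin n)) (τ2 : Perm (Fin n)) (S : Finset (Fin n)) :
    Finset (Fin n) :=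
  S.filter (fun x => ¬ (x ∈ R1 ∧ τ2 x ∈ R1.image τ1))

/-- **the product bound** -/
theorem prod_bound {g : Perm (Fin n)} {T : Finset (Fin n)} {M : ℕ} (hM : n - T.card = M)
    (hM20 : 20 ≤ M) {τ1 τ2 : Perm (Fin n)} {R1 R : Finset (Fin n)} (h1 : OnB g T τ1 R1)
    (h2 : OnB g T τ2 R) (hne : ∀ x ∈ R, ¬ (x ∈ R1 ∧ τ1 x = τ2 x)) :
    ∀ S ⊆ R, ((av g T (cel τ1 R1 ∪ cel τ2 S)).card : ℝ) ≤
      ((av g T (cel τ1 R1)).card : ℝ) * (1 - 1 / (M : ℝ)) ^ S.card *
        Real.exp (-(∑ k ∈ range S.card, gk M (R1.card + k)) + lam M * (exr τ1 R1 τ2 S).card) := by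
  classical
  have hM4R : (4 : ℝ) ≤ M := by exact_mod_cast (by omega : 4 ≤ M)
  have hMR : (20 : ℝ) ≤ M := by exact_mod_cast hM20
  have hq := q_pos hM4R
  have hA := A_pos hM4R
  have hu : 0 < (M : ℝ) - 3 := by linarith
  intro S
  induction S using Finset.induction_on with
  | empty =>
    intro _
    have e1 : cel τ2 ∅ = ∅ := by
      unfold cel
      rw [image_empty]
    have e2 : exr τ1 R1 τ2 ∅ = ∅ := by
      unfold exr
      rw [filter_empty]
    rw [e1, union_empty, e2]
    simp
  | insert x S hx ih =>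
    intro hS
    have hxR : x ∈ R := hS (mem_insert_self _ _)
    have hSR : S ⊆ R := fun z hz => hS (mem_insert_of_mem hz)
    have ih' := ih hSR
    set F := cel τ1 R1 ∪ cel τ2 S with hF
    have hB : Brd g T F := brd_union h1 fun z hz => h2 z (hSR hz)
    obtain ⟨hxT, hyT⟩ := h2 x hxR
    have hxy : (x, τ2 x) ∉ F := by
      intro hc
      rcases mem_union.1 hc with hc | hc
      · obtain ⟨h3, h4⟩ := mem_cel.1 hc
        exact hne x hxR ⟨h3, h4.symm⟩
      · exact hx (mem_cel.1 hc).1
    have hFi : cel τ1 R1 ∪ cel τ2 (insert x S) = insert (x, τ2 x) F := by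
      rw [cel_insert, union_insert]
    have hr1 : (F.filter (fun c => c.1 = x)).card ≤ 1 := by
      have h3 : F.filter (fun c => c.1 = x) ⊆ {(x, τ1 x)} := by
        intro c hc
        obtain ⟨h4, h5⟩ := mem_filter.1 hc
        rw [mem_singleton]
        rcases mem_union.1 h4 with h4 | h4
        · refine Prod.ext h5 ?_
          rw [(mem_cel.1 h4).2, h5]
        · exfalso
          rw [← h5] at hx
          exact hx (mem_cel.1 h4).1
      exact (card_le_card h3).trans (card_singleton _).le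
    have hc1 : (F.filter (fun c => c.2 = τ2 x)).card ≤ 1 := by
      have h3 : F.filter (fun c => c.2 = τ2 x) ⊆ {(τ1⁻¹ (τ2 x), τ2 x)} := by
        intro c hc
        obtain ⟨h4, h5⟩ := mem_filter.1 hc
        rw [mem_singleton]
        rcases mem_union.1 h4 with h4 | h4
        · refine Prod.ext ?_ h5
          rw [← h5, (mem_cel.1 h4).2]
          exact (τ1.symm_apply_apply _).symm
        · exfalso
          rw [(mem_cel.1 h4).2] at h5
          rw [← τ2.injective h5] at hx
          exact hx (mem_cel.1 h4).1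
      exact (card_le_card h3).trans (card_singleton _).le
    have hFc : (F.card : ℝ) ≤ R1.card + S.card := by
      have : F.card ≤ R1.card + S.card := by
        rw [← card_cel τ1 R1, ← card_cel τ2 S]
        exact card_union_le _ _
      exact_mod_cast this
    have hai := av_insert (g := g) (T := T) (F := F) (c := (x, τ2 x))
    simp only at hai
    have haiR : ((av g T (insert (x, τ2 x) F)).card : ℝ) +
        ((thr (av g T F) x (τ2 x)).card : ℝ) = ((av g T F).card : ℝ) := by exact_mod_cast hai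
    set a : ℝ := ((av g T F).card : ℝ) with ha
    set b : ℝ := ((thr (av g T F) x (τ2 x)).card : ℝ) with hb
    have ha0 : 0 ≤ a := Nat.cast_nonneg _
    have hu2 : 0 < ((M : ℝ) - 3) ^ 2 := by positivity
    -- the common part
    have hpart : 1 - ((R1.card : ℝ) + S.card) / ((M : ℝ) - 3) ^ 2 ≤
        1 - (F.card : ℝ) / ((M : ℝ) - 3) ^ 2 := by
      have := div_le_div_of_nonneg_right hFc hu2.le
      linarith
    have hk1 : 1 - ((R1.card : ℝ) + S.card) / ((M : ℝ) - 3) ^ 2 ≤ 1 := by
      have : 0 ≤ ((R1.card : ℝ) + S.card) / ((M : ℝ) - 3) ^ 2 := by positivity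
      linarith
    -- new factor
    have hstep : a - b ≤ a * ((1 - 1 / (M : ℝ)) * Real.exp (-gk M (R1.card + S.card) +
        lam M * (if (x ∈ R1 ∧ τ2 x ∈ R1.image τ1) then 0 else 1))) := by
      by_cases hgood : x ∈ R1 ∧ τ2 x ∈ R1.image τ1
      · rw [if_pos hgood, mul_zero, add_zero]
        obtain ⟨hg1, hg2⟩ := hgood
        obtain ⟨x1, hx1, hx1e⟩ := mem_image.1 hg2
        have hz : (x, τ1 x) ∈ F := mem_union_left _ (mem_cel.2 ⟨hg1, rfl⟩)
        have hx1F : (x1, τ2 x) ∈ F := mem_union_left _ (mem_cel.2 ⟨hx1, hx1e.symm⟩)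
        have h3 := step_good hB hxT hyT hxy hz hx1F hM (by omega) hr1 hc1
        rw [← ha, ← hb] at h3
        have h4 : a * ((1 - (F.card : ℝ) / ((M : ℝ) - 3) ^ 2) / ((M : ℝ) - 2 + 1 / ((M : ℝ) - 3))) ≤
            b := by
          rw [← mul_div_assoc, div_le_iff₀ hA]
          have e1 : ((M : ℝ) - 2) * ((M : ℝ) - 3) + 1 =
              ((M : ℝ) - 2 + 1 / ((M : ℝ) - 3)) * ((M : ℝ) - 3) := by
            field_simp
          have e2 : a * (((M : ℝ) - 3) ^ 2 - F.card) * ((M : ℝ) - 3) =
              (a * (1 - (F.card : ℝ) / ((M : ℝ) - 3) ^ 2)) * (((M : ℝ) - 3) ^ 2 * ((M : ℝ) - 3)) := by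
            field_simp
          rw [e1, e2] at h3
          have e3 : ((M : ℝ) - 2 + 1 / ((M : ℝ) - 3)) * ((M : ℝ) - 3) * ((M : ℝ) - 3) ^ 2 * b =
              (b * ((M : ℝ) - 2 + 1 / ((M : ℝ) - 3))) * (((M : ℝ) - 3) ^ 2 * ((M : ℝ) - 3)) := by
            ring
          rw [e3] at h3
          exact le_of_mul_le_mul_right h3 (by positivity)
        have h5 : a * dl M (R1.card + S.card) ≤ b := by
          refine le_trans (mul_le_mul_of_nonneg_left ?_ ha0) h4
          exact div_le_div_of_nonneg_right hpart hA.le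
        calc a - b ≤ a * (1 - dl M (R1.card + S.card)) := by linarith
          _ = a * ((1 - 1 / (M : ℝ)) * (1 - gk M (R1.card + S.card))) := by rw [q_gk hM4R]
          _ ≤ _ := by
            refine mul_le_mul_of_nonneg_left (mul_le_mul_of_nonneg_left ?_ hq.le) ha0
            have := Real.add_one_le_exp (-gk (M : ℝ) (R1.card + S.card))
            linarith
      · rw [if_neg hgood, mul_one]
        have h3 := step_exc hB hxT hyT hxy hM (by omega) hr1 hc1
        rw [← ha, ← hb] at h3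
        have hM0 : (0 : ℝ) < M := by linarith
        have h4 : a * ((1 - (F.card : ℝ) / ((M : ℝ) - 3) ^ 2) / (M : ℝ)) ≤ b := by
          rw [← mul_div_assoc, div_le_iff₀ hM0]
          have e2 : a * (((M : ℝ) - 3) ^ 2 - F.card) =
              (a * (1 - (F.card : ℝ) / ((M : ℝ) - 3) ^ 2)) * ((M : ℝ) - 3) ^ 2 := by
            field_simp
          rw [e2] at h3
          have e3 : (M : ℝ) * ((M : ℝ) - 3) ^ 2 * b = (b * M) * ((M : ℝ) - 3) ^ 2 := by ring
          rw [e3] at h3
          exact le_of_mul_le_mul_right h3 hu2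
        have h5 : a * ((1 - ((R1.card : ℝ) + S.card) / ((M : ℝ) - 3) ^ 2) / (M : ℝ)) ≤ b := by
          refine le_trans (mul_le_mul_of_nonneg_left ?_ ha0) h4
          exact div_le_div_of_nonneg_right hpart hM0.le
        have h6 : dl M (R1.card + S.card) - (1 / ((M : ℝ) - 2 + 1 / ((M : ℝ) - 3)) - 1 / (M : ℝ)) ≤
            (1 - ((R1.card : ℝ) + S.card) / ((M : ℝ) - 3) ^ 2) / (M : ℝ) := by
          unfold dl
          have h7 : 0 ≤ 1 / ((M : ℝ) - 2 + 1 / ((M : ℝ) - 3)) - 1 / (M : ℝ) :=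
            sub_nonneg.2 (one_div_le_one_div_of_le hA (A_le hM4R))
          have h8 := mul_le_mul_of_nonneg_right hk1 h7
          have h9 : (1 - ((R1.card : ℝ) + S.card) / ((M : ℝ) - 3) ^ 2) /
              ((M : ℝ) - 2 + 1 / ((M : ℝ) - 3)) -
              (1 - ((R1.card : ℝ) + S.card) / ((M : ℝ) - 3) ^ 2) / (M : ℝ) =
              (1 - ((R1.card : ℝ) + S.card) / ((M : ℝ) - 3) ^ 2) *
                (1 / ((M : ℝ) - 2 + 1 / ((M : ℝ) - 3)) - 1 / (M : ℝ)) := by ring
          linarith
        have h10 := mul_le_mul_of_nonneg_left h6 ha0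
        calc a - b ≤ a * (1 - dl M (R1.card + S.card) +
              (1 / ((M : ℝ) - 2 + 1 / ((M : ℝ) - 3)) - 1 / (M : ℝ))) := by linarith
          _ = a * ((1 - 1 / (M : ℝ)) * (1 - gk M (R1.card + S.card) + lam M)) := by
              rw [q_gk_lam hM4R]
          _ ≤ _ := by
            refine mul_le_mul_of_nonneg_left (mul_le_mul_of_nonneg_left ?_ hq.le) ha0
            have := Real.add_one_le_exp (-gk (M : ℝ) (R1.card + S.card) + lam M)
            linarith
    have hex : (exr τ1 R1 τ2 (insert x S)).card = (exr τ1 R1 τ2 S).card +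
        (if (x ∈ R1 ∧ τ2 x ∈ R1.image τ1) then 0 else 1) := by
      unfold exr
      rw [filter_insert]
      by_cases hgood : x ∈ R1 ∧ τ2 x ∈ R1.image τ1
      · rw [if_neg (not_not.2 hgood), if_pos hgood, add_zero]
      · rw [if_pos hgood, if_neg hgood, card_insert_of_notMem]
        intro h
        exact hx (mem_filter.1 h).1
    have hexR : ((exr τ1 R1 τ2 (insert x S)).card : ℝ) = ((exr τ1 R1 τ2 S).card : ℝ) +
        (if (x ∈ R1 ∧ τ2 x ∈ R1.image τ1) then 0 else 1) := by
      rw [hex]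
      split_ifs <;> push_cast <;> ring
    rw [hFi, card_insert_of_notMem hx, sum_range_succ, pow_succ, hexR]
    have hE0 : 0 ≤ (1 - 1 / (M : ℝ)) * Real.exp (-gk M (R1.card + S.card) +
        lam M * (if (x ∈ R1 ∧ τ2 x ∈ R1.image τ1) then 0 else 1)) :=
      mul_nonneg hq.le (Real.exp_pos _).le
    calc ((av g T (insert (x, τ2 x) F)).card : ℝ) = a - b := by linarith
      _ ≤ a * ((1 - 1 / (M : ℝ)) * Real.exp (-gk M (R1.card + S.card) +
          lam M * (if (x ∈ R1 ∧ τ2 x ∈ R1.image τ1) then 0 else 1))) := hstep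
      _ ≤ (((av g T (cel τ1 R1)).card : ℝ) * (1 - 1 / (M : ℝ)) ^ S.card *
          Real.exp (-(∑ k ∈ range S.card, gk M (R1.card + k)) + lam M * (exr τ1 R1 τ2 S).card)) *
          ((1 - 1 / (M : ℝ)) * Real.exp (-gk M (R1.card + S.card) +
          lam M * (if (x ∈ R1 ∧ τ2 x ∈ R1.image τ1) then 0 else 1))) :=
          mul_le_mul_of_nonneg_right ih' hE0
      _ = ((av g T (cel τ1 R1)).card : ℝ) * ((1 - 1 / (M : ℝ)) ^ S.card * (1 - 1 / (M : ℝ))) *
          (Real.exp (-(∑ k ∈ range S.card, gk M (R1.card + k)) + lam M * (exr τ1 R1 τ2 S).card) *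
          Real.exp (-gk M (R1.card + S.card) +
          lam M * (if (x ∈ R1 ∧ τ2 x ∈ R1.image τ1) then 0 else 1))) := by ring
      _ = _ := by
        rw [← Real.exp_add]
        congr 2
        ring

end Pool.EG
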