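import Pool.Agent.Work.MP_46fa68_74.DS4

/-! # dense-sparse endgame, 5: the pair bound and the second moment (helper74) -/

set_option autoImplicit false

open Finset Equiv

namespace Pool.EG

variable {n : ℕ}

theorem exr_le {g : Perm (Fin n)} {T : Finset (Fin n)} {M : ℕ} (hM : n - T.card = M)
    {τ1 τ2 : Perm (Fin n)} {R1 R : Finset (Fin n)} (h1 : OnB g T τ1 R1) (h2 : OnB g T τ2 R) :
    (exr τ1 R1 τ2 R).card ≤ 2 * (M - R1.card) := by
  classical
  have hsub : exr τ1 R1 τ2 R ⊆ R.filter (fun x => x ∉ R1) ∪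
      R.filter (fun x => τ2 x ∉ R1.image τ1) := by
    intro x hx
    obtain ⟨h3, h4⟩ := mem_filter.1 hx
    by_cases h5 : x ∈ R1
    · refine mem_union_right _ (mem_filter.2 ⟨h3, fun h6 => h4 ⟨h5, h6⟩⟩)
    · exact mem_union_left _ (mem_filter.2 ⟨h3, h5⟩)
  have hA : (R.filter (fun x => x ∉ R1)).card ≤ M - R1.card := by
    have h3 : R.filter (fun x => x ∉ R1) ⊆ (T ∪ R1)ᶜ := by
      intro x hx
      obtain ⟨h4, h5⟩ := mem_filter.1 hx
      rw [mem_compl, mem_union]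
      rintro (h6 | h6)
      · exact (h2 x h4).1 h6
      · exact h5 h6
    have h4 := card_le_card h3
    have hd : Disjoint T R1 := by
      rw [disjoint_left]
      intro x hx hx1
      exact (h1 x hx1).1 hx
    rw [card_compl, Fintype.card_fin, card_union_of_disjoint hd] at h4
    omega
  have hB : (R.filter (fun x => τ2 x ∉ R1.image τ1)).card ≤ M - R1.card := by
    have h3 : (R.filter (fun x => τ2 x ∉ R1.image τ1)).image τ2 ⊆
        (T.image g ∪ R1.image τ1)ᶜ := by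
      intro y hy
      obtain ⟨x, hx, rfl⟩ := mem_image.1 hy
      obtain ⟨h4, h5⟩ := mem_filter.1 hx
      rw [mem_compl, mem_union]
      rintro (h6 | h6)
      · obtain ⟨i, hi, hi2⟩ := mem_image.1 h6
        exact (h2 x h4).2 i hi hi2.symm
      · exact h5 h6
    have h4 := card_le_card h3
    have hd : Disjoint (T.image g) (R1.image τ1) := by
      rw [disjoint_left]
      intro y hy hy1
      obtain ⟨i, hi, rfl⟩ := mem_image.1 hy
      obtain ⟨x, hx, hx2⟩ := mem_image.1 hy1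
      exact (h1 x hx).2 i hi hx2
    rw [card_compl, Fintype.card_fin, card_union_of_disjoint hd,
      card_image_of_injective _ τ2.injective, card_image_of_injective _ g.injective,
      card_image_of_injective _ τ1.injective] at h4
    omega
  have h3 := (card_le_card hsub).trans (card_union_le _ _)
  omega

/-- the chord -/
theorem chord {N i : ℕ} (hN : 0 < N) (hi : i ≤ N) :
    (1 + 1 / (N : ℝ)) ^ i ≤ 1 + (Real.exp 1 - 1) * ((i : ℝ) / N) := by
  have hNR : (0 : ℝ) < N := by exact_mod_cast hN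
  have h1 : (1 + 1 / (N : ℝ)) ^ i ≤ Real.exp (1 / (N : ℝ)) ^ i := by
    refine pow_le_pow_left₀ (by positivity) ?_ i
    have := Real.add_one_le_exp (1 / (N : ℝ))
    linarith
  have h2 : Real.exp (1 / (N : ℝ)) ^ i = Real.exp ((i : ℝ) / N) := by
    rw [← Real.exp_nat_mul]
    congr 1
    ring
  have hx0 : 0 ≤ (i : ℝ) / N := by positivity
  have hx1 : (i : ℝ) / N ≤ 1 := by
    rw [div_le_one hNR]
    exact_mod_cast hi
  have h3 := convexOn_exp.2 (Set.mem_univ (1 : ℝ)) (Set.mem_univ (0 : ℝ)) hx0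
    (sub_nonneg.2 hx1) (by ring)
  simp only [smul_eq_mul, mul_one, mul_zero, add_zero, Real.exp_zero] at h3
  linarith [h1.trans_eq h2]

/-- the common cells -/
def cm (τ1 τ2 : Perm (Fin n)) (R1 R2 : Finset (Fin n)) : Finset (Fin n) :=
  (R1 ∩ R2).filter (fun x => τ1 x = τ2 x)

/-- **the pair bound** -/
theorem pair_bound {g : Perm (Fin n)} {T : Finset (Fin n)} {M : ℕ} (hM : n - T.card = M)
    (hM20 : 20 ≤ M) {τ1 τ2 : Perm (Fin n)} {R1 R2 : Finset (Fin n)} (h1 : OnB g T τ1 R1)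
    (h2 : OnB g T τ2 R2) (hr1 : R1.card + 1 ≤ M) (hr2 : R2.card + 1 ≤ M) {am : ℕ}
    (ham : M ≤ R1.card + am) :
    ((av g T (cel τ1 R1 ∪ cel τ2 R2)).card : ℝ) * (M.factorial : ℝ) ≤
      ((av g T (cel τ1 R1)).card : ℝ) * ((av g T (cel τ2 R2)).card : ℝ) *
        (Real.exp (lam M * (2 * am)) *
          (1 + (Real.exp 1 - 1) * (((cm τ1 τ2 R1 R2).card : ℝ) / ((M : ℝ) - 1)))) := by
  classical
  have hMR : (20 : ℝ) ≤ M := by exact_mod_cast hM20
  have hM4R : (4 : ℝ) ≤ M := by linarith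
  have hq := q_pos hM4R
  set R2' := R2.filter (fun x => ¬ (x ∈ R1 ∧ τ1 x = τ2 x)) with hR2'
  have hc0 : (R2.filter (fun x => (x ∈ R1 ∧ τ1 x = τ2 x))).card = (cm τ1 τ2 R1 R2).card := by
    congr 1
    ext x
    unfold cm
    simp only [mem_filter, mem_inter]
    tauto
  have hcard : (cm τ1 τ2 R1 R2).card + R2'.card = R2.card := by
    rw [← hc0, hR2']
    exact card_filter_add_card_filter_not (s := R2) (fun x => (x ∈ R1 ∧ τ1 x = τ2 x))
  have hF : cel τ1 R1 ∪ cel τ2 R2 = cel τ1 R1 ∪ cel τ2 R2' := by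
    ext c
    rw [mem_union, mem_union, mem_cel, mem_cel, mem_cel, hR2', mem_filter]
    constructor
    · rintro (h | ⟨h3, h4⟩)
      · exact Or.inl h
      · by_cases h5 : c.1 ∈ R1 ∧ τ1 c.1 = τ2 c.1
        · left
          exact ⟨h5.1, by rw [h4, h5.2]⟩
        · right
          exact ⟨⟨h3, h5⟩, h4⟩
    · rintro (h | ⟨⟨h3, _⟩, h4⟩)
      · exact Or.inl h
      · exact Or.inr ⟨h3, h4⟩
  have h2' : OnB g T τ2 R2' := fun x hx => h2 x (mem_filter.1 hx).1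
  have h3 := prod_bound hM hM20 h1 h2' (fun x hx => (mem_filter.1 hx).2) R2' (Subset.refl _)
  have hr1R : (R1.card : ℝ) ≤ (M : ℝ) - 1 := by
    have : (R1.card : ℝ) + 1 ≤ M := by exact_mod_cast hr1
    linarith
  have hr2R : (R2'.card : ℝ) ≤ (M : ℝ) - 1 := by
    have : (R2'.card : ℝ) + 1 ≤ M := by exact_mod_cast (by omega : R2'.card + 1 ≤ M)
    linarith
  have h4 := gk_sum hMR hr1R hr2R
  have h5 : ((exr τ1 R1 τ2 R2').card : ℝ) ≤ 2 * am := by
    have h6 := exr_le hM h1 h2'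
    have : (exr τ1 R1 τ2 R2').card ≤ 2 * am := by omega
    exact_mod_cast this
  have h6 : -(∑ k ∈ range R2'.card, gk M (R1.card + k)) + lam M * (exr τ1 R1 τ2 R2').card ≤
      lam M * (2 * am) := by
    have := mul_le_mul_of_nonneg_left h5 (lam_nonneg hM4R)
    linarith
  have h7 := Real.exp_le_exp.2 h6
  have hD1 : (0 : ℝ) ≤ ((av g T (cel τ1 R1)).card : ℝ) := Nat.cast_nonneg _
  have h8 : ((av g T (cel τ1 R1 ∪ cel τ2 R2)).card : ℝ) ≤
      ((av g T (cel τ1 R1)).card : ℝ) * (1 - 1 / (M : ℝ)) ^ R2'.card *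
        Real.exp (lam M * (2 * am)) := by
    rw [hF]
    refine h3.trans ?_
    exact mul_le_mul_of_nonneg_left h7 (mul_nonneg hD1 (pow_nonneg hq.le _))
  have h9 := av_partial hM (by omega) τ2 R2 (fun x hx => (h2 x hx).1) (g := g)
  have hM1 : ((M - 1 : ℕ) : ℝ) = (M : ℝ) - 1 := by
    rw [Nat.cast_sub (by omega)]
    norm_num
  have h10 := chord (N := M - 1) (i := (cm τ1 τ2 R1 R2).card) (by omega) (by omega)
  rw [hM1] at h10
  -- `q^(r2') = q^(r2) (1 + 1/(M-1))^i`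
  have h11 : (1 - 1 / (M : ℝ)) ^ R2'.card =
      (1 - 1 / (M : ℝ)) ^ R2.card * (1 + 1 / ((M : ℝ) - 1)) ^ (cm τ1 τ2 R1 R2).card := by
    rw [← hcard, pow_add]
    have h12 : (1 - 1 / (M : ℝ)) * (1 + 1 / ((M : ℝ) - 1)) = 1 := by
      have : (M : ℝ) - 1 ≠ 0 := by linarith
      have : (M : ℝ) ≠ 0 := by linarith
      field_simp
      ring
    have h13 : (1 - 1 / (M : ℝ)) ^ (cm τ1 τ2 R1 R2).card * (1 - 1 / (M : ℝ)) ^ R2'.card *
        (1 + 1 / ((M : ℝ) - 1)) ^ (cm τ1 τ2 R1 R2).card =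
        ((1 - 1 / (M : ℝ)) * (1 + 1 / ((M : ℝ) - 1))) ^ (cm τ1 τ2 R1 R2).card *
          (1 - 1 / (M : ℝ)) ^ R2'.card := by
      rw [mul_pow]
      ring
    rw [h13, h12, one_pow, one_mul]
  set D1 : ℝ := ((av g T (cel τ1 R1)).card : ℝ) with hD1d
  set D2 : ℝ := ((av g T (cel τ2 R2)).card : ℝ) with hD2d
  set E : ℝ := Real.exp (lam M * (2 * am)) with hE
  have hE0 : 0 ≤ E := (Real.exp_pos _).le
  have hch0 : 0 ≤ (1 + 1 / ((M : ℝ) - 1)) ^ (cm τ1 τ2 R1 R2).card := by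
    have : 0 < (M : ℝ) - 1 := by linarith
    positivity
  have hf0 : (0 : ℝ) ≤ (M.factorial : ℝ) := Nat.cast_nonneg _
  calc ((av g T (cel τ1 R1 ∪ cel τ2 R2)).card : ℝ) * (M.factorial : ℝ)
      ≤ (D1 * (1 - 1 / (M : ℝ)) ^ R2'.card * E) * (M.factorial : ℝ) :=
        mul_le_mul_of_nonneg_right h8 hf0
    _ = D1 * E * ((M.factorial : ℝ) * (1 - 1 / (M : ℝ)) ^ R2.card) *
          (1 + 1 / ((M : ℝ) - 1)) ^ (cm τ1 τ2 R1 R2).card := by
        rw [h11]
        ring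
    _ ≤ D1 * E * D2 * (1 + 1 / ((M : ℝ) - 1)) ^ (cm τ1 τ2 R1 R2).card :=
        mul_le_mul_of_nonneg_right (mul_le_mul_of_nonneg_left h9 (mul_nonneg hD1 hE0)) hch0
    _ ≤ D1 * E * D2 * (1 + (Real.exp 1 - 1) * (((cm τ1 τ2 R1 R2).card : ℝ) / ((M : ℝ) - 1))) :=
        mul_le_mul_of_nonneg_left h10 (mul_nonneg (mul_nonneg hD1 hE0) (Nat.cast_nonneg _))
    _ = _ := by ring

/-- **dense against sparse**: second moment -/
theorem dense_sparse {g : Perm (Fin n)} {T : Finset (Fin n)} {M : ℕ} (hM : n - T.card = M)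
    (hM20 : 20 ≤ M) {B U : Finset (Perm (Fin n))} {R : Perm (Fin n) → Finset (Fin n)} {am : ℕ}
    {I : ℝ} (hB : B ⊆ star g T) (hR : ∀ τ ∈ U, OnB g T τ (R τ))
    (hr1 : ∀ τ ∈ U, (R τ).card + 1 ≤ M) (ham : ∀ τ ∈ U, M ≤ (R τ).card + am)
    (hhit : ∀ σ ∈ B, ∀ τ ∈ U, ∃ x ∈ R τ, σ x = τ x)
    (hI : ∀ τ ∈ U, ∑ τ' ∈ U, ((cm τ τ' (R τ) (R τ')).card : ℝ) ≤ I) (hU : U.Nonempty) :
    (M.factorial : ℝ) * U.card ≤ ((M.factorial : ℝ) - B.card) *
      (Real.exp (lam M * (2 * am)) * (U.card + (Real.exp 1 - 1) * (I / ((M : ℝ) - 1)))) := by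
  classical
  have hMR : (20 : ℝ) ≤ M := by exact_mod_cast hM20
  have hM4R : (4 : ℝ) ≤ M := by linarith
  have hq := q_pos hM4R
  have hf0 : (0 : ℝ) < (M.factorial : ℝ) := by exact_mod_cast Nat.factorial_pos _
  set D : Perm (Fin n) → ℝ := fun τ => ((av g T (cel τ (R τ))).card : ℝ) with hD
  have hDpos : ∀ τ ∈ U, 0 < D τ := by
    intro τ hτ
    have h1 := av_partial hM (by omega) τ (R τ) (fun x hx => (hR τ hτ x hx).1) (g := g)
    exact lt_of_lt_of_le (mul_pos hf0 (pow_pos hq _)) h1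
  set Y : Perm (Fin n) → ℝ := fun ρ =>
    ∑ τ ∈ U, (if ρ ∈ av g T (cel τ (R τ)) then 1 / D τ else 0) with hY
  have hav : ∀ τ, (star g T).filter (fun ρ => ρ ∈ av g T (cel τ (R τ))) = av g T (cel τ (R τ)) := by
    intro τ
    ext ρ
    rw [mem_filter]
    exact ⟨fun h => h.2, fun h => ⟨(mem_filter.1 h).1, h⟩⟩
  have hsumY : ∑ ρ ∈ star g T, Y ρ = U.card := by
    rw [hY]
    simp only
    rw [sum_comm]
    have h1 : ∀ τ ∈ U, ∑ ρ ∈ star g T, (if ρ ∈ av g T (cel τ (R τ)) then 1 / D τ else 0) = 1 := by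
      intro τ hτ
      rw [← sum_filter, hav, sum_const, nsmul_eq_mul]
      have h2 := hDpos τ hτ
      rw [hD] at h2 ⊢
      simp only at h2 ⊢
      field_simp
    rw [sum_congr rfl h1, sum_const, nsmul_eq_mul, mul_one]
  have hYB : ∀ ρ ∈ B, Y ρ = 0 := by
    intro ρ hρ
    rw [hY]
    refine sum_eq_zero fun τ hτ => ?_
    rw [if_neg]
    intro h1
    obtain ⟨x, hx, hx2⟩ := hhit ρ hρ τ hτ
    exact (mem_av.1 h1).2 (x, τ x) (mem_cel.2 ⟨hx, rfl⟩) hx2
  have hsplit : ∑ ρ ∈ star g T \ B, Y ρ = U.card := by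
    rw [← hsumY, ← sum_sdiff hB, sum_eq_zero hYB, add_zero]
  have hcs := sq_sum_le_card_mul_sum_sq (s := star g T \ B) (f := Y)
  rw [hsplit] at hcs
  have hsc : ((star g T \ B).card : ℝ) = (M.factorial : ℝ) - B.card := by
    have h1 := card_sdiff_of_subset hB
    have h2 := card_le_card hB
    rw [card_star, hM] at h1 h2
    rw [h1, Nat.cast_sub h2]
  have hsq : ∑ ρ ∈ star g T \ B, Y ρ ^ 2 ≤ ∑ ρ ∈ star g T, Y ρ ^ 2 :=
    sum_le_sum_of_subset_of_nonneg sdiff_subset fun ρ _ _ => sq_nonneg _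
  have hmom : ∑ ρ ∈ star g T, Y ρ ^ 2 =
      ∑ τ ∈ U, ∑ τ' ∈ U, ((av g T (cel τ (R τ) ∪ cel τ' (R τ'))).card : ℝ) / (D τ * D τ') := by
    have h1 : ∀ ρ ∈ star g T, Y ρ ^ 2 = ∑ τ ∈ U, ∑ τ' ∈ U,
        (if ρ ∈ av g T (cel τ (R τ) ∪ cel τ' (R τ')) then 1 / (D τ * D τ') else 0) := by
      intro ρ hρ
      rw [sq, hY]
      simp only
      rw [sum_mul_sum]
      refine sum_congr rfl fun τ _ => sum_congr rfl fun τ' _ => ?_
      have h2 : ρ ∈ av g T (cel τ (R τ) ∪ cel τ' (R τ')) ↔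
          ρ ∈ av g T (cel τ (R τ)) ∧ ρ ∈ av g T (cel τ' (R τ')) := by
        rw [mem_av, mem_av, mem_av]
        constructor
        · rintro ⟨h3, h4⟩
          exact ⟨⟨h3, fun c hc => h4 c (mem_union_left _ hc)⟩,
            ⟨h3, fun c hc => h4 c (mem_union_right _ hc)⟩⟩
        · rintro ⟨⟨h3, h4⟩, ⟨_, h5⟩⟩
          refine ⟨h3, fun c hc => ?_⟩
          rcases mem_union.1 hc with hc | hc
          · exact h4 c hc
          · exact h5 c hc
      by_cases h3 : ρ ∈ av g T (cel τ (R τ))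
      · by_cases h4 : ρ ∈ av g T (cel τ' (R τ'))
        · rw [if_pos h3, if_pos h4, if_pos (h2.2 ⟨h3, h4⟩), div_mul_div_comm, one_mul]
        · rw [if_neg h4, mul_zero, if_neg (fun h => h4 (h2.1 h).2)]
      · rw [if_neg h3, zero_mul, if_neg (fun h => h3 (h2.1 h).1)]
    rw [sum_congr rfl h1, sum_comm]
    refine sum_congr rfl fun τ _ => ?_
    rw [sum_comm]
    refine sum_congr rfl fun τ' _ => ?_
    rw [← sum_filter]
    have h2 : (star g T).filter (fun ρ => ρ ∈ av g T (cel τ (R τ) ∪ cel τ' (R τ'))) =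
        av g T (cel τ (R τ) ∪ cel τ' (R τ')) := by
      ext ρ
      rw [mem_filter]
      exact ⟨fun h => h.2, fun h => ⟨(mem_filter.1 h).1, h⟩⟩
    rw [h2, sum_const, nsmul_eq_mul, mul_one_div]
  set E : ℝ := Real.exp (lam M * (2 * am)) with hE
  have hE0 : 0 ≤ E := (Real.exp_pos _).le
  have hterm : ∀ τ ∈ U, ∀ τ' ∈ U,
      ((av g T (cel τ (R τ) ∪ cel τ' (R τ'))).card : ℝ) / (D τ * D τ') ≤
        (E * (1 + (Real.exp 1 - 1) * (((cm τ τ' (R τ) (R τ')).card : ℝ) / ((M : ℝ) - 1)))) /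
          (M.factorial : ℝ) := by
    intro τ hτ τ' hτ'
    rw [div_le_div_iff₀ (mul_pos (hDpos τ hτ) (hDpos τ' hτ')) hf0]
    have h1 := pair_bound hM hM20 (hR τ hτ) (hR τ' hτ') (hr1 τ hτ) (hr1 τ' hτ') (ham τ hτ)
    calc ((av g T (cel τ (R τ) ∪ cel τ' (R τ'))).card : ℝ) * (M.factorial : ℝ) ≤ _ := h1
      _ = _ := by
        rw [hD, hE]
        ring
  have hM1 : 0 < (M : ℝ) - 1 := by linarith
  have hexp : 0 ≤ Real.exp 1 - 1 := by
    have := Real.add_one_le_exp (1 : ℝ)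
    linarith
  have hrow : ∀ τ ∈ U, ∑ τ' ∈ U,
      ((av g T (cel τ (R τ) ∪ cel τ' (R τ'))).card : ℝ) / (D τ * D τ') ≤
        (E * (U.card + (Real.exp 1 - 1) * (I / ((M : ℝ) - 1)))) / (M.factorial : ℝ) := by
    intro τ hτ
    refine (sum_le_sum fun τ' hτ' => hterm τ hτ τ' hτ').trans ?_
    rw [← sum_div, ← mul_sum, sum_add_distrib, sum_const, nsmul_eq_mul, mul_one, ← mul_sum,
      ← sum_div]
    refine div_le_div_of_nonneg_right (mul_le_mul_of_nonneg_left ?_ hE0) hf0.le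
    have h1 := mul_le_mul_of_nonneg_left
      (div_le_div_of_nonneg_right (hI τ hτ) hM1.le) hexp
    linarith
  have hmom2 : ∑ ρ ∈ star g T, Y ρ ^ 2 ≤
      U.card * ((E * (U.card + (Real.exp 1 - 1) * (I / ((M : ℝ) - 1)))) / (M.factorial : ℝ)) := by
    rw [hmom]
    refine (sum_le_sum hrow).trans ?_
    rw [sum_const, nsmul_eq_mul]
  have hB0 : 0 ≤ (M.factorial : ℝ) - B.card := by
    rw [← hsc]
    exact Nat.cast_nonneg _
  have hfin : (U.card : ℝ) ^ 2 ≤ ((M.factorial : ℝ) - B.card) *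
      (U.card * ((E * (U.card + (Real.exp 1 - 1) * (I / ((M : ℝ) - 1)))) / (M.factorial : ℝ))) := by
    calc (U.card : ℝ) ^ 2 ≤ ((star g T \ B).card : ℝ) * ∑ ρ ∈ star g T \ B, Y ρ ^ 2 := hcs
      _ ≤ ((star g T \ B).card : ℝ) * ∑ ρ ∈ star g T, Y ρ ^ 2 :=
          mul_le_mul_of_nonneg_left hsq (Nat.cast_nonneg _)
      _ ≤ _ := by
          rw [hsc]
          exact mul_le_mul_of_nonneg_left hmom2 hB0
  have hU0 : (0 : ℝ) < U.card := by exact_mod_cast card_pos.2 hU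
  have h1 : (M.factorial : ℝ) * (U.card : ℝ) ^ 2 ≤ (U.card : ℝ) *
      (((M.factorial : ℝ) - B.card) *
        (E * (U.card + (Real.exp 1 - 1) * (I / ((M : ℝ) - 1))))) := by
    have h2 := mul_le_mul_of_nonneg_left hfin hf0.le
    refine h2.trans (le_of_eq ?_)
    field_simp
  have h3 : (U.card : ℝ) * ((M.factorial : ℝ) * U.card) ≤ (U.card : ℝ) *
      (((M.factorial : ℝ) - B.card) *
        (E * (U.card + (Real.exp 1 - 1) * (I / ((M : ℝ) - 1))))) := by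
    refine le_trans (le_of_eq ?_) h1
    ring
  exact le_of_mul_le_mul_left h3 hU0

end Pool.EG
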