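import Pool.Agent.Work.MP_46fa68_74.DS5
import Pool.Agent.Work.MP_46fa68_86.EndG3

/-! # dense-sparse endgame, 6: averaging and the two dense-sparse cases (helper74) -/

set_option autoImplicit false

open Finset Equiv

namespace Pool.EG

variable {n t : ℕ}

/-- the popular cells missed by `σ` -/
def mis (g : Perm (Fin n)) (T : Finset (Fin n)) (σ : Perm (Fin n)) : Finset (Fin n) :=
  T.filter (fun i => σ i ≠ g i)

theorem mem_mis {g : Perm (Fin n)} {T : Finset (Fin n)} {σ : Perm (Fin n)} {i : Fin n} :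
    i ∈ mis g T σ ↔ i ∈ T ∧ σ i ≠ g i := mem_filter

theorem mis_sub (g : Perm (Fin n)) (T : Finset (Fin n)) (σ : Perm (Fin n)) : mis g T σ ⊆ T :=
  filter_subset _ _

/-- number of popular cells through the members -/
theorem sum_pop (A : Finset (Perm (Fin n))) (g : Perm (Fin n)) (T : Finset (Fin n)) :
    ∑ i ∈ T, ((thr A i (g i)).card : ℝ) =
      T.card * (A.card : ℝ) - ∑ σ ∈ A, ((mis g T σ).card : ℝ) := by
  classical
  have h1 := sum_thr_hits A g T
  have h2 : ∑ i ∈ T, ((thr A i (g i)).card : ℝ) =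
      ∑ σ ∈ A, ((T.filter (fun i => σ i = g i)).card : ℝ) := by exact_mod_cast h1
  have h3 : ∀ σ ∈ A, ((T.filter (fun i => σ i = g i)).card : ℝ) =
      T.card - ((mis g T σ).card : ℝ) := by
    intro σ _
    have h4 := card_filter_add_card_filter_not (s := T) (fun i => σ i = g i)
    have h5 : ((T.filter (fun i => σ i = g i)).card : ℝ) + ((mis g T σ).card : ℝ) = T.card := by
      exact_mod_cast h4
    linarith
  rw [h2, sum_congr rfl h3, sum_sub_distrib, sum_const, nsmul_eq_mul]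
  ring

/-- **averaging against a member** -/
theorem av_sum {A : Finset (Perm (Fin n))} (hA : TInt t A) {β p0 : ℝ}
    (hgap : ∀ x y, ((thr A x y).card : ℝ) ≤ β * A.card ∨ p0 * A.card ≤ ((thr A x y).card : ℝ))
    {g : Perm (Fin n)} {T : Finset (Fin n)}
    (hpop : ∀ x y, p0 * A.card ≤ ((thr A x y).card : ℝ) ↔ (x ∈ T ∧ y = g x))
    {s : Perm (Fin n)} (hs : s ∈ A) :
    ∑ σ ∈ A, ((mis g T σ).card : ℝ) + ∑ i ∈ mis g T s, ((thr A i (g i)).card : ℝ) ≤
      ((T.card : ℝ) - t) * A.card + ((n : ℝ) - T.card + (mis g T s).card) * (β * A.card) := by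
  classical
  set a : ℝ := (A.card : ℝ) with ha
  -- agreements with `s`
  have h1 : (t : ℝ) * a ≤ ∑ i, ((thr A i (s i)).card : ℝ) := by
    have h2 : t * A.card ≤ ∑ i ∈ univ, (thr A i (s i)).card := by
      rw [sum_thr_hits]
      calc t * A.card = ∑ σ ∈ A, t := by rw [sum_const, smul_eq_mul, mul_comm]
        _ ≤ _ := sum_le_sum fun σ hσ => hA σ hσ s hs
    rw [ha]
    exact_mod_cast h2
  -- split
  set H : Finset (Fin n) := T \ mis g T s with hH
  have hHc : H.card = T.card - (mis g T s).card := card_sdiff_of_subset (mis_sub g T s)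
  have hmc : (mis g T s).card ≤ T.card := card_le_card (mis_sub g T s)
  have hHR : (H.card : ℝ) = T.card - (mis g T s).card := by
    rw [hHc, Nat.cast_sub hmc]
  have h3 : ∑ i ∈ Hᶜ, ((thr A i (s i)).card : ℝ) ≤
      ((n : ℝ) - T.card + (mis g T s).card) * (β * a) := by
    have h4 : ∀ i ∈ Hᶜ, ((thr A i (s i)).card : ℝ) ≤ β * a := by
      intro i hi
      rcases hgap i (s i) with h | h
      · exact h
      · exfalso
        obtain ⟨h5, h6⟩ := (hpop i (s i)).1 h
        apply mem_compl.1 hi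
        exact mem_sdiff.2 ⟨h5, fun h7 => (mem_mis.1 h7).2 h6⟩
    refine (sum_le_sum h4).trans (le_of_eq ?_)
    rw [sum_const, nsmul_eq_mul, card_compl, Fintype.card_fin, Nat.cast_sub (by
      have := card_le_univ H
      rwa [Fintype.card_fin] at this), hHR]
    ring
  have h5 : ∑ i ∈ H, ((thr A i (s i)).card : ℝ) = ∑ i ∈ H, ((thr A i (g i)).card : ℝ) := by
    refine sum_congr rfl fun i hi => ?_
    obtain ⟨h6, h7⟩ := mem_sdiff.1 hi
    have h8 : s i = g i := by
      by_contra h9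
      exact h7 (mem_mis.2 ⟨h6, h9⟩)
    rw [h8]
  have h6 : ∑ i ∈ H, ((thr A i (g i)).card : ℝ) + ∑ i ∈ mis g T s, ((thr A i (g i)).card : ℝ) =
      ∑ i ∈ T, ((thr A i (g i)).card : ℝ) := sum_sdiff (mis_sub g T s)
  have h7 := sum_pop A g T
  have h8 : ∑ i, ((thr A i (s i)).card : ℝ) = ∑ i ∈ H, ((thr A i (s i)).card : ℝ) +
      ∑ i ∈ Hᶜ, ((thr A i (s i)).card : ℝ) := (sum_add_sum_compl H _).symm
  rw [h8, h5] at h1
  rw [← ha] at h7
  nlinarith

/-- every member contains at least `t - 1` popular cells -/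
theorem mis_le {A : Finset (Perm (Fin (2 * t + 1)))} (hA : TInt t A) (ht : 2 ≤ t)
    {β p0 : ℝ} (hb : 0 ≤ β) (h0 : β * (t + 3) < 2)
    (hgap : ∀ x y, ((thr A x y).card : ℝ) ≤ β * A.card ∨ p0 * A.card ≤ ((thr A x y).card : ℝ))
    {g : Perm (Fin (2 * t + 1))} {T : Finset (Fin (2 * t + 1))}
    (hpop : ∀ x y, p0 * A.card ≤ ((thr A x y).card : ℝ) ↔ (x ∈ T ∧ y = g x))
    {s : Perm (Fin (2 * t + 1))} (hs : s ∈ A) : t + (mis g T s).card ≤ T.card + 1 := by
  classical
  by_contra hcon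
  push Not at hcon
  have ha0 : (0 : ℝ) < A.card := by exact_mod_cast card_pos.2 ⟨s, hs⟩
  set a : ℝ := (A.card : ℝ) with ha
  have htR : (2 : ℝ) ≤ t := by exact_mod_cast ht
  have h1 : (t : ℝ) * a ≤ ∑ i, ((thr A i (s i)).card : ℝ) := by
    have h2 : t * A.card ≤ ∑ i ∈ univ, (thr A i (s i)).card := by
      rw [sum_thr_hits]
      calc t * A.card = ∑ σ ∈ A, t := by rw [sum_const, smul_eq_mul, mul_comm]
        _ ≤ _ := sum_le_sum fun σ hσ => hA σ hσ s hs
    rw [ha]
    exact_mod_cast h2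
  set H : Finset (Fin (2 * t + 1)) := T \ mis g T s with hH
  have hHc : H.card = T.card - (mis g T s).card := card_sdiff_of_subset (mis_sub g T s)
  have hmc : (mis g T s).card ≤ T.card := card_le_card (mis_sub g T s)
  have hHt : (H.card : ℝ) ≤ t - 2 := by
    have : H.card + 2 ≤ t := by omega
    have h2 : (H.card : ℝ) + 2 ≤ t := by exact_mod_cast this
    linarith
  have h3 : ∑ i ∈ Hᶜ, ((thr A i (s i)).card : ℝ) ≤ ((2 * t + 1 : ℝ) - H.card) * (β * a) := by
    have h4 : ∀ i ∈ Hᶜ, ((thr A i (s i)).card : ℝ) ≤ β * a := by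
      intro i hi
      rcases hgap i (s i) with h | h
      · exact h
      · exfalso
        obtain ⟨h5, h6⟩ := (hpop i (s i)).1 h
        apply mem_compl.1 hi
        exact mem_sdiff.2 ⟨h5, fun h7 => (mem_mis.1 h7).2 h6⟩
    refine (sum_le_sum h4).trans (le_of_eq ?_)
    rw [sum_const, nsmul_eq_mul, card_compl, Fintype.card_fin, Nat.cast_sub (by
      have := card_le_univ H
      rwa [Fintype.card_fin] at this)]
    push_cast
    ring
  have h4 : ∑ i ∈ H, ((thr A i (s i)).card : ℝ) ≤ H.card * a := by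
    refine (sum_le_sum fun i _ => ?_).trans (le_of_eq (by rw [sum_const, nsmul_eq_mul]))
    rw [ha]
    exact_mod_cast thr_le A i (s i)
  have h8 : ∑ i, ((thr A i (s i)).card : ℝ) = ∑ i ∈ H, ((thr A i (s i)).card : ℝ) +
      ∑ i ∈ Hᶜ, ((thr A i (s i)).card : ℝ) := (sum_add_sum_compl H _).symm
  rw [h8] at h1
  have hβ1 : β ≤ 1 := by nlinarith
  have h5 : (t : ℝ) * a ≤ (H.card + (2 * t + 1 - H.card) * β) * a := by linarith
  have h6 : (t : ℝ) ≤ H.card + (2 * t + 1 - H.card) * β := le_of_mul_le_mul_right h5 ha0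
  nlinarith [mul_nonneg (sub_nonneg.2 hβ1) (sub_nonneg.2 hHt)]

/-- the free rows of `τ` whose value is free -/
def fr (g : Perm (Fin n)) (T : Finset (Fin n)) (τ : Perm (Fin n)) : Finset (Fin n) :=
  Tᶜ.filter (fun d => ∀ i ∈ T, τ d ≠ g i)

theorem fr_onB {g : Perm (Fin n)} {T T' : Finset (Fin n)} (hT : T' ⊆ T) (τ : Perm (Fin n)) :
    OnB g T' τ (fr g T τ) := by
  intro x hx
  obtain ⟨h1, h2⟩ := mem_filter.1 hx
  exact ⟨fun h => mem_compl.1 h1 (hT h), fun i hi => h2 i (hT hi)⟩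

theorem fr_card_le (g : Perm (Fin n)) (T : Finset (Fin n)) (τ : Perm (Fin n)) :
    (fr g T τ).card ≤ n - T.card := by
  have h1 : (fr g T τ).card ≤ Tᶜ.card := card_filter_le _ _
  rwa [card_compl, Fintype.card_fin] at h1

theorem fr_card_ge (g : Perm (Fin n)) (T : Finset (Fin n)) (τ : Perm (Fin n)) :
    n - T.card ≤ (fr g T τ).card + (mis g T τ).card := by
  classical
  have h1 := card_filter_add_card_filter_not (s := Tᶜ) (fun d => ∀ i ∈ T, τ d ≠ g i)
  rw [card_compl, Fintype.card_fin] at h1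
  have h2 : (Tᶜ.filter (fun d => ¬ ∀ i ∈ T, τ d ≠ g i)).card ≤ (mis g T τ).card := by
    refine card_le_card_of_injOn (fun d => g⁻¹ (τ d)) ?_ ?_
    · intro d hd
      obtain ⟨h3, h4⟩ := mem_filter.1 (mem_coe.1 hd)
      push Not at h4
      obtain ⟨i, hi, hi2⟩ := h4
      have h5 : g⁻¹ (τ d) = i := by
        rw [hi2]
        exact g.symm_apply_apply i
      show g⁻¹ (τ d) ∈ (mis g T τ : Set (Fin n))
      rw [h5]
      refine mem_coe.2 (mem_mis.2 ⟨hi, fun h6 => ?_⟩)
      rw [← h6] at hi2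
      have := τ.injective hi2
      rw [this] at h3
      exact mem_compl.1 h3 hi
    · intro a _ b _ hab
      exact τ.injective ((g⁻¹).injective hab)
  have h3 : (fr g T τ).card = (Tᶜ.filter (fun d => ∀ i ∈ T, τ d ≠ g i)).card := rfl
  omega

/-- common cells are counted by the densities -/
theorem sum_cm_le {A U : Finset (Perm (Fin n))} (hU : U ⊆ A) {β : ℝ} {R : Perm (Fin n) → Finset (Fin n)}
    {τ : Perm (Fin n)} (h : ∀ d ∈ R τ, ((thr A d (τ d)).card : ℝ) ≤ β * A.card) :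
    ∑ τ' ∈ U, ((cm τ τ' (R τ) (R τ')).card : ℝ) ≤ (R τ).card * (β * A.card) := by
  classical
  have h1 : ∑ τ' ∈ U, (cm τ τ' (R τ) (R τ')).card ≤ ∑ d ∈ R τ, (thr A d (τ d)).card := by
    rw [sum_thr_hits]
    calc ∑ τ' ∈ U, (cm τ τ' (R τ) (R τ')).card ≤
        ∑ τ' ∈ U, ((R τ).filter (fun i => τ' i = τ i)).card := by
          refine sum_le_sum fun τ' _ => card_le_card fun x hx => ?_
          obtain ⟨h2, h3⟩ := mem_filter.1 hx
          exact mem_filter.2 ⟨(mem_inter.1 h2).1, h3.symm⟩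
      _ ≤ _ := sum_le_sum_of_subset hU
  have h2 : ∑ τ' ∈ U, ((cm τ τ' (R τ) (R τ')).card : ℝ) ≤ ∑ d ∈ R τ, ((thr A d (τ d)).card : ℝ) := by
    exact_mod_cast h1
  refine h2.trans ((sum_le_sum h).trans (le_of_eq ?_))
  rw [sum_const, nsmul_eq_mul]

end Pool.EG
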