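import Pool.Agent.Work.MP_46fa68_74.DS6

/-! # dense-sparse endgame, 7: `t` and `t + 2` popular cells (helper74) -/

set_option autoImplicit false

open Finset Equiv

namespace Pool.EG

variable {n t : ℕ}

/-- two members agree on a free row -/
theorem hit_fr {A : Finset (Perm (Fin n))} (hA : TInt t A) {g : Perm (Fin n)} {T K : Finset (Fin n)}
    {σ τ : Perm (Fin n)} (hσ : σ ∈ A) (hτ : τ ∈ A) (hK : K.card < t)
    (h1 : ∀ i ∈ T, σ i = τ i → i ∈ K) (h2 : ∀ d, d ∉ T → σ d = τ d → ∀ i ∈ T, τ d ≠ g i) :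
    ∃ d ∈ fr g T τ, σ d = τ d := by
  classical
  by_contra hcon
  push Not at hcon
  have h3 : (univ.filter (fun i => σ i = τ i)) ⊆ K := by
    intro i hi
    have h4 := (mem_filter.1 hi).2
    by_cases hiT : i ∈ T
    · exact h1 i hiT h4
    · exfalso
      exact hcon i (mem_filter.2 ⟨mem_compl.2 hiT, h2 i hiT h4⟩) h4
  have h4 := hA σ hσ τ hτ
  unfold ag at h4
  have h5 := card_le_card h3
  omega

/-- **`t` popular cells** -/
theorem case_zero {A : Finset (Perm (Fin (2 * t + 1)))} (hA : TInt t A) (ht : 20 ≤ t)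
    {β p0 : ℝ} (hb : 0 ≤ β) (hF : ((t + 1).factorial : ℝ) ≤ A.card)
    (hgap : ∀ x y, ((thr A x y).card : ℝ) ≤ β * A.card ∨ p0 * A.card ≤ ((thr A x y).card : ℝ))
    {g : Perm (Fin (2 * t + 1))} {T : Finset (Fin (2 * t + 1))}
    (hpop : ∀ x y, p0 * A.card ≤ ((thr A x y).card : ℝ) ↔ (x ∈ T ∧ y = g x))
    (hT : T.card = t) (hj : ∀ σ ∈ A, (mis g T σ).card ≤ 1) {s : Perm (Fin (2 * t + 1))}
    (hs : s ∈ A) (hs1 : (mis g T s).card = 1)
    (hE : Real.exp (lam ((t : ℝ) + 1) * 2) * (((t : ℝ) + 2) * β - p0 + (Real.exp 1 - 1) * β) < 1) :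
    False := by
  classical
  set a : ℝ := (A.card : ℝ) with ha
  have ha0 : 0 < a := by
    rw [ha]
    exact_mod_cast card_pos.2 ⟨s, hs⟩
  set U := A.filter (fun σ => (mis g T σ).card = 1) with hU
  set B := A.filter (fun σ => ¬ (mis g T σ).card = 1) with hB
  have hBU : (U.card : ℝ) + B.card = a := by
    rw [ha, hU, hB]
    exact_mod_cast card_filter_add_card_filter_not (s := A) (fun σ => (mis g T σ).card = 1)
  have hBmis : ∀ σ ∈ B, mis g T σ = ∅ := by
    intro σ hσ
    obtain ⟨h1, h2⟩ := mem_filter.1 hσ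
    have := hj σ h1
    exact card_eq_zero.1 (by omega)
  have hUne : U.Nonempty := ⟨s, mem_filter.2 ⟨hs, hs1⟩⟩
  have hu0 : (0 : ℝ) < U.card := by exact_mod_cast card_pos.2 hUne
  have hM : 2 * t + 1 - T.card = t + 1 := by omega
  have hBs : ∀ σ ∈ B, ∀ i ∈ T, σ i = g i := by
    intro σ hσ i hi
    by_contra hcon
    have h1 : i ∈ mis g T σ := mem_mis.2 ⟨hi, hcon⟩
    rw [hBmis σ hσ] at h1
    exact notMem_empty _ h1
  have hds := dense_sparse (g := g) (T := T) hM (by omega) (B := B) (U := U) (R := fr g T)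
    (am := 1) (I := ((t : ℝ)) * (β * a))
    (fun σ hσ => mem_star.2 (hBs σ hσ))
    (fun τ _ => fr_onB (Subset.refl T) τ)
    (by
      intro τ hτ
      obtain ⟨h1, h2⟩ := mem_filter.1 hτ
      obtain ⟨x0, hx0⟩ := card_eq_one.1 h2
      have hx0m : x0 ∈ mis g T τ := by rw [hx0]; exact mem_singleton_self _
      obtain ⟨hx0T, hx0n⟩ := mem_mis.1 hx0m
      have h3 : τ (τ⁻¹ (g x0)) = g x0 := ap_inv τ _
      have hd : τ⁻¹ (g x0) ∉ T := by
        intro hdT
        have h4 : τ⁻¹ (g x0) ≠ x0 := by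
          intro e
          rw [e] at h3
          exact hx0n h3
        have h5 : τ⁻¹ (g x0) ∉ mis g T τ := by
          rw [hx0, mem_singleton]
          exact h4
        have h6 : τ (τ⁻¹ (g x0)) = g (τ⁻¹ (g x0)) := by
          by_contra h7
          exact h5 (mem_mis.2 ⟨hdT, h7⟩)
        rw [h3] at h6
        exact h4 (g.injective h6).symm
      have h4 : fr g T τ ⊆ Tᶜ.erase (τ⁻¹ (g x0)) := by
        intro d hd'
        obtain ⟨h5, h6⟩ := mem_filter.1 hd'
        refine mem_erase.2 ⟨?_, h5⟩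
        rintro rfl
        exact h6 x0 hx0T h3
      have h5 := card_le_card h4
      rw [card_erase_of_mem (mem_compl.2 hd), card_compl, Fintype.card_fin] at h5
      omega)
    (by
      intro τ hτ
      obtain ⟨h1, h2⟩ := mem_filter.1 hτ
      have h3 := fr_card_ge g T τ
      omega)
    (by
      intro σ hσ τ hτ
      obtain ⟨h1, h2⟩ := mem_filter.1 hτ
      have hσA : σ ∈ A := (mem_filter.1 hσ).1
      refine hit_fr hA hσA h1 (K := T \ mis g T τ) ?_ ?_ ?_
      · rw [card_sdiff_of_subset (mis_sub g T τ)]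
        omega
      · intro i hi h3
        refine mem_sdiff.2 ⟨hi, fun h4 => (mem_mis.1 h4).2 ?_⟩
        rw [← h3]
        exact hBs σ hσ i hi
      · intro d hd h3 i hi h4
        rw [← h3, ← hBs σ hσ i hi] at h4
        rw [σ.injective h4] at hd
        exact hd hi)
    (by
      intro τ hτ
      have hτA : τ ∈ A := (mem_filter.1 hτ).1
      refine (sum_cm_le (A := A) (filter_subset _ _) (β := β) (fun d hd => ?_)).trans ?_
      · rcases hgap d (τ d) with h | h
        · exact h
        · exfalso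
          exact mem_compl.1 (mem_filter.1 hd).1 ((hpop _ _).1 h).1
      · refine mul_le_mul_of_nonneg_right ?_ (mul_nonneg hb ha0.le)
        obtain ⟨_, h2⟩ := mem_filter.1 hτ
        have h3 := fr_card_ge g T τ
        have h4 := fr_card_le g T τ
        obtain ⟨x0, hx0⟩ := card_eq_one.1 h2
        have hx0m : x0 ∈ mis g T τ := by rw [hx0]; exact mem_singleton_self _
        obtain ⟨hx0T, hx0n⟩ := mem_mis.1 hx0m
        have h3' : τ (τ⁻¹ (g x0)) = g x0 := ap_inv τ _
        have hd : τ⁻¹ (g x0) ∉ T := by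
          intro hdT
          have h4 : τ⁻¹ (g x0) ≠ x0 := by
            intro e
            rw [e] at h3'
            exact hx0n h3'
          have h5 : τ⁻¹ (g x0) ∉ mis g T τ := by
            rw [hx0, mem_singleton]
            exact h4
          have h6 : τ (τ⁻¹ (g x0)) = g (τ⁻¹ (g x0)) := by
            by_contra h7
            exact h5 (mem_mis.2 ⟨hdT, h7⟩)
          rw [h3'] at h6
          exact h4 (g.injective h6).symm
        have h5 : fr g T τ ⊆ Tᶜ.erase (τ⁻¹ (g x0)) := by
          intro d hd'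
          obtain ⟨h5, h6⟩ := mem_filter.1 hd'
          refine mem_erase.2 ⟨?_, h5⟩
          rintro rfl
          exact h6 x0 hx0T h3'
        have h6 := card_le_card h5
        rw [card_erase_of_mem (mem_compl.2 hd), card_compl, Fintype.card_fin] at h6
        have h7 : (fr g T τ).card ≤ t := by omega
        exact_mod_cast h7)
    hUne
  have hcast : (((t + 1 : ℕ) : ℝ)) = (t : ℝ) + 1 := by push_cast; ring
  rw [hcast] at hds
  have htR : (20 : ℝ) ≤ t := by exact_mod_cast ht
  have e1 : (t : ℝ) * (β * a) / ((t : ℝ) + 1 - 1) = β * a := by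
    rw [add_sub_cancel_right]
    field_simp
  have e2 : lam ((t : ℝ) + 1) * (2 * ((1 : ℕ) : ℝ)) = lam ((t : ℝ) + 1) * 2 := by push_cast; ring
  rw [e1, e2] at hds
  set E : ℝ := Real.exp (lam ((t : ℝ) + 1) * 2) with hEd
  have hE0 : 0 < E := Real.exp_pos _
  set c : ℝ := Real.exp 1 - 1 with hc
  -- averaging at `s`
  have hav := av_sum hA hgap hpop hs
  have hJ : ∑ σ ∈ A, ((mis g T σ).card : ℝ) = U.card := by
    rw [hU, card_filter]
    push_cast
    refine sum_congr rfl fun σ hσ => ?_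
    have := hj σ hσ
    by_cases h1 : (mis g T σ).card = 1
    · rw [if_pos h1, h1]
      norm_num
    · rw [if_neg h1]
      have : (mis g T σ).card = 0 := by omega
      rw [this]
      norm_num
  have hms : p0 * a ≤ ∑ i ∈ mis g T s, ((thr A i (g i)).card : ℝ) := by
    obtain ⟨x0, hx0⟩ := card_eq_one.1 hs1
    have hx0m : x0 ∈ mis g T s := by rw [hx0]; exact mem_singleton_self _
    rw [hx0, sum_singleton]
    exact (hpop x0 (g x0)).2 ⟨(mem_mis.1 hx0m).1, rfl⟩
  rw [hJ, hs1, hT, ← ha] at hav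
  push_cast at hav
  have hu : (U.card : ℝ) ≤ (((t : ℝ) + 2) * β - p0) * a := by nlinarith
  -- the final inequality
  set u : ℝ := (U.card : ℝ) with hud
  set F : ℝ := ((t + 1).factorial : ℝ) with hFd
  have hF0 : 0 < F := by
    rw [hFd]
    exact_mod_cast Nat.factorial_pos _
  have hBe : (B.card : ℝ) = a - u := by linarith
  rw [hBe] at hds
  have hua : u ≤ a := by
    have : (0 : ℝ) ≤ B.card := Nat.cast_nonneg _
    linarith
  have hX : E * (u + c * (β * a)) < a := by
    have h1 : u + c * (β * a) ≤ ((((t : ℝ) + 2) * β - p0) + c * β) * a := by nlinarith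
    have h2 := mul_le_mul_of_nonneg_left h1 hE0.le
    have h3 := mul_lt_mul_of_pos_right hE ha0
    have h4 : E * (((((t : ℝ) + 2) * β - p0) + c * β) * a) =
        E * (((t : ℝ) + 2) * β - p0 + c * β) * a := by ring
    linarith
  have hc0 : 0 ≤ c := by
    have := Real.add_one_le_exp (1 : ℝ)
    rw [hc]
    linarith
  have hX0 : 0 ≤ E * (u + c * (β * a)) :=
    mul_nonneg hE0.le (add_nonneg hu0.le (mul_nonneg hc0 (mul_nonneg hb ha0.le)))
  have h5 : (F - (a - u)) * a ≤ u * F := by nlinarith [mul_nonneg (sub_nonneg.2 hF) (sub_nonneg.2 hua)]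
  have h6 := mul_le_mul_of_nonneg_right hds ha0.le
  have h7 := mul_le_mul_of_nonneg_right h5 hX0
  have h8 : u * F * (E * (u + c * (β * a))) < u * F * a :=
    mul_lt_mul_of_pos_left hX (mul_pos hu0 hF0)
  nlinarith

end Pool.EG
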