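import Pool.Agent.Work.MP_46fa68_74.DS7

/-! # dense-sparse endgame, 8: `t + 2` popular cells (helper74) -/

set_option autoImplicit false

open Finset Equiv

namespace Pool.EG

variable {n t : ℕ}

/-- members missing exactly the popular cell `x` -/
def bx (A : Finset (Perm (Fin n))) (g : Perm (Fin n)) (T : Finset (Fin n)) (x : Fin n) :
    Finset (Perm (Fin n)) := A.filter (fun σ => mis g T σ = {x})

theorem bx_star {A : Finset (Perm (Fin n))} {g : Perm (Fin n)} {T : Finset (Fin n)} {x : Fin n}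
    {σ : Perm (Fin n)} (h : σ ∈ bx A g T x) : ∀ i ∈ T.erase x, σ i = g i := by
  intro i hi
  obtain ⟨h1, h2⟩ := mem_erase.1 hi
  by_contra hcon
  have h3 : i ∈ mis g T σ := mem_mis.2 ⟨h2, hcon⟩
  rw [(mem_filter.1 h).2, mem_singleton] at h3
  exact h1 h3

theorem sum_bx (A : Finset (Perm (Fin n))) (g : Perm (Fin n)) (T : Finset (Fin n)) :
    ∑ x ∈ T, ((bx A g T x).card : ℝ) = ((A.filter (fun σ => (mis g T σ).card = 1)).card : ℝ) := by
  classical
  have h1 : ∀ x ∈ T, ((bx A g T x).card : ℝ) = ∑ σ ∈ A, if mis g T σ = {x} then (1 : ℝ) else 0 := by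
    intro x _
    unfold bx
    rw [card_filter]
    push_cast
    rfl
  rw [sum_congr rfl h1, sum_comm, card_filter]
  push_cast
  refine sum_congr rfl fun σ _ => ?_
  by_cases h2 : (mis g T σ).card = 1
  · rw [if_pos h2]
    obtain ⟨x0, hx0⟩ := card_eq_one.1 h2
    have hx0T : x0 ∈ T := mis_sub g T σ (by rw [hx0]; exact mem_singleton_self _)
    rw [sum_eq_single x0]
    · rw [if_pos hx0]
    · intro x _ hx
      rw [if_neg]
      intro h3
      rw [hx0] at h3
      exact hx (singleton_injective h3).symm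
    · intro h3
      exact absurd hx0T h3
  · rw [if_neg h2]
    refine sum_eq_zero fun x _ => ?_
    rw [if_neg]
    intro h3
    rw [h3, card_singleton] at h2
    exact h2 rfl

theorem hit_two (ht : 1 ≤ t) {A : Finset (Perm (Fin n))} (hA : TInt t A) {g : Perm (Fin n)} {T : Finset (Fin n)}
    (hT : T.card = t + 2) {x : Fin n} (hx : x ∈ T) {σ τ : Perm (Fin n)} (hσ : σ ∈ bx A g T x)
    (hτ : τ ∈ A) (h2 : (mis g T τ).card = 2) (hxτ : x ∉ mis g T τ) :
    ∃ d ∈ fr g T τ, σ d = τ d := by
  classical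
  obtain ⟨hσA, hσm⟩ := mem_filter.1 hσ
  have hτx : τ x = g x := by
    by_contra h
    exact hxτ (mem_mis.2 ⟨hx, h⟩)
  have hσi : ∀ i ∈ T, i ≠ x → σ i = g i := fun i hi hne => bx_star hσ i (mem_erase.2 ⟨hne, hi⟩)
  have hσx : σ x ≠ g x := by
    have : x ∈ mis g T σ := by
      rw [hσm]
      exact mem_singleton_self _
    exact (mem_mis.1 this).2
  refine hit_fr hA hσA hτ (K := T \ insert x (mis g T τ)) ?_ ?_ ?_
  · rw [card_sdiff_of_subset (insert_subset hx (mis_sub g T τ)), card_insert_of_notMem hxτ]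
    omega
  · intro i hi h3
    refine mem_sdiff.2 ⟨hi, fun h4 => ?_⟩
    rcases mem_insert.1 h4 with h5 | h5
    · rw [h5, hτx] at h3
      exact hσx h3
    · have hne : i ≠ x := by
        intro e
        rw [e] at h5
        exact hxτ h5
      rw [hσi i hi hne] at h3
      exact (mem_mis.1 h5).2 h3.symm
  · intro d hd h3 i hi h4
    by_cases hix : i = x
    · rw [hix, ← hτx] at h4
      rw [τ.injective h4] at hd
      exact hd hx
    · rw [← h3, ← hσi i hi hix] at h4
      rw [σ.injective h4] at hd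
      exact hd hi

/-- `(1 - 1/N)^(N-1) ≥ 1/e` -/
theorem q_pow_ge {N k : ℕ} (hN : 2 ≤ N) (hk : k + 1 ≤ N) :
    Real.exp (-1) ≤ (1 - 1 / (N : ℝ)) ^ k := by
  have hNR : (2 : ℝ) ≤ N := by exact_mod_cast hN
  have h1 := chord (N := N - 1) (i := N - 1) (by omega) le_rfl
  have hc : ((N - 1 : ℕ) : ℝ) = (N : ℝ) - 1 := by
    rw [Nat.cast_sub (by omega)]
    norm_num
  rw [hc, div_self (by linarith)] at h1
  have h2 : (1 + 1 / ((N : ℝ) - 1)) ^ (N - 1) ≤ Real.exp 1 := by linarith
  have h3 : (1 - 1 / (N : ℝ)) * (1 + 1 / ((N : ℝ) - 1)) = 1 := by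
    have : (N : ℝ) - 1 ≠ 0 := by linarith
    field_simp
    ring
  have hq0 : 0 < 1 - 1 / (N : ℝ) := by
    rw [sub_pos, div_lt_one (by linarith)]
    linarith
  have hq1 : 1 - 1 / (N : ℝ) ≤ 1 := by
    have : 0 ≤ 1 / (N : ℝ) := by positivity
    linarith
  have h4 : Real.exp (-1) ≤ (1 - 1 / (N : ℝ)) ^ (N - 1) := by
    have h5 : (1 - 1 / (N : ℝ)) ^ (N - 1) * (1 + 1 / ((N : ℝ) - 1)) ^ (N - 1) = 1 := by
      rw [← mul_pow, h3, one_pow]
    have h6 : 0 < (1 - 1 / (N : ℝ)) ^ (N - 1) := pow_pos hq0 _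
    have h7 : 1 ≤ (1 - 1 / (N : ℝ)) ^ (N - 1) * Real.exp 1 :=
      h5.symm.le.trans (mul_le_mul_of_nonneg_left h2 h6.le)
    rw [Real.exp_neg, inv_le_comm₀ (Real.exp_pos 1) h6]
    rw [← one_div, div_le_iff₀ h6]
    linarith
  exact h4.trans (pow_le_pow_of_le_one hq0.le hq1 (by omega))

/-- **`t + 2` popular cells** -/
theorem case_two {A : Finset (Perm (Fin (2 * t + 1)))} (hA : TInt t A) (ht : 20 ≤ t)
    {β p0 : ℝ} (hb : 0 ≤ β) (hF : ((t + 1).factorial : ℝ) ≤ A.card)
    (hgap : ∀ x y, ((thr A x y).card : ℝ) ≤ β * A.card ∨ p0 * A.card ≤ ((thr A x y).card : ℝ))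
    {g : Perm (Fin (2 * t + 1))} {T : Finset (Fin (2 * t + 1))}
    (hpop : ∀ x y, p0 * A.card ≤ ((thr A x y).card : ℝ) ↔ (x ∈ T ∧ y = g x))
    (hT : T.card = t + 2) (hj : ∀ σ ∈ A, (mis g T σ).card ≤ 2) {s : Perm (Fin (2 * t + 1))}
    (hs : s ∈ A) (hs2 : (mis g T s).card = 2)
    (hlo : 0 < 1 - 1 / (((t : ℝ) + 1) * t) - ((t : ℝ) * (1 - Real.exp (-1)) + 2) / (t + 1) -
      (1 - p0))
    (hE : ∀ v : ℝ, 1 - 1 / (((t : ℝ) + 1) * t) -
        ((t : ℝ) * (1 - Real.exp (-1)) + 2) / (t + 1) - (1 - p0) ≤ v →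
      v ≤ (1 - p0) + ((t : ℝ) + 1) * β - 1 + 1 / (((t : ℝ) + 1) * t) →
      Real.exp (lam (t : ℝ) * 6) * (v + (Real.exp 1 - 1) * β) *
        (v + (1 - p0) + 1 / (((t : ℝ) + 1) * t) + 1 / ((t : ℝ) + 1)) <
          (1 + 1 / ((t : ℝ) + 1)) * v) : False := by
  classical
  have htR : (20 : ℝ) ≤ t := by exact_mod_cast ht
  set a : ℝ := (A.card : ℝ) with ha
  have ha0 : 0 < a := by
    rw [ha]
    exact_mod_cast card_pos.2 ⟨s, hs⟩
  set A0 := A.filter (fun σ => (mis g T σ).card = 0) with hA0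
  set A1 := A.filter (fun σ => (mis g T σ).card = 1) with hA1
  set A2 := A.filter (fun σ => (mis g T σ).card = 2) with hA2
  -- the three classes
  have hsplit : (A0.card : ℝ) + A1.card + A2.card = a := by
    rw [ha, hA0, hA1, hA2, card_filter, card_filter, card_filter]
    have h1 : A.card = ∑ σ ∈ A, 1 := by rw [sum_const, smul_eq_mul, mul_one]
    rw [h1]
    push_cast
    rw [← sum_add_distrib, ← sum_add_distrib]
    refine sum_congr rfl fun σ hσ => ?_
    have := hj σ hσ
    by_cases h2 : (mis g T σ).card = 0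
    · simp [h2]
    · by_cases h3 : (mis g T σ).card = 1
      · simp [h3]
      · have h4 : (mis g T σ).card = 2 := by omega
        simp [h4]
  have hJ : ∑ σ ∈ A, ((mis g T σ).card : ℝ) = A1.card + 2 * A2.card := by
    rw [hA1, hA2, card_filter, card_filter]
    push_cast
    rw [mul_sum, ← sum_add_distrib]
    refine sum_congr rfl fun σ hσ => ?_
    have := hj σ hσ
    by_cases h2 : (mis g T σ).card = 0
    · simp [h2]
    · by_cases h3 : (mis g T σ).card = 1
      · simp [h3]
      · have h4 : (mis g T σ).card = 2 := by omega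
        simp [h4]
  -- factorials
  set F : ℝ := (t.factorial : ℝ) with hFd
  have hF0 : 0 < F := by
    rw [hFd]
    exact_mod_cast Nat.factorial_pos _
  have hF1 : ((t : ℝ) + 1) * F ≤ a := by
    have h1 : ((t + 1).factorial : ℝ) = ((t : ℝ) + 1) * F := by
      rw [Nat.factorial_succ]
      push_cast
      rfl
    rw [← h1]
    exact hF
  have hA0le : (A0.card : ℝ) ≤ 1 / (((t : ℝ) + 1) * t) * a := by
    have h1 : A0 ⊆ star g T := by
      intro σ hσ
      refine mem_star.2 fun i hi => ?_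
      by_contra hcon
      have h2 : i ∈ mis g T σ := mem_mis.2 ⟨hi, hcon⟩
      rw [card_eq_zero.1 (mem_filter.1 hσ).2] at h2
      exact notMem_empty _ h2
    have h2 := card_le_card h1
    rw [card_star, hT, show 2 * t + 1 - (t + 2) = t - 1 by omega] at h2
    have h3 : (A0.card : ℝ) ≤ ((t - 1).factorial : ℝ) := by exact_mod_cast h2
    have h4 : (t : ℝ) * ((t - 1).factorial : ℝ) = F := by
      have h5 : t * (t - 1).factorial = t.factorial := Nat.mul_factorial_pred (by omega)
      rw [hFd, ← h5]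
      push_cast
      rfl
    rw [div_mul_eq_mul_div, one_mul, le_div_iff₀ (by positivity)]
    have h5 : (A0.card : ℝ) * (((t : ℝ) + 1) * t) ≤
        ((t - 1).factorial : ℝ) * (((t : ℝ) + 1) * t) :=
      mul_le_mul_of_nonneg_right h3 (by positivity)
    have h6 : ((t - 1).factorial : ℝ) * (((t : ℝ) + 1) * t) =
        ((t : ℝ) + 1) * ((t : ℝ) * ((t - 1).factorial : ℝ)) := by ring
    rw [h6, h4] at h5
    exact h5.trans hF1
  -- the members missing only `x`
  have hbxF : ∀ x ∈ T, ((bx A g T x).card : ℝ) ≤ F := by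
    intro x hx
    have h1 : bx A g T x ⊆ star g (T.erase x) := fun σ hσ => mem_star.2 (bx_star hσ)
    have h2 := card_le_card h1
    rw [card_star, card_erase_of_mem hx, hT, show 2 * t + 1 - (t + 2 - 1) = t by omega] at h2
    rw [hFd]
    exact_mod_cast h2
  have hbxs : ∀ x ∈ T, x ∉ mis g T s → ((bx A g T x).card : ℝ) ≤ (1 - Real.exp (-1)) * F := by
    intro x hx hxs
    have h1 : bx A g T x ⊆ star g (T.erase x) \ av g (T.erase x) (cel s (fr g T s)) := by
      intro σ hσ
      refine mem_sdiff.2 ⟨mem_star.2 (bx_star hσ), fun h2 => ?_⟩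
      obtain ⟨d, hd, hd2⟩ := hit_two (by omega) hA hT hx hσ hs hs2 hxs
      exact (mem_av.1 h2).2 (d, s d) (mem_cel.2 ⟨hd, rfl⟩) hd2
    have hsub : av g (T.erase x) (cel s (fr g T s)) ⊆ star g (T.erase x) := filter_subset _ _
    have h2 := card_le_card h1
    have h3 := card_sdiff_of_subset hsub
    have h3' := card_le_card hsub
    have hcT : (T.erase x).card = t + 1 := by
      rw [card_erase_of_mem hx]
      omega
    rw [card_star, hcT, show 2 * t + 1 - (t + 1) = t by omega] at h3 h3'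
    have h4 := av_partial (g := g) (T := T.erase x) (M := t) (by omega) (by omega) s (fr g T s)
      (fun y hy => (fr_onB (erase_subset x T) s y hy).1)
    have h5 := fr_card_le g T s
    have h6 := q_pow_ge (N := t) (k := (fr g T s).card) (by omega) (by omega)
    have h7 : F * Real.exp (-1) ≤ ((av g (T.erase x) (cel s (fr g T s))).card : ℝ) :=
      (mul_le_mul_of_nonneg_left h6 hF0.le).trans h4
    have h8 : ((bx A g T x).card : ℝ) ≤ F - ((av g (T.erase x) (cel s (fr g T s))).card : ℝ) := by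
      have h9 : (bx A g T x).card + (av g (T.erase x) (cel s (fr g T s))).card ≤ t.factorial := by
        omega
      have h10 : ((bx A g T x).card : ℝ) + ((av g (T.erase x) (cel s (fr g T s))).card : ℝ) ≤
          (t.factorial : ℝ) := by exact_mod_cast h9
      rw [hFd]
      linarith
    linarith
  have hA1sum := sum_bx A g T
  rw [← hA1] at hA1sum
  have hmsub := mis_sub g T s
  have he1 : 0 ≤ 1 - Real.exp (-1) := by
    have : Real.exp (-1) ≤ 1 := Real.exp_le_one_iff.2 (by norm_num)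
    linarith
  have hA1le : (A1.card : ℝ) ≤ ((t : ℝ) * (1 - Real.exp (-1)) + 2) / (t + 1) * a := by
    have h1 : ∑ x ∈ T, ((bx A g T x).card : ℝ) =
        ∑ x ∈ T \ mis g T s, ((bx A g T x).card : ℝ) + ∑ x ∈ mis g T s, ((bx A g T x).card : ℝ) :=
      (sum_sdiff hmsub).symm
    have h2 : ∑ x ∈ T \ mis g T s, ((bx A g T x).card : ℝ) ≤ t * ((1 - Real.exp (-1)) * F) := by
      refine (sum_le_sum fun x hx => hbxs x (mem_sdiff.1 hx).1 (mem_sdiff.1 hx).2).trans
        (le_of_eq ?_)
      rw [sum_const, nsmul_eq_mul, card_sdiff_of_subset hmsub, hT, hs2,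
        show t + 2 - 2 = t by omega]
    have h3 : ∑ x ∈ mis g T s, ((bx A g T x).card : ℝ) ≤ 2 * F := by
      refine (sum_le_sum fun x hx => hbxF x (hmsub hx)).trans (le_of_eq ?_)
      rw [sum_const, nsmul_eq_mul, hs2]
      norm_num
    have h4 : (A1.card : ℝ) ≤ ((t : ℝ) * (1 - Real.exp (-1)) + 2) * F := by
      rw [← hA1sum, h1]
      linarith
    refine h4.trans ?_
    rw [div_mul_eq_mul_div, le_div_iff₀ (by linarith)]
    have h5 : 0 ≤ (t : ℝ) * (1 - Real.exp (-1)) + 2 := by positivity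
    have h6 := mul_le_mul_of_nonneg_left hF1 h5
    linarith
  -- the number `v`
  set v : ℝ := (A2.card : ℝ) / a - (1 - p0) with hv
  have hA2a : (A2.card : ℝ) = (v + (1 - p0)) * a := by
    rw [hv]
    field_simp
    ring
  have hvlo : 1 - 1 / (((t : ℝ) + 1) * t) -
      ((t : ℝ) * (1 - Real.exp (-1)) + 2) / (t + 1) - (1 - p0) ≤ v := by
    have h1 : (1 - 1 / (((t : ℝ) + 1) * t) -
      ((t : ℝ) * (1 - Real.exp (-1)) + 2) / (t + 1)) * a ≤ (v + (1 - p0)) * a := by
      rw [← hA2a]
      have e1 : (1 - 1 / (((t : ℝ) + 1) * t) -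
          ((t : ℝ) * (1 - Real.exp (-1)) + 2) / (t + 1)) * a =
          a - 1 / (((t : ℝ) + 1) * t) * a -
            ((t : ℝ) * (1 - Real.exp (-1)) + 2) / (t + 1) * a := by ring
      rw [e1]
      linarith
    have := le_of_mul_le_mul_right h1 ha0
    linarith
  have hv0 : 0 < v := lt_of_lt_of_le hlo hvlo
  have hav := av_sum hA hgap hpop hs
  have hms : 2 * (p0 * a) ≤ ∑ i ∈ mis g T s, ((thr A i (g i)).card : ℝ) := by
    have h1 : ∑ i ∈ mis g T s, (p0 * a) ≤ ∑ i ∈ mis g T s, ((thr A i (g i)).card : ℝ) :=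
      sum_le_sum fun i hi => (hpop i (g i)).2 ⟨hmsub hi, rfl⟩
    rw [sum_const, nsmul_eq_mul, hs2] at h1
    push_cast at h1
    exact h1
  rw [hJ, hs2, hT, ← ha] at hav
  push_cast at hav
  have hvhi : v ≤ (1 - p0) + ((t : ℝ) + 1) * β - 1 + 1 / (((t : ℝ) + 1) * t) := by
    have h1 : (v + (1 - p0)) * a ≤
        (2 * (1 - p0) + ((t : ℝ) + 1) * β - 1 + 1 / (((t : ℝ) + 1) * t)) * a := by
      rw [← hA2a]
      have e1 : (2 * (1 - p0) + ((t : ℝ) + 1) * β - 1 + 1 / (((t : ℝ) + 1) * t)) * a =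
          2 * a - 2 * (p0 * a) + ((t : ℝ) + 1) * (β * a) - a +
            1 / (((t : ℝ) + 1) * t) * a := by ring
      rw [e1]
      have e2 : ((t : ℝ) + 2 - t) * a + (2 * (t : ℝ) + 1 - (t + 2) + 2) * (β * a) =
          2 * a + ((t : ℝ) + 1) * (β * a) := by ring
      rw [e2] at hav
      linarith
    have := le_of_mul_le_mul_right h1 ha0
    linarith
  have hkey := hE v hvlo hvhi
  set E : ℝ := Real.exp (lam (t : ℝ) * 6) with hEd
  have hE0 : 0 < E := Real.exp_pos _
  have hE1 : 1 ≤ E := Real.one_le_exp (mul_nonneg (lam_nonneg (by linarith)) (by norm_num))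
  set c : ℝ := Real.exp 1 - 1 with hc
  have hc0 : 0 ≤ c := by
    have := Real.add_one_le_exp (1 : ℝ)
    rw [hc]
    linarith
  have hcb : 0 ≤ c * β := mul_nonneg hc0 hb
  have hvc : 0 < v + c * β := by linarith
  have hEv : 0 < E * (v + c * β) := mul_pos hE0 hvc
  -- dense-sparse for every `x`
  have hx1 : ∀ x ∈ T, ((bx A g T x).card : ℝ) * (E * (v + c * β)) ≤
      F * (E * (v + c * β) - v) := by
    intro x hx
    set U := A.filter (fun σ => (mis g T σ).card = 2 ∧ x ∉ mis g T σ) with hU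
    have hUge : v * a ≤ (U.card : ℝ) := by
      have h1 : A2.card ≤ U.card + (A.filter (fun σ => ¬ σ x = g x)).card := by
        have h2 : A2 ⊆ U ∪ A.filter (fun σ => ¬ σ x = g x) := by
          intro σ hσ
          obtain ⟨h3, h4⟩ := mem_filter.1 hσ
          by_cases h5 : σ x = g x
          · exact mem_union_left _ (mem_filter.2 ⟨h3, h4, fun h6 => (mem_mis.1 h6).2 h5⟩)
          · exact mem_union_right _ (mem_filter.2 ⟨h3, h5⟩)
        exact (card_le_card h2).trans (card_union_le _ _)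
      have h2 := card_filter_add_card_filter_not (s := A) (fun σ => σ x = g x)
      have h3 : (A2.card : ℝ) ≤ U.card + ((A.filter (fun σ => ¬ σ x = g x)).card : ℝ) := by
        exact_mod_cast h1
      have h4 : ((thr A x (g x)).card : ℝ) + ((A.filter (fun σ => ¬ σ x = g x)).card : ℝ) = a := by
        rw [ha]
        exact_mod_cast h2
      have h5 := (hpop x (g x)).2 ⟨hx, rfl⟩
      rw [hA2a] at h3
      linarith
    have hU0 : (0 : ℝ) < U.card := lt_of_lt_of_le (mul_pos hv0 ha0) hUge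
    have hUne : U.Nonempty := card_pos.1 (by exact_mod_cast hU0)
    have hcT : (T.erase x).card = t + 1 := by
      rw [card_erase_of_mem hx]
      omega
    have hds := dense_sparse (g := g) (T := T.erase x) (M := t) (by omega) ht (B := bx A g T x)
      (U := U) (R := fr g T) (am := 3) (I := ((t : ℝ) - 1) * (β * a))
      (fun σ hσ => mem_star.2 (bx_star hσ))
      (fun τ _ => fr_onB (erase_subset x T) τ)
      (by
        intro τ _
        have := fr_card_le g T τ
        omega)
      (by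
        intro τ hτ
        have h1 := fr_card_ge g T τ
        have h2 := (mem_filter.1 hτ).2.1
        omega)
      (by
        intro σ hσ τ hτ
        obtain ⟨h1, h2, h3⟩ := mem_filter.1 hτ
        exact hit_two (by omega) hA hT hx hσ h1 h2 h3)
      (by
        intro τ hτ
        refine (sum_cm_le (A := A) (filter_subset _ _) (β := β) (fun d hd => ?_)).trans ?_
        · rcases hgap d (τ d) with h | h
          · exact h
          · exfalso
            exact mem_compl.1 (mem_filter.1 hd).1 ((hpop _ _).1 h).1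
        · refine mul_le_mul_of_nonneg_right ?_ (mul_nonneg hb ha0.le)
          have h1 := fr_card_le g T τ
          have h2 : (fr g T τ).card + 1 ≤ t := by omega
          have h3 : ((fr g T τ).card : ℝ) + 1 ≤ t := by exact_mod_cast h2
          linarith)
      hUne
    have e1 : ((t : ℝ) - 1) * (β * a) / ((t : ℝ) - 1) = β * a := by
      have : (t : ℝ) - 1 ≠ 0 := by linarith
      field_simp
    have e2 : lam (t : ℝ) * (2 * ((3 : ℕ) : ℝ)) = lam (t : ℝ) * 6 := by
      push_cast
      ring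
    rw [e1, e2, ← hEd, ← hc, ← hFd] at hds
    set u : ℝ := (U.card : ℝ) with hu
    set bb : ℝ := ((bx A g T x).card : ℝ) with hbb
    have hk0 : 0 ≤ c * (β * a) := mul_nonneg hc0 (mul_nonneg hb ha0.le)
    have huk : 0 < u + c * (β * a) := by linarith
    -- `bb E (u + k) ≤ F (E (u + k) - u)`
    have h1 : bb * (E * (u + c * (β * a))) ≤ F * (E * (u + c * (β * a)) - u) := by linarith
    -- pass from `u` to `v a`
    have h2 : v * (E * (u + c * (β * a))) ≤ u * (E * (v + c * β)) := by
      have h3 : v * (u + c * (β * a)) ≤ u * (v + c * β) := by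
        have : c * β * (v * a) ≤ c * β * u := mul_le_mul_of_nonneg_left hUge hcb
        have e3 : v * (u + c * (β * a)) = v * u + c * β * (v * a) := by ring
        have e4 : u * (v + c * β) = v * u + c * β * u := by ring
        rw [e3, e4]
        linarith
      have := mul_le_mul_of_nonneg_left h3 hE0.le
      calc v * (E * (u + c * (β * a))) = E * (v * (u + c * (β * a))) := by ring
        _ ≤ E * (u * (v + c * β)) := this
        _ = u * (E * (v + c * β)) := by ring
    have hX0 : 0 < E * (u + c * (β * a)) := mul_pos hE0 huk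
    have h4 : (bb * (E * (v + c * β))) * (E * (u + c * (β * a))) ≤
        (F * (E * (v + c * β) - v)) * (E * (u + c * (β * a))) := by
      have h5 := mul_le_mul_of_nonneg_right h1 hEv.le
      have h6 := mul_le_mul_of_nonneg_left h2 hF0.le
      calc (bb * (E * (v + c * β))) * (E * (u + c * (β * a))) =
          bb * (E * (u + c * (β * a))) * (E * (v + c * β)) := by ring
        _ ≤ F * (E * (u + c * (β * a)) - u) * (E * (v + c * β)) := h5
        _ = F * (E * (u + c * (β * a))) * (E * (v + c * β)) - F * (u * (E * (v + c * β))) := by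
            ring
        _ ≤ F * (E * (u + c * (β * a))) * (E * (v + c * β)) - F * (v * (E * (u + c * (β * a)))) := by
            linarith
        _ = _ := by ring
    exact le_of_mul_le_mul_right h4 hX0
  -- sum over `x`
  have hsum : (A1.card : ℝ) * (E * (v + c * β)) ≤
      ((t : ℝ) + 2) * (F * (E * (v + c * β) - v)) := by
    rw [← hA1sum, sum_mul]
    refine (sum_le_sum hx1).trans (le_of_eq ?_)
    rw [sum_const, nsmul_eq_mul, hT]
    push_cast
    ring
  have hX1 : 0 ≤ E * (v + c * β) - v := by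
    have := mul_le_mul_of_nonneg_right hE1 hvc.le
    linarith
  have h1 : ((t : ℝ) + 2) * (F * (E * (v + c * β) - v)) ≤
      (1 + 1 / ((t : ℝ) + 1)) * a * (E * (v + c * β) - v) := by
    have h2 : ((t : ℝ) + 2) * F ≤ (1 + 1 / ((t : ℝ) + 1)) * a := by
      have h3 : (1 + 1 / ((t : ℝ) + 1)) = ((t : ℝ) + 2) / ((t : ℝ) + 1) := by
        field_simp
        ring
      rw [h3, div_mul_eq_mul_div, le_div_iff₀ (by linarith)]
      have h4 := mul_le_mul_of_nonneg_left hF1 (show (0 : ℝ) ≤ (t : ℝ) + 2 by linarith)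
      calc ((t : ℝ) + 2) * F * ((t : ℝ) + 1) = ((t : ℝ) + 2) * (((t : ℝ) + 1) * F) := by ring
        _ ≤ _ := h4
    have := mul_le_mul_of_nonneg_right h2 hX1
    linarith
  have hA1ge : (1 - 1 / (((t : ℝ) + 1) * t) - (1 - p0) - v) * a ≤ (A1.card : ℝ) := by
    have : (A1.card : ℝ) = a - A0.card - A2.card := by linarith
    rw [this, hA2a]
    linarith
  have h2 := mul_le_mul_of_nonneg_right hA1ge hEv.le
  have h3 : (1 - 1 / (((t : ℝ) + 1) * t) - (1 - p0) - v) * (E * (v + c * β)) ≤
      (1 + 1 / ((t : ℝ) + 1)) * (E * (v + c * β) - v) := by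
    have h4 : ((1 - 1 / (((t : ℝ) + 1) * t) - (1 - p0) - v) * (E * (v + c * β))) * a ≤
        ((1 + 1 / ((t : ℝ) + 1)) * (E * (v + c * β) - v)) * a := by linarith
    exact le_of_mul_le_mul_right h4 ha0
  have e5 : (1 + 1 / ((t : ℝ) + 1)) * (E * (v + c * β) - v) -
      (1 - 1 / (((t : ℝ) + 1) * t) - (1 - p0) - v) * (E * (v + c * β)) =
      E * (v + c * β) * (v + (1 - p0) + 1 / (((t : ℝ) + 1) * t) + 1 / ((t : ℝ) + 1)) -
        (1 + 1 / ((t : ℝ) + 1)) * v := by ring
  linarith

end Pool.EG
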