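import Pool.Agent.Work.MP_46fa68_74.DS8

/-! # dense-sparse endgame, 9: assembly (helper74) -/

set_option autoImplicit false

open Finset Equiv

namespace Pool.EG

variable {n t : ℕ}

theorem good_of_link {A : Finset (Perm (Fin (2 * t + 1)))} (hA : TInt t A) (hLink : Link t)
    {g : Perm (Fin (2 * t + 1))} {T : Finset (Fin (2 * t + 1))} (hT : t + 1 ≤ T.card)
    (hj : ∀ σ ∈ A, (mis g T σ).card ≤ 1) : Good t A := by
  classical
  obtain ⟨U, hUT, hUc⟩ := exists_subset_card_eq hT
  obtain ⟨h2, h3⟩ := hLink A g U hUc hA (fun σ hσ => by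
    have h4 := card_filter_add_card_filter_not (s := U) (fun i => σ i = g i)
    have h5 : (U.filter (fun i => ¬ σ i = g i)).card ≤ (mis g T σ).card :=
      card_le_card fun i hi => by
        obtain ⟨h6, h7⟩ := mem_filter.1 hi
        exact mem_mis.2 ⟨hUT h6, h7⟩
    have h6 := hj σ hσ
    omega)
  refine ⟨by rw [sub_eq]; exact h2, fun heq => ?_⟩
  rw [sub_eq] at heq
  obtain ⟨y, hy, h4⟩ := h3 heq
  exact ⟨g, U.erase y, by rw [card_erase_of_mem hy]; omega, h4⟩

/-- most members miss a popular cell if there are many popular cells -/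
theorem J_ge {A : Finset (Perm (Fin n))} (g : Perm (Fin n)) (T : Finset (Fin n)) :
    (A.card : ℝ) - ((n - T.card).factorial : ℝ) ≤ ∑ σ ∈ A, ((mis g T σ).card : ℝ) := by
  classical
  have h1 : (A.filter (fun σ => (mis g T σ).card = 0)).card ≤ (n - T.card).factorial := by
    rw [← card_star g T]
    refine card_le_card fun σ hσ => mem_star.2 fun i hi => ?_
    by_contra hcon
    have h2 : i ∈ mis g T σ := mem_mis.2 ⟨hi, hcon⟩
    rw [card_eq_zero.1 (mem_filter.1 hσ).2] at h2
    exact notMem_empty _ h2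
  have h2 : ((A.filter (fun σ => (mis g T σ).card = 0)).card : ℝ) ≤
      ((n - T.card).factorial : ℝ) := by exact_mod_cast h1
  have h3 := card_filter_add_card_filter_not (s := A) (fun σ => (mis g T σ).card = 0)
  have h4 : ((A.filter (fun σ => ¬ (mis g T σ).card = 0)).card : ℝ) ≤
      ∑ σ ∈ A, ((mis g T σ).card : ℝ) := by
    have h5 : (A.filter (fun σ => ¬ (mis g T σ).card = 0)).card ≤ ∑ σ ∈ A, (mis g T σ).card := by
      rw [card_filter]
      refine sum_le_sum fun σ _ => ?_
      split_ifs with h6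
      · exact Nat.zero_le _
      · omega
    exact_mod_cast h5
  have h5 : ((A.filter (fun σ => (mis g T σ).card = 0)).card : ℝ) +
      ((A.filter (fun σ => ¬ (mis g T σ).card = 0)).card : ℝ) = A.card := by exact_mod_cast h3
  linarith

/-- the inequalities of the dense-sparse endgame (one gap only) -/
structure NumD (t : ℕ) (β p0 : ℝ) : Prop where
  ht : 20 ≤ t
  hb : 0 ≤ β
  hp0 : 1 / 2 < p0
  h0 : β * (t + 3) < 2
  hY : 2 + ((t : ℝ) + 3) * (t - 1) < (2 - (t + 3) * (1 - p0)) * ((t + 1) * t * (t - 1))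
  h1 : ((t : ℝ) + 2) * β + 2 * (1 - p0) < 2 - 1 / (t + 1)
  h3 : ((t : ℝ) + 2) * β + 3 * (1 - p0) < 2 - 1 / ((t + 1) * t)
  hE0 : Real.exp (lam ((t : ℝ) + 1) * 2) * (((t : ℝ) + 2) * β - p0 + (Real.exp 1 - 1) * β) < 1
  hlo : 0 < 1 - 1 / (((t : ℝ) + 1) * t) - ((t : ℝ) * (1 - Real.exp (-1)) + 2) / (t + 1) - (1 - p0)
  hE2 : ∀ v : ℝ, 1 - 1 / (((t : ℝ) + 1) * t) -
        ((t : ℝ) * (1 - Real.exp (-1)) + 2) / (t + 1) - (1 - p0) ≤ v →
      v ≤ (1 - p0) + ((t : ℝ) + 1) * β - 1 + 1 / (((t : ℝ) + 1) * t) →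
      Real.exp (lam (t : ℝ) * 6) * (v + (Real.exp 1 - 1) * β) *
        (v + (1 - p0) + 1 / (((t : ℝ) + 1) * t) + 1 / ((t : ℝ) + 1)) <
          (1 + 1 / ((t : ℝ) + 1)) * v

/-- **the dense-sparse endgame** -/
theorem endD {β p0 : ℝ} (N : NumD t β p0) (hG : Gap (2 * t + 1) t 1 β p0) (hLink : Link t)
    (hK : ∀ n' t' : ℕ, 2 * t' + 3 ≤ n' → Holds n' t') : Holds (2 * t + 1) t := by
  classical
  have ht := N.ht
  have htR : (20 : ℝ) ≤ t := by exact_mod_cast ht
  apply holds_of_good
  intro A hA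
  by_cases hF' : A.card < (2 * t + 1 - t).factorial
  · exact good_of_lt hF'
  rw [not_lt, sub_eq] at hF'
  have hF : ((t + 1).factorial : ℝ) ≤ A.card := by exact_mod_cast hF'
  have hfac : (0 : ℝ) < ((t + 1).factorial : ℝ) := by exact_mod_cast Nat.factorial_pos _
  have ha0 : (0 : ℝ) < (A.card : ℝ) := lt_of_lt_of_le hfac hF
  have hne : A.Nonempty := by
    rw [← card_pos]
    exact_mod_cast ha0
  have hgap : ∀ x y, ((thr A x y).card : ℝ) ≤ β * A.card ∨
      p0 * A.card ≤ ((thr A x y).card : ℝ) :=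
    hG A hA (by rw [sub_eq, one_mul]; exact hF)
  obtain ⟨g, T, hpop, _⟩ := exists_pop hne N.hp0
  have hmis : ∀ σ ∈ A, t + (mis g T σ).card ≤ T.card + 1 := fun σ hσ =>
    mis_le hA (by omega) N.hb N.h0 hgap hpop hσ
  have hTc : T.card ≤ t + 2 := step_y (by omega) hF (fun i hi => (hpop i (g i)).2 ⟨hi, rfl⟩) N.hY
  obtain ⟨s0, hs0⟩ := hne
  have hT1 := hmis s0 hs0
  have hstar : (∀ σ ∈ A, (mis g T σ).card = 0) → Good t A := by
    intro h
    refine good_of_star rfl hK (T := T) (g := g) (by omega) hA fun σ hσ i hi => ?_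
    by_contra hcon
    have h2 : i ∈ mis g T σ := mem_mis.2 ⟨hi, hcon⟩
    rw [card_eq_zero.1 (h σ hσ)] at h2
    exact notMem_empty _ h2
  have hF1 : ((t : ℝ) + 1) * (t.factorial : ℝ) ≤ A.card := by
    have h1 : ((t + 1).factorial : ℝ) = ((t : ℝ) + 1) * (t.factorial : ℝ) := by
      rw [Nat.factorial_succ]
      push_cast
      rfl
    rw [← h1]
    exact hF
  rcases Nat.lt_or_ge T.card t with hcase | hcase
  · -- `t - 1` popular cells
    refine hstar fun σ hσ => ?_
    have := hmis σ hσ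
    omega
  rcases Nat.lt_or_ge T.card (t + 1) with hcase1 | hcase1
  · -- `t` popular cells
    by_cases hall : ∀ σ ∈ A, (mis g T σ).card = 0
    · exact hstar hall
    · exfalso
      push Not at hall
      obtain ⟨s, hs, hs1⟩ := hall
      have h1 := hmis s hs
      refine case_zero hA ht N.hb hF hgap hpop (by omega) (fun σ hσ => ?_) hs (by omega) N.hE0
      have := hmis σ hσ
      omega
  by_cases hone : ∀ σ ∈ A, (mis g T σ).card ≤ 1
  · exact good_of_link hA hLink hcase1 hone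
  push Not at hone
  obtain ⟨s, hs, hs1⟩ := hone
  rcases Nat.lt_or_ge T.card (t + 2) with hcase2 | hcase2
  · -- `t + 1` popular cells
    exfalso
    have hTt : T.card = t + 1 := by omega
    have h1 := hmis s hs
    have hs2 : (mis g T s).card = 2 := by omega
    have hav := av_sum hA hgap hpop hs
    have hJ := J_ge (A := A) g T
    have hms : 2 * (p0 * (A.card : ℝ)) ≤ ∑ i ∈ mis g T s, ((thr A i (g i)).card : ℝ) := by
      have h1 : ∑ i ∈ mis g T s, (p0 * (A.card : ℝ)) ≤
          ∑ i ∈ mis g T s, ((thr A i (g i)).card : ℝ) :=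
        sum_le_sum fun i hi => (hpop i (g i)).2 ⟨mis_sub g T s hi, rfl⟩
      rw [sum_const, nsmul_eq_mul, hs2] at h1
      push_cast at h1
      exact h1
    rw [hTt, show 2 * t + 1 - (t + 1) = t by omega] at hJ
    rw [hs2, hTt] at hav
    push_cast at hav
    have hfle : (t.factorial : ℝ) ≤ 1 / ((t : ℝ) + 1) * A.card := by
      rw [div_mul_eq_mul_div, one_mul, le_div_iff₀ (by linarith)]
      linarith
    have h2 := mul_lt_mul_of_pos_right N.h1 ha0
    have e1 : (((t : ℝ) + 2) * β + 2 * (1 - p0)) * (A.card : ℝ) =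
        ((t : ℝ) + 2) * (β * A.card) + 2 * (A.card : ℝ) - 2 * (p0 * A.card) := by ring
    have e2 : (2 - 1 / ((t : ℝ) + 1)) * (A.card : ℝ) =
        2 * (A.card : ℝ) - 1 / ((t : ℝ) + 1) * A.card := by ring
    have e3 : ((t : ℝ) + 1 - t) * (A.card : ℝ) + (2 * (t : ℝ) + 1 - (t + 1) + 2) * (β * A.card) =
        (A.card : ℝ) + ((t : ℝ) + 2) * (β * A.card) := by ring
    rw [e3] at hav
    rw [e1, e2] at h2
    linarith
  · -- `t + 2` popular cells
    have hTt : T.card = t + 2 := by omega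
    by_cases htwo : ∀ σ ∈ A, (mis g T σ).card ≤ 2
    · exfalso
      have h1 := htwo s hs
      exact case_two hA ht N.hb hF hgap hpop hTt htwo hs (by omega) N.hlo N.hE2
    · exfalso
      push Not at htwo
      obtain ⟨s, hs, hs3⟩ := htwo
      have h1 := hmis s hs
      have hs2 : (mis g T s).card = 3 := by omega
      have hav := av_sum hA hgap hpop hs
      have hJ := J_ge (A := A) g T
      have hms : 3 * (p0 * (A.card : ℝ)) ≤ ∑ i ∈ mis g T s, ((thr A i (g i)).card : ℝ) := by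
        have h1 : ∑ i ∈ mis g T s, (p0 * (A.card : ℝ)) ≤
            ∑ i ∈ mis g T s, ((thr A i (g i)).card : ℝ) :=
          sum_le_sum fun i hi => (hpop i (g i)).2 ⟨mis_sub g T s hi, rfl⟩
        rw [sum_const, nsmul_eq_mul, hs2] at h1
        push_cast at h1
        exact h1
      rw [hTt, show 2 * t + 1 - (t + 2) = t - 1 by omega] at hJ
      rw [hs2, hTt] at hav
      push_cast at hav
      have h4 : (t : ℝ) * ((t - 1).factorial : ℝ) = (t.factorial : ℝ) := by
        have h5 : t * (t - 1).factorial = t.factorial := Nat.mul_factorial_pred (by omega)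
        rw [← h5]
        push_cast
        rfl
      have hfle : ((t - 1).factorial : ℝ) ≤ 1 / (((t : ℝ) + 1) * t) * A.card := by
        rw [div_mul_eq_mul_div, one_mul, le_div_iff₀ (by positivity)]
        have e4 : ((t - 1).factorial : ℝ) * (((t : ℝ) + 1) * t) =
            ((t : ℝ) + 1) * ((t : ℝ) * ((t - 1).factorial : ℝ)) := by ring
        rw [e4, h4]
        exact hF1
      have h2 := mul_lt_mul_of_pos_right N.h3 ha0
      have e1 : (((t : ℝ) + 2) * β + 3 * (1 - p0)) * (A.card : ℝ) =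
          ((t : ℝ) + 2) * (β * A.card) + 3 * (A.card : ℝ) - 3 * (p0 * A.card) := by ring
      have e2 : (2 - 1 / (((t : ℝ) + 1) * t)) * (A.card : ℝ) =
          2 * (A.card : ℝ) - 1 / (((t : ℝ) + 1) * t) * A.card := by ring
      have e3 : ((t : ℝ) + 2 - t) * (A.card : ℝ) + (2 * (t : ℝ) + 1 - (t + 2) + 3) * (β * A.card) =
          2 * (A.card : ℝ) + ((t : ℝ) + 2) * (β * A.card) := by ring
      rw [e3] at hav
      rw [e1, e2] at h2
      linarith

end Pool.EG
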