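import Pool.Agent.Work.MP_46fa68_76.EndC

/-! # endgame: the trivial case of `Edge` (helper74) -/

set_option autoImplicit false

open Finset Equiv

namespace Pool.EG

theorem edge_fact (t : ℕ) (ht : 2 ≤ t) :
    ((t + 1).factorial : ℝ) = (t + 1) * t * (t - 1) * ((t - 2).factorial : ℝ) ∧
      (t.factorial : ℝ) = t * (t - 1) * ((t - 2).factorial : ℝ) ∧
      ((t - 1).factorial : ℝ) = (t - 1) * ((t - 2).factorial : ℝ) := by
  obtain ⟨s, rfl⟩ := Nat.exists_eq_add_of_le' ht
  have h1 : s + 2 - 1 = s + 1 := by omega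
  have h2 : s + 2 - 2 = s := by omega
  rw [h1, h2, Nat.factorial_succ (s + 2), Nat.factorial_succ (s + 1), Nat.factorial_succ s]
  push_cast
  refine ⟨?_, ?_, ?_⟩ <;> ring

/-- if the members through a cell are more than the permutations which meet one more member then
there is no member off the cell -/
theorem edge_trivial (t : ℕ) (ht : 2 ≤ t) (a : ℝ)
    (h : (4 * (t : ℝ) + 1) / (6 * ((t : ℝ) + 1)) < a) : Edge (t + 2) a 0 := by
  classical
  intro A hA x y hcard
  have hkey : A.filter (fun σ => σ x ≠ y) = ∅ := by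
    by_contra hne
    obtain ⟨s, hs⟩ := Finset.nonempty_iff_ne_empty.2 hne
    obtain ⟨hsA, hsx⟩ := Finset.mem_filter.1 hs
    set x' : Fin (t + 2) := s⁻¹ y with hx'
    have hsx' : s x' = y := ap_inv s y
    have hxx' : x' ≠ x := fun h => hsx (by rw [← h]; exact hsx')
    set R : Finset (Fin (t + 2)) := (univ.erase x).erase x' with hR
    have hRc : R.card = t := by
      rw [hR, card_erase_of_mem (mem_erase.2 ⟨hxx', mem_univ _⟩), card_erase_of_mem (mem_univ _),
        card_univ, Fintype.card_fin]
      omega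
    set g : Perm (Fin (t + 2)) := Equiv.swap x y with hg
    have hgx : g x = y := Equiv.swap_apply_left x y
    have hTR : Disjoint ({x} : Finset (Fin (t + 2))) R := by
      rw [disjoint_singleton_left]
      intro hx
      exact (mem_erase.1 (mem_erase.1 hx).2).1 rfl
    have hc : ∀ i ∈ R, ∀ j ∈ ({x} : Finset (Fin (t + 2))), s i ≠ g j := by
      intro i hi j hj
      rw [mem_singleton] at hj
      rw [hj, hgx, ← hsx']
      intro hij
      exact (mem_erase.1 hi).1 (s.injective hij)
    have hsub : thr A x y ⊆ (star g {x}).filter (fun σ => ∃ i ∈ R, σ i = s i) := by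
      intro σ hσ
      obtain ⟨hσA, hσx⟩ := Finset.mem_filter.1 hσ
      have h1 : 1 ≤ ag σ s := hA σ hσA s hsA
      obtain ⟨i, hi⟩ := Finset.card_pos.1 h1
      have hi' : σ i = s i := (Finset.mem_filter.1 hi).2
      refine mem_filter.2 ⟨mem_star.2 ?_, i, ?_, hi'⟩
      · intro j hj
        rw [mem_singleton] at hj
        rw [hj, hgx]
        exact hσx
      · refine mem_erase.2 ⟨?_, mem_erase.2 ⟨?_, mem_univ _⟩⟩
        · rintro rfl
          rw [hsx', ← hσx] at hi'
          exact hxx' (σ.injective hi')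
        · rintro rfl
          exact hsx (by rw [← hi']; exact hσx)
    have h1 := hit_le hTR hc
    rw [card_singleton, hRc] at h1
    have e1 : t + 2 - (1 + 2) = t - 1 := by omega
    have e2 : t + 2 - (1 + 1) = t := by omega
    have e3 : t + 2 - (1 + 3) = t - 2 := by omega
    rw [e1, e2, e3] at h1
    have h2 : ((thr A x y).card : ℝ) + (t.choose 2 : ℝ) * ((t - 1).factorial : ℝ) ≤
        t * (t.factorial : ℝ) + (t.choose 3 : ℝ) * ((t - 2).factorial : ℝ) := by
      have h3 := (Nat.add_le_add_right (card_le_card hsub)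
        (t.choose 2 * (t - 1).factorial)).trans h1
      exact_mod_cast h3
    have h3 : (t.choose 3 : ℝ) = t * (t - 1) * (t - 2) / 6 := by
      have h4 : t.choose 3 * 6 = t * (t - 1) * (t - 2) := by
        have h5 := Nat.descFactorial_eq_factorial_mul_choose t 3
        simp only [Nat.descFactorial, Nat.factorial] at h5
        have h6 : t * (t - 1) * (t - 2) = (t - 2) * ((t - 1) * (t - 0)) := by
          rw [Nat.sub_zero]; ring
        rw [h6]
        simp only [Nat.mul_one] at h5
        rw [h5]
        ring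
      have h7 : ((t.choose 3 * 6 : ℕ) : ℝ) = ((t * (t - 1) * (t - 2) : ℕ) : ℝ) := by rw [h4]
      rw [Nat.cast_mul, Nat.cast_mul, Nat.cast_mul, Nat.cast_sub (by omega : 1 ≤ t),
        Nat.cast_sub ht] at h7
      push_cast at h7
      linarith
    obtain ⟨f1, f2, f3⟩ := edge_fact t ht
    rw [Nat.cast_choose_two ℝ t, h3, f2, f3] at h2
    have hf : (0 : ℝ) < ((t - 2).factorial : ℝ) := by exact_mod_cast Nat.factorial_pos _
    have htr : (2 : ℝ) ≤ t := by exact_mod_cast ht
    have hpos : (0 : ℝ) < ((t + 1).factorial : ℝ) := by exact_mod_cast Nat.factorial_pos _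
    have h4 : ((thr A x y).card : ℝ) ≤
        (4 * (t : ℝ) + 1) / (6 * ((t : ℝ) + 1)) * ((t + 1).factorial : ℝ) := by
      have h5 : (4 * (t : ℝ) + 1) / (6 * ((t : ℝ) + 1)) * ((t + 1).factorial : ℝ) =
          (4 * (t : ℝ) + 1) / 6 * (t * (t - 1) * ((t - 2).factorial : ℝ)) := by
        rw [f1]
        have : (t : ℝ) + 1 ≠ 0 := by linarith
        field_simp
      rw [h5]
      nlinarith
    have e4 : t + 2 - 1 = t + 1 := by omega
    rw [e4] at hcard
    have h6 := mul_lt_mul_of_pos_right h hpos
    linarith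
  rw [hkey]
  simp

end Pool.EG
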