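import Pool.Agent.Work.MP_46fa68_86.EndG3

/-! # endgame: the number of popular cells from the first link (helper74)

The condition `hY` of `NumG` uses the popular side of the gap of the family itself. Here it is replaced
by the popular side `p1` of the gap one level below: `endY_one`, `endY_two`. -/

set_option autoImplicit false

open Finset Equiv

namespace Pool.EG

variable {t : ℕ}

/-- the count of `core_many` for a family whose members all contain one more cell -/
theorem core_many_star {n : ℕ} {A : Finset (Perm (Fin n))} {g : Perm (Fin n)} {U : Finset (Fin n)}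
    {p : ℝ} {h : ℕ} {c : Fin n} (hc : c ∉ U) (hA : ∀ σ ∈ A, σ c = g c) (hU : U.card = h + 2)
    (hpop : ∀ i ∈ U, p * A.card ≤ ((thr A i (g i)).card : ℝ)) :
    (2 - (h + 2) * (1 - p)) * A.card ≤
      2 * ((n - (h + 3)).factorial : ℝ) + (h + 2) * ((n - (h + 2)).factorial : ℝ) := by
  classical
  set a : ℝ := (A.card : ℝ) with ha
  have h1 : ((h : ℝ) + 2) * (p * a) ≤ ∑ σ ∈ A, ((U.filter (fun i => σ i = g i)).card : ℝ) := by
    have h2 : ∑ σ ∈ A, ((U.filter (fun i => σ i = g i)).card : ℝ) =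
        ∑ i ∈ U, ((thr A i (g i)).card : ℝ) := by
      have := sum_thr_hits A g U
      exact_mod_cast this.symm
    rw [h2]
    calc ((h : ℝ) + 2) * (p * a) = ∑ i ∈ U, p * a := by
          rw [sum_const, hU, nsmul_eq_mul]
          push_cast
          ring
      _ ≤ _ := sum_le_sum hpop
  let B' : Finset (Perm (Fin n)) := U.biUnion (fun i0 => A.filter (fun σ => ∀ i ∈ U.erase i0, σ i = g i))
  have h2 : ∀ σ ∈ A, ((U.filter (fun i => σ i = g i)).card : ℝ) ≤
      (h : ℝ) + 2 * (if (∀ i ∈ U, σ i = g i) then 1 else 0) + (if σ ∈ B' then 1 else 0) := by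
    intro σ hσ
    have h3 : (U.filter (fun i => σ i = g i)).card ≤ U.card := card_filter_le _ _
    by_cases h5 : ∀ i ∈ U, σ i = g i
    · rw [if_pos h5]
      have h6 : ((U.filter (fun i => σ i = g i)).card : ℝ) ≤ h + 2 := by
        rw [hU] at h3
        exact_mod_cast h3
      split_ifs <;> linarith
    · rw [if_neg h5]
      have h6 : (U.filter (fun i => σ i = g i)).card < U.card := by
        apply card_lt_card
        refine (filter_subset _ _).ssubset_of_ne ?_
        intro h7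
        exact h5 fun i hi => by
          rw [← h7] at hi
          exact (mem_filter.1 hi).2
      by_cases h7 : (U.filter (fun i => σ i = g i)).card ≤ h
      · have h8 : ((U.filter (fun i => σ i = g i)).card : ℝ) ≤ h := by exact_mod_cast h7
        split_ifs <;> linarith
      · have h8 : (U.filter (fun i => σ i = g i)).card = h + 1 := by omega
        have h10 : (U \ U.filter (fun i => σ i = g i)).card = 1 := by
          rw [card_sdiff_of_subset (filter_subset _ _)]
          omega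
        obtain ⟨i0, hi0⟩ := card_eq_one.1 h10
        have hi0U : i0 ∈ U := by
          have : i0 ∈ U \ U.filter (fun i => σ i = g i) := by rw [hi0]; exact mem_singleton_self _
          exact (mem_sdiff.1 this).1
        have h11 : σ ∈ B' := by
          refine mem_biUnion.2 ⟨i0, hi0U, mem_filter.2 ⟨hσ, ?_⟩⟩
          intro i hi
          by_contra hcon
          have h12 : i ∈ U \ U.filter (fun i => σ i = g i) :=
            mem_sdiff.2 ⟨(mem_erase.1 hi).2, fun h => hcon (mem_filter.1 h).2⟩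
          rw [hi0, mem_singleton] at h12
          exact (mem_erase.1 hi).1 h12
        rw [if_pos h11, h8]
        push_cast
        linarith
  have hcnt : ∀ S ⊆ U, (A.filter (fun σ => ∀ i ∈ S, σ i = g i)).card ≤
      (n - (S.card + 1)).factorial := by
    intro S hS
    have hcS : c ∉ S := fun h => hc (hS h)
    rw [← card_insert_of_notMem hcS, ← card_star g (insert c S)]
    apply card_le_card
    intro σ hσ
    obtain ⟨h3, h4⟩ := mem_filter.1 hσ
    refine mem_star.2 ?_
    intro i hi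
    rcases mem_insert.1 hi with rfl | hi
    · exact hA σ h3
    · exact h4 i hi
  have h3 : ((A.filter (fun σ => ∀ i ∈ U, σ i = g i)).card : ℝ) ≤ ((n - (h + 3)).factorial : ℝ) := by
    have h4 := hcnt U (Subset.refl _)
    rw [hU] at h4
    exact_mod_cast h4
  have h4 : (B'.card : ℝ) ≤ (h + 2) * ((n - (h + 2)).factorial : ℝ) := by
    have h5 : B'.card ≤ ∑ i0 ∈ U, (A.filter (fun σ => ∀ i ∈ U.erase i0, σ i = g i)).card :=
      card_biUnion_le
    have h6 : ∑ i0 ∈ U, (A.filter (fun σ => ∀ i ∈ U.erase i0, σ i = g i)).card ≤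
        ∑ i0 ∈ U, (n - (h + 2)).factorial := by
      refine sum_le_sum fun i0 hi0 => ?_
      have h7 := hcnt (U.erase i0) (erase_subset _ _)
      rw [card_erase_of_mem hi0, hU, show h + 2 - 1 + 1 = h + 2 by omega] at h7
      exact h7
    rw [sum_const, hU, smul_eq_mul] at h6
    have h7 := le_trans h5 h6
    exact_mod_cast h7
  have h5 := sum_le_sum h2
  rw [sum_add_distrib, sum_add_distrib, ← mul_sum, sum_const, nsmul_eq_mul, sum_boole,
    sum_boole] at h5
  have h6 : ((A.filter (fun σ => σ ∈ B')).card : ℝ) ≤ (B'.card : ℝ) := by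
    have : (A.filter (fun σ => σ ∈ B')).card ≤ B'.card :=
      card_le_card fun σ hσ => (mem_filter.1 hσ).2
    exact_mod_cast this
  nlinarith

/-- the number of popular cells is at most `t + 2`, from the gap one level below -/
theorem step_y1 (ht : 2 ≤ t) {A : Finset (Perm (Fin (2 * t + 1)))} (hA : TInt t A)
    {p0 β1 p1 : ℝ} (hF : ((t + 1).factorial : ℝ) ≤ A.card) (hp0 : 0 < p0) (hb1 : 0 ≤ β1)
    (hB : β1 * p0 < 2 * p0 - 1) (hG1 : Gap (2 * t) (t - 1) p0 β1 p1)
    {g : Perm (Fin (2 * t + 1))} {T : Finset (Fin (2 * t + 1))}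
    (hpop : ∀ i ∈ T, p0 * A.card ≤ ((thr A i (g i)).card : ℝ))
    (hY : 2 + ((t : ℝ) + 2) * (t - 1) < (2 - (t + 2) * (1 - p1)) * (p0 * ((t + 1) * t * (t - 1)))) :
    T.card ≤ t + 2 := by
  classical
  by_contra hcon
  obtain ⟨c, hcT⟩ : T.Nonempty := by
    rw [← card_pos]
    omega
  obtain ⟨U, hUT, hUc⟩ := exists_subset_card_eq (show t + 2 ≤ (T.erase c).card by
    rw [card_erase_of_mem hcT]
    omega)
  have hcU : c ∉ U := fun h => (mem_erase.1 (hUT h)).1 rfl
  have hfac : (0 : ℝ) < ((t + 1).factorial : ℝ) := by exact_mod_cast Nat.factorial_pos _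
  have ha0 : (0 : ℝ) < (A.card : ℝ) := lt_of_lt_of_le hfac hF
  set X := thr A c (g c) with hXdef
  have hXc : p0 * A.card ≤ (X.card : ℝ) := hpop c hcT
  have hX0 : (0 : ℝ) < (X.card : ℝ) := lt_of_lt_of_le (mul_pos hp0 ha0) hXc
  have hXA : ∀ σ ∈ X, σ ∈ A ∧ σ c = g c := fun σ hσ => mem_filter.1 hσ
  have hTX : TInt t X := fun σ hσ τ hτ => hA σ (hXA σ hσ).1 τ (hXA τ hτ).1
  have hpopX : ∀ i ∈ U, p1 * X.card ≤ ((thr X i (g i)).card : ℝ) := by
    intro i hi
    have hiT : i ∈ T := (mem_erase.1 (hUT hi)).2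
    have hic : i ≠ c := (mem_erase.1 (hUT hi)).1
    have h2 := gap_star hG1 hb1 (t := t) (k := 1) (n := 2 * t + 1) (by omega) rfl (by omega)
      (by omega) (g := g) (T := {c}) (card_singleton c) hTX (by
        intro σ hσ k hk
        rw [mem_singleton] at hk
        rw [hk]
        exact (hXA σ hσ).2) (by
        rw [sub_eq]
        exact (mul_le_mul_of_nonneg_left hF hp0.le).trans hXc) i (g i) (by
        rw [mem_singleton]
        exact hic)
    rcases h2 with h2 | h2
    · exfalso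
      have h3 : thr A c (g c) ∩ thr A i (g i) = thr X i (g i) := by
        ext σ
        rw [mem_inter, hXdef]
        constructor
        · rintro ⟨h4, h5⟩
          exact mem_filter.2 ⟨h4, (mem_filter.1 h5).2⟩
        · intro h4
          obtain ⟨h5, h6⟩ := mem_filter.1 h4
          exact ⟨h5, mem_filter.2 ⟨(mem_filter.1 h5).1, h6⟩⟩
      have h4 := card_union_add_card_inter (thr A c (g c)) (thr A i (g i))
      have h5 : (thr A c (g c) ∪ thr A i (g i)).card ≤ A.card :=
        card_le_card (union_subset (filter_subset _ _) (filter_subset _ _))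
      rw [h3] at h4
      have h6 : X.card + (thr A i (g i)).card ≤ A.card + (thr X i (g i)).card := by
        rw [hXdef] at h4 ⊢
        omega
      have h7 : (X.card : ℝ) + ((thr A i (g i)).card : ℝ) ≤ A.card + ((thr X i (g i)).card : ℝ) := by
        exact_mod_cast h6
      have h8 := hpop i hiT
      -- p0 |X_i| ≥ p0 |X| - p0 (1 - p0) |A| ≥ (2 p0 - 1) |X|
      have h9 : (2 * p0 - 1) * (X.card : ℝ) ≤ p0 * ((thr X i (g i)).card : ℝ) := by
        have h10 : (X.card : ℝ) ≤ A.card := by exact_mod_cast card_le_card (filter_subset _ _)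
        have h11 : p0 * ((X.card : ℝ) + p0 * A.card) ≤ p0 * (A.card + ((thr X i (g i)).card : ℝ)) :=
          mul_le_mul_of_nonneg_left (by linarith) hp0.le
        have hp1 : p0 ≤ 1 := by
          by_contra hcon2
          push Not at hcon2
          nlinarith
        nlinarith [mul_nonneg (sub_nonneg.2 hp1) (sub_nonneg.2 hXc)]
      have h12 : p0 * ((thr X i (g i)).card : ℝ) ≤ p0 * (β1 * X.card) :=
        mul_le_mul_of_nonneg_left h2 hp0.le
      have h13 := mul_lt_mul_of_pos_right hB hX0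
      nlinarith
    · exact h2
  have h1 := core_many_star (h := t) (p := p1) (c := c) hcU (fun σ hσ => (hXA σ hσ).2) (by omega) hpopX
  rw [show 2 * t + 1 - (t + 3) = t - 2 by omega, show 2 * t + 1 - (t + 2) = t - 1 by omega] at h1
  obtain ⟨hf1, hf2, hf3⟩ := fac3 (t := t) ht
  have hff : (0 : ℝ) < ((t - 2).factorial : ℝ) := by exact_mod_cast Nat.factorial_pos _
  have htR : (2 : ℝ) ≤ t := by exact_mod_cast ht
  have hprod : (0 : ℝ) < ((t : ℝ) + 1) * t * (t - 1) := by
    have : (0 : ℝ) < t - 1 := by linarith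
    positivity
  have hpos : 0 < 2 - ((t : ℝ) + 2) * (1 - p1) := by
    by_contra hneg
    push Not at hneg
    have h3 : (2 - ((t : ℝ) + 2) * (1 - p1)) * (p0 * ((t + 1) * t * (t - 1))) ≤ 0 :=
      mul_nonpos_of_nonpos_of_nonneg hneg (mul_pos hp0 hprod).le
    nlinarith
  have h2 : (2 - ((t : ℝ) + 2) * (1 - p1)) * (p0 * ((t + 1).factorial : ℝ)) ≤
      (2 - ((t : ℝ) + 2) * (1 - p1)) * X.card :=
    mul_le_mul_of_nonneg_left ((mul_le_mul_of_nonneg_left hF hp0.le).trans hXc) hpos.le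
  have h3 := mul_lt_mul_of_pos_left hY hff
  rw [hf1] at h2
  rw [hf3] at h1
  nlinarith

/-- the inequalities of the general endgame, the count of popular cells one level below -/
structure NumY (t : ℕ) (β0 p0 β1 p1 β2 : ℝ) : Prop where
  ht : 5 ≤ t
  hb0 : 0 ≤ β0
  hb1 : 0 ≤ β1
  hb2 : 0 ≤ β2
  hp0 : 1 / 2 < p0
  ha : β0 * (2 * t) < t - 1
  hB : β1 * (t + 1) < 2
  hY0 : β1 * p0 < 2 * p0 - 1
  hY : 2 + ((t : ℝ) + 2) * (t - 1) < (2 - (t + 2) * (1 - p1)) * (p0 * ((t + 1) * t * (t - 1)))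
  hC1 : 1 < (2 - β2 * t) * (2 * p0 - 1) * (t + 1)
  hC2 : 2 + 3 / 8 * ((t : ℝ) * (t - 1)) < (2 - β2 * (t - 1)) * (2 * p0 - 1) * (t * (t + 1))
  hE : phi t < (2 - β1 * t) * p0 ∨
      1 < (2 - β1 * t) * p0 + (t - 1) * (1 - phi t / (2 - β1 * t)) ∨
      ∃ κ, Spec t κ ∧ κ < (2 - β1 * t) * p0

/-- the general endgame with the count one level below -/
theorem endY {β0 p0 β1 p1 β2 : ℝ} (N : NumY t β0 p0 β1 p1 β2) (hG0 : Gap (2 * t + 1) t 1 β0 p0)
    (hG1 : Gap (2 * t) (t - 1) p0 β1 p1)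
    (hL : ∀ (A : Finset (Perm (Fin (2 * t + 1)))) (g : Perm (Fin (2 * t + 1)))
      (T : Finset (Fin (2 * t + 1))), TInt t A → ((t + 1).factorial : ℝ) ≤ A.card →
      (∀ x y, ((thr A x y).card : ℝ) ≤ β0 * A.card ∨ p0 * A.card ≤ ((thr A x y).card : ℝ)) →
      (∀ x y, p0 * A.card ≤ ((thr A x y).card : ℝ) ↔ (x ∈ T ∧ y = g x)) →
      Low1 A g T β1 ∧ Low2 A g T β2)
    (hLink : Link t) (hK : ∀ n' t' : ℕ, 2 * t' + 3 ≤ n' → Holds n' t') : Holds (2 * t + 1) t := by
  classical
  have ht := N.ht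
  have htR : (5 : ℝ) ≤ t := by exact_mod_cast ht
  apply holds_of_good
  intro A hA
  by_cases hF' : A.card < (2 * t + 1 - t).factorial
  · exact good_of_lt hF'
  rw [not_lt, sub_eq] at hF'
  have hF : ((t + 1).factorial : ℝ) ≤ A.card := by exact_mod_cast hF'
  have hfac : (0 : ℝ) < ((t + 1).factorial : ℝ) := by exact_mod_cast Nat.factorial_pos _
  have ha0 : (0 : ℝ) < (A.card : ℝ) := lt_of_lt_of_le hfac hF
  have hne : A.Nonempty := by
    rw [← card_pos]
    exact_mod_cast ha0
  have hgap : ∀ x y, ((thr A x y).card : ℝ) ≤ β0 * A.card ∨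
      p0 * A.card ≤ ((thr A x y).card : ℝ) :=
    hG0 A hA (by rw [sub_eq, one_mul]; exact hF)
  obtain ⟨g, T, hpop, hcard⟩ := exists_pop hne N.hp0
  have hβ1 : β0 ≤ 1 := by nlinarith [N.ha, N.hb0]
  have h1 := pop_ge hA hne hβ1 hgap
  rw [hcard] at h1
  push_cast at h1
  have hT2 : 2 ≤ T.card := by
    by_contra hcon
    push Not at hcon
    have h2 : (T.card : ℝ) ≤ 1 := by exact_mod_cast (by omega : T.card ≤ 1)
    nlinarith [N.ha, N.hb0]
  obtain ⟨hL1, hL2⟩ := hL A g T hA hF hgap hpop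
  have hpop' : ∀ i ∈ T, p0 * A.card ≤ ((thr A i (g i)).card : ℝ) := fun i hi =>
    (hpop i (g i)).2 ⟨hi, rfl⟩
  have hTc := step_y1 (by omega) hA hF (by linarith [N.hp0]) N.hb1 N.hY0 hG1 hpop' N.hY
  have hXne : ∀ x ∈ T, (thr A x (g x)).Nonempty := by
    intro x hx
    rw [← card_pos]
    have h1 : (0 : ℝ) < ((thr A x (g x)).card : ℝ) :=
      lt_of_lt_of_le (mul_pos (by linarith [N.hp0]) ha0) (hpop' x hx)
    exact_mod_cast h1
  have hN : NoTwo A g T := by
    intro σ hσ i hi j hj hij h2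
    by_contra h3
    exact step_cH ht hA hF N.hb2 N.hp0 N.hC1 N.hC2 hL2 hTc hi hj hij (hpop' i hi) (hpop' j hj)
      hσ h2 h3 (step_bH (by omega) hA N.hb1 N.hB hL1 hσ hi h2 (hXne i hi)).1
  exact endG_aux ht hA hF hLink hK N.hb1 (by linarith [N.hp0]) N.hB hT2 hpop' hL1 hN N.hE

/-- two gaps: level two from level one -/
theorem endY_one {β0 p0 β1 p1 : ℝ} (N : NumY t β0 p0 β1 p1 (β1 * p0 / (2 * p0 - 1)))
    (hB : β0 < p0 * p1) (hG0 : Gap (2 * t + 1) t 1 β0 p0) (hG1 : Gap (2 * t) (t - 1) p0 β1 p1)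
    (hLink : Link t) (hK : ∀ n' t' : ℕ, 2 * t' + 3 ≤ n' → Holds n' t') : Holds (2 * t + 1) t :=
  endY N hG0 hG1 (fun A g T hA hF hgap hpop => by
    have h1 := low1_gap (le_trans (by norm_num) N.ht) hA hF N.hb0 N.hb1 (by linarith [N.hp0]) hB hgap hG1 hpop
    exact ⟨h1, low2_of_low1 N.hb1 N.hp0 hpop h1⟩) hLink hK

/-- three gaps -/
theorem endY_two {β0 p0 β1 p1 β2 p2 : ℝ} (N : NumY t β0 p0 β1 p1 β2)
    (hB1 : β0 < p0 * p1) (hB2 : β0 < (2 * p0 - 1) * p2) (hG0 : Gap (2 * t + 1) t 1 β0 p0)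
    (hG1 : Gap (2 * t) (t - 1) p0 β1 p1) (hG2 : Gap (2 * t - 1) (t - 2) (2 * p0 - 1) β2 p2)
    (hLink : Link t) (hK : ∀ n' t' : ℕ, 2 * t' + 3 ≤ n' → Holds n' t') : Holds (2 * t + 1) t :=
  endY N hG0 hG1 (fun A g T hA hF hgap hpop =>
    ⟨low1_gap (le_trans (by norm_num) N.ht) hA hF N.hb0 N.hb1 (by linarith [N.hp0]) hB1 hgap hG1 hpop,
      low2_gap (le_trans (by norm_num) N.ht) hA hF N.hb0 N.hb2 N.hp0 hB2 hgap hG2 hpop⟩) hLink hK

/-- numerical test: explicit constants at `m = 21` -/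
theorem numY_test : NumY 20 (93 / 1000) (875 / 1000) (63 / 1000) (914 / 1000)
    ((63 / 1000) * (875 / 1000) / (2 * (875 / 1000) - 1)) where
  ht := by norm_num
  hb0 := by norm_num
  hb1 := by norm_num
  hb2 := by norm_num
  hp0 := by norm_num
  ha := by norm_num
  hB := by norm_num
  hY0 := by norm_num
  hY := by norm_num
  hC1 := by norm_num
  hC2 := by norm_num
  hE := Or.inl (by unfold phi; norm_num)

end Pool.EG
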